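import Pool.Agent.Helper91.SP.B

/-!
Packet 116 (MP_ecbc8a_al, S03471): final assembly of the infinite part.
-/

set_option autoImplicit false

open Pool.Agent.Helper12.TwoLen

namespace Pool.Agent.Helper91.SP

theorem infAssembly (hBd : Bound) (hEG : ExistsGood) (hSt : Star) (hC : Cern) (hF : FinIdx)
    (hA : HHa) (hB : HHb) : Main := by
  intro G _ hlf hser hKex
  obtain ⟨K, hKfi, hK⟩ := hKex
  have hLG : LocFin G := hlf
  set K₀ : Subgroup G := K.normalCore with hK₀
  have hK₀n : K₀.Normal := Subgroup.normalCore_normal K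
  have hK₀f : K₀.FiniteIndex := by rw [hK₀]; infer_instance
  have hL : LocFin K₀ := locfin_subgroup hLG K₀
  have hSp : Sparse K₀ := sparse_sub hEG hLG K K₀ (Subgroup.normalCore_le K) hK
  have hs : ∀ F : Subgroup K₀, F.FG → ∃ m, rho^[m] F = ⊥ := by
    intro F hFG
    obtain ⟨n, S, h0, hn, h⟩ := hser (F.map K₀.subtype) (fg_map hFG _)
    have h1 := rhoIter_eq_bot_of_series (n := n) h0 (fun i hi => ⟨(h i hi).1, (h i hi).2.2⟩)
    rw [hn, ← map_rhoIter_of_injective _ K₀.subtype_injective] at h1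
    exact ⟨n, (Subgroup.map_eq_bot_iff_of_injective _ K₀.subtype_injective).1 h1⟩
  obtain ⟨m, hm⟩ := exists_rho hBd hL hSp hs
  -- the quotient by the largest normal 2-subgroup
  let q1 : K₀ →* K₀ ⧸ rad2 K₀ := QuotientGroup.mk' (rad2 K₀)
  have hq1 : Function.Surjective q1 := QuotientGroup.mk'_surjective _
  have hk1 : q1.ker = rad2 K₀ := QuotientGroup.ker_mk' _
  have hLb : LocFin (K₀ ⧸ rad2 K₀) := locfin_surj hL q1 hq1
  have hSb : Sparse (K₀ ⧸ rad2 K₀) := sparse_surj hL hSp q1 hq1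
  have hmb : rho^[m] (⊤ : Subgroup (K₀ ⧸ rad2 K₀)) = ⊥ := by
    have h1 := map_rhoIter hL.tor q1 m ⊤
    rw [hm, Subgroup.map_bot, Subgroup.map_top_of_surjective _ hq1] at h1
    exact h1.symm
  have hn2 := no_normal_2 hq1 hk1
  have hEb : ∀ E : Subgroup (K₀ ⧸ rad2 K₀), (∀ x ∈ E, x * x = 1) → Finite E := by
    intro E hE
    refine hSt _ hLb hSb E (radO _) hE radO_isO Nrm.of_normal ?_
    intro e he hc
    have h1 := hB _ hLb ⟨m, hmb⟩ (radO _) inferInstance radO_isO
      (fun Q h h2 => le_radO h h2) hn2 e (fun p hp => hc p hp)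
    exact eq_one_of_E2_EO ⟨1, by rw [pow_one, pow_two]; exact hE e he⟩ (radO_isO e h1)
  -- the quotient by the largest normal odd subgroup
  let q2 : (K₀ ⧸ rad2 K₀) →* (K₀ ⧸ rad2 K₀) ⧸ radO (K₀ ⧸ rad2 K₀) :=
    QuotientGroup.mk' (radO (K₀ ⧸ rad2 K₀))
  have hq2 : Function.Surjective q2 := QuotientGroup.mk'_surjective _
  have hk2 : q2.ker = radO (K₀ ⧸ rad2 K₀) := QuotientGroup.ker_mk' _
  have hLM := locfin_surj hLb q2 hq2
  have hmM : rho^[m] (⊤ : Subgroup ((K₀ ⧸ rad2 K₀) ⧸ radO (K₀ ⧸ rad2 K₀))) = ⊥ := by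
    have h1 := map_rhoIter hLb.tor q2 m ⊤
    rw [hmb, Subgroup.map_bot, Subgroup.map_top_of_surjective _ hq2] at h1
    exact h1.symm
  have hnO := no_normal_O hq2 hk2
  have hkO : IsO q2.ker := by rw [hk2]; exact radO_isO
  have hfi : (rad2 ((K₀ ⧸ rad2 K₀) ⧸ radO (K₀ ⧸ rad2 K₀))).FiniteIndex :=
    hF _ hLM (rad2 _) inferInstance rad2_is2 (fun Q h h2 => le_rad2 h h2)
      (hA _ hLM ⟨m, hmM⟩ (rad2 _) inferInstance rad2_is2 (fun Q h h2 => le_rad2 h h2) hnO)
      (fun E _ hE => elementary_quot hLb q2 hq2 hkO hEb E hE)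
  have hq21 : Function.Surjective (q2.comp q1) := hq2.comp hq1
  have cA : (rad2 K₀).Characteristic := char_rad2
  have cB : ((radO (K₀ ⧸ rad2 K₀)).comap q1).Characteristic :=
    char_comap_radO hq1 (by rw [hk1]; exact cA)
  have hk21 : (q2.comp q1).ker = (radO (K₀ ⧸ rad2 K₀)).comap q1 := by
    rw [← MonoidHom.comap_ker, hk2]
  have cC : ((rad2 ((K₀ ⧸ rad2 K₀) ⧸ radO (K₀ ⧸ rad2 K₀))).comap (q2.comp q1)).Characteristic :=
    char_comap_rad2 hq21 (by rw [hk21]; exact cB)
  constructor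
  · refine ⟨(rad2 K₀).map K₀.subtype, ((radO (K₀ ⧸ rad2 K₀)).comap q1).map K₀.subtype,
      ((rad2 ((K₀ ⧸ rad2 K₀) ⧸ radO (K₀ ⧸ rad2 K₀))).comap (q2.comp q1)).map K₀.subtype,
      inferInstance, inferInstance, inferInstance, ?_, ?_, ?_, ?_, ?_, ?_⟩
    · exact Subgroup.map_mono (hk1.symm.le.trans (q1.ker_le_comap _))
    · exact Subgroup.map_mono (hk21.symm.le.trans ((q2.comp q1).ker_le_comap _))
    · refine ⟨?_⟩
      rw [Subgroup.index_map_subtype, Subgroup.index_comap_of_surjective _ hq21]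
      exact mul_ne_zero hfi.index_ne_zero hK₀f.index_ne_zero
    · rw [← is2_iff_isPGroup]
      exact rad2_is2.map _
    · rintro _ ⟨x, hx, rfl⟩
      obtain ⟨k, ho, h⟩ := comap_radO_pow q1 hx
      rw [hk1] at h
      exact ⟨k, ho, ⟨_, h, by simp⟩⟩
    · rintro _ ⟨x, hx, rfl⟩
      obtain ⟨k, h⟩ := comap_rad2_pow (q2.comp q1) hx
      rw [hk21] at h
      exact ⟨k, ⟨_, h, by simp⟩⟩
  · intro H hH hHp
    have hAn : ((rad2 K₀).map K₀.subtype).Normal := inferInstance
    have hA2 : IsPGroup 2 ((rad2 K₀).map K₀.subtype) := is2_iff_isPGroup.1 (rad2_is2.map _)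
    have hAH : ∀ n, (rad2 K₀).map K₀.subtype ≤ H n := fun n =>
      le_trans (le_sSup (show (rad2 K₀).map K₀.subtype ∈
        {N : Subgroup G | N.Normal ∧ IsPGroup 2 N} from ⟨hAn, hA2⟩)) (hHp n).2
    -- the images in the quotient
    have hR2 : ∀ n, Is2 (((H n).comap K₀.subtype).map q1) := by
      intro n
      refine Is2.map ?_ _
      intro x hx
      exact E2_of_inj K₀.subtype_injective ((is2_iff_isPGroup.2 (hHp n).1) _ hx)
    have hRa : Antitone (fun n => ((H n).comap K₀.subtype).map q1) := fun i j h =>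
      Subgroup.map_mono (Subgroup.comap_mono (hH h))
    set R : ℕ → Subgroup (K₀ ⧸ rad2 K₀) := fun n => ((H n).comap K₀.subtype).map q1 with hR
    obtain ⟨-, hdcc⟩ := hC (R 0) (locfin_subgroup hLb _)
      (fun x => E2_of_inj (R 0).subtype_injective (hR2 0 _ x.2)) (by
        intro E hE
        have h1 : Finite (E.map (R 0).subtype) := hEb _ (by
          rintro _ ⟨x, hx, rfl⟩
          rw [← map_mul, hE x hx, map_one])
        exact Finite.of_injective (E.equivMapOfInjective _ (R 0).subtype_injective)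
          (E.equivMapOfInjective _ (R 0).subtype_injective).injective)
    obtain ⟨N₁, hN₁⟩ := hdcc (fun n => (R n).subgroupOf (R 0))
      (fun i j h => Subgroup.comap_mono (hRa h))
    have hN₁' : ∀ n ≥ N₁, R n = R N₁ := by
      intro n hn
      have h1 := congrArg (Subgroup.map (R 0).subtype) (hN₁ n hn)
      rwa [Subgroup.map_subgroupOf_eq_of_le (hRa (Nat.zero_le _)),
        Subgroup.map_subgroupOf_eq_of_le (hRa (Nat.zero_le _))] at h1
    have hL' : ∀ n, (H n).comap K₀.subtype = (R n).comap q1 := by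
      intro n
      rw [hR, Subgroup.comap_map_eq_self]
      rw [hk1]
      intro x hx
      exact hAH n ⟨x, hx, rfl⟩
    have hN₁'' : ∀ n ≥ N₁, H n ⊓ K₀ = H N₁ ⊓ K₀ := by
      intro n hn
      have h1 : (H n).comap K₀.subtype = (H N₁).comap K₀.subtype := by
        rw [hL', hL', hN₁' n hn]
      have h2 := congrArg (Subgroup.map K₀.subtype) h1
      rwa [Subgroup.map_comap_eq, Subgroup.map_comap_eq, Subgroup.range_subtype,
        inf_comm, inf_comm K₀] at h2
    -- the images in the finite quotient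
    have hfin : Finite (G ⧸ K₀) := inferInstance
    obtain ⟨N₂, hN₂⟩ := antitone_stab (fun n => (H n).map (QuotientGroup.mk' K₀))
      (fun i j h => Subgroup.map_mono (hH h))
    refine ⟨max N₁ N₂, fun n hn => ?_⟩
    refine eq_of_inf_map K₀ _ _ (hH hn) ?_ ?_
    · rw [hN₁'' n (le_trans (le_max_left _ _) hn), hN₁'' _ (le_max_left _ _)]
    · have h1 := hN₂ n (le_trans (le_max_right _ _) hn)
      have h2 := hN₂ (max N₁ N₂) (le_max_right _ _)
      exact h1.trans h2.symm

end Pool.Agent.Helper91.SP
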