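import Mathlib

/-!
The Euler numbers, by their exponential generating function `2 / (e^t + e^(-t))`.
-/

set_option autoImplicit false

namespace Pool.Agent.Helper91

/-- The Euler number `E_n`: `n!` times the coefficient of `t^n` in `2 / (e^t + e^(-t))`. -/
noncomputable def eulerNum (n : ℕ) : ℚ :=
  (Nat.factorial n : ℚ) * PowerSeries.coeff n
    (2 * (PowerSeries.exp ℚ + PowerSeries.evalNegHom (PowerSeries.exp ℚ))⁻¹)

end Pool.Agent.Helper91
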