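import Pool.Agent.Helper91.Main2
import Pool.Agent.Helper91.EulerDef

/-!
Alternating power sums and Euler numbers.
-/

set_option autoImplicit false

namespace Pool.Agent.Helper91

open Finset

/-- the generating function of the Euler numbers. -/
noncomputable def eulerSer : PowerSeries ℚ :=
  2 * (PowerSeries.exp ℚ + PowerSeries.evalNegHom (PowerSeries.exp ℚ))⁻¹

/-- `e^(a t)`. -/
noncomputable def exS (a : ℚ) : PowerSeries ℚ := PowerSeries.rescale a (PowerSeries.exp ℚ)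

theorem exS_mul (a b : ℚ) : exS a * exS b = exS (a + b) :=
  PowerSeries.exp_mul_exp_eq_exp_add a b

theorem exS_zero : exS 0 = 1 := by
  unfold exS
  rw [PowerSeries.rescale_zero_apply, PowerSeries.constantCoeff_exp, map_one]

theorem coeff_exS (a : ℚ) (n : ℕ) : PowerSeries.coeff n (exS a) = a ^ n / (Nat.factorial n : ℚ) := by
  unfold exS
  rw [PowerSeries.coeff_rescale, PowerSeries.coeff_exp]
  simp [div_eq_mul_inv]

theorem eulerSer_mul : eulerSer * (exS 1 + exS (-1)) = 2 := by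
  have h1 : exS 1 = PowerSeries.exp ℚ := by
    unfold exS
    rw [PowerSeries.rescale_one]; rfl
  have h2 : exS (-1) = PowerSeries.evalNegHom (PowerSeries.exp ℚ) := rfl
  rw [h1, h2, eulerSer, mul_assoc, PowerSeries.inv_mul_cancel, mul_one]
  have h3 : PowerSeries.constantCoeff (PowerSeries.evalNegHom (PowerSeries.exp ℚ)) = 1 := by
    rw [← h2, ← PowerSeries.coeff_zero_eq_constantCoeff_apply, coeff_exS]
    simp
  rw [map_add, h3, PowerSeries.constantCoeff_exp]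
  norm_num

theorem eulerNum_eq (n : ℕ) : eulerNum n = (Nat.factorial n : ℚ) * PowerSeries.coeff n eulerSer := rfl

theorem coeff_euler_exS (x : ℚ) (n : ℕ) :
    (Nat.factorial n : ℚ) * PowerSeries.coeff n (eulerSer * exS x) =
      ∑ i ∈ range (n + 1), (Nat.choose n i : ℚ) * eulerNum i * x ^ (n - i) := by
  rw [PowerSeries.coeff_mul, Finset.Nat.sum_antidiagonal_eq_sum_range_succ_mk, mul_sum]
  apply sum_congr rfl
  intro i hi
  have hi := mem_range_succ_iff.mp hi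
  rw [coeff_exS, eulerNum_eq]
  have h := Nat.choose_mul_factorial_mul_factorial hi
  have h' : (Nat.choose n i : ℚ) * (Nat.factorial i) * (Nat.factorial (n - i)) =
      Nat.factorial n := by exact_mod_cast h
  have h1 := fact_ne (n - i)
  rw [← h']
  field_simp

theorem coeff_two (n : ℕ) (hn : 0 < n) : PowerSeries.coeff n (2 : PowerSeries ℚ) = 0 := by
  have : (2 : PowerSeries ℚ) = PowerSeries.C (2 : ℚ) := (map_ofNat PowerSeries.C 2).symm
  rw [this, PowerSeries.coeff_C, if_neg hn.ne']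

/-- recurrence. -/
theorem euler_rec (n : ℕ) (hn : 0 < n) :
    ∑ i ∈ range (n + 1), (Nat.choose n i : ℚ) * eulerNum i * (1 + (-1) ^ (n - i)) = 0 := by
  have h1 := coeff_euler_exS 1 n
  have h2 := coeff_euler_exS (-1) n
  have h3 : PowerSeries.coeff n (eulerSer * exS 1) + PowerSeries.coeff n (eulerSer * exS (-1)) =
      0 := by
    rw [← map_add, ← mul_add, eulerSer_mul, coeff_two n hn]
  have h4 : ∑ i ∈ range (n + 1), (Nat.choose n i : ℚ) * eulerNum i * (1 + (-1) ^ (n - i)) =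
      ∑ i ∈ range (n + 1), (Nat.choose n i : ℚ) * eulerNum i * 1 ^ (n - i) +
      ∑ i ∈ range (n + 1), (Nat.choose n i : ℚ) * eulerNum i * (-1) ^ (n - i) := by
    rw [← sum_add_distrib]
    apply sum_congr rfl
    intro i _
    rw [one_pow]; ring
  rw [h4, ← h1, ← h2, ← mul_add, h3, mul_zero]

theorem euler_zero : eulerNum 0 = 1 := by
  have h1 := coeff_euler_exS 1 0
  have h2 := coeff_euler_exS (-1) 0
  have h3 : PowerSeries.coeff 0 (eulerSer * exS 1) + PowerSeries.coeff 0 (eulerSer * exS (-1)) =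
      2 := by
    rw [← map_add, ← mul_add, eulerSer_mul]
    have : (2 : PowerSeries ℚ) = PowerSeries.C (2 : ℚ) := (map_ofNat PowerSeries.C 2).symm
    rw [this, PowerSeries.coeff_C, if_pos rfl]
  simp at h1 h2 h3
  linarith

theorem euler_odd (n : ℕ) (hn : Odd n) : eulerNum n = 0 := by
  induction n using Nat.strong_induction_on with
  | _ n ih =>
    have hpos : 0 < n := hn.pos
    have h := euler_rec n hpos
    rw [sum_range_succ, sum_eq_zero] at h
    · simp at h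
      have h2 : eulerNum n * (1 + 1) = 0 := by linarith
      linarith
    · intro i hi
      have hi := mem_range.mp hi
      rcases Nat.even_or_odd i with he | ho
      · have : Odd (n - i) := Nat.Odd.sub_even hi.le hn he
        rw [this.neg_one_pow]; simp
      · rw [ih i hi ho]; simp

theorem euler_int (n : ℕ) : ∃ z : ℤ, eulerNum n = z := by
  induction n using Nat.strong_induction_on with
  | _ n ih =>
    rcases Nat.eq_zero_or_pos n with h0 | hpos
    · subst h0; exact ⟨1, by rw [euler_zero]; norm_num⟩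
    · have h := euler_rec n hpos
      rw [sum_range_succ] at h
      simp only [Nat.choose_self, Nat.cast_one, one_mul, Nat.sub_self, pow_zero] at h
      have h2 : ∃ z : ℤ, ∑ i ∈ range n, (Nat.choose n i : ℚ) * eulerNum i * (1 + (-1) ^ (n - i)) =
          2 * z := by
        have h3 : ∀ i ∈ range n, ∃ z : ℤ,
            (Nat.choose n i : ℚ) * eulerNum i * (1 + (-1) ^ (n - i)) = 2 * z := by
          intro i hi
          obtain ⟨w, hw⟩ := ih i (mem_range.mp hi)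
          rcases Nat.even_or_odd (n - i) with he | ho
          · refine ⟨(Nat.choose n i : ℤ) * w, ?_⟩
            rw [he.neg_one_pow, hw]; push_cast; ring
          · refine ⟨0, ?_⟩
            rw [ho.neg_one_pow]; simp
        choose! f hf using h3
        refine ⟨∑ i ∈ range n, f i, ?_⟩
        rw [sum_congr rfl hf]
        push_cast
        rw [mul_sum]
      obtain ⟨z, hz⟩ := h2
      refine ⟨-z, ?_⟩
      push_cast
      rw [hz] at h
      linarith

/-- telescoping. -/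
theorem euler_tele (N : ℕ) :
    eulerSer * (1 - PowerSeries.C ((-1 : ℚ) ^ N) * exS (2 * N)) =
      2 * ∑ k ∈ range N, PowerSeries.C ((-1 : ℚ) ^ k) * exS (2 * k + 1) := by
  induction N with
  | zero => simp [exS_zero]
  | succ N ih =>
    rw [sum_range_succ, mul_add, ← ih]
    have h1 : exS (2 * (N : ℚ) + 1) * exS 1 = exS (2 * ((N + 1 : ℕ) : ℚ)) := by
      rw [exS_mul]; congr 1; push_cast; ring
    have h2 : exS (2 * (N : ℚ) + 1) * exS (-1) = exS (2 * (N : ℚ)) := by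
      rw [exS_mul]; congr 1; ring
    have h3 : (2 : PowerSeries ℚ) * (PowerSeries.C ((-1 : ℚ) ^ N) * exS (2 * N + 1)) =
        eulerSer * (PowerSeries.C ((-1 : ℚ) ^ N) *
          (exS (2 * ((N + 1 : ℕ) : ℚ)) + exS (2 * (N : ℚ)))) := by
      rw [← h1, ← h2, ← mul_add, ← eulerSer_mul]; ring
    rw [h3, pow_succ]
    have h4 : PowerSeries.C ((-1 : ℚ) ^ N * -1) = -PowerSeries.C ((-1 : ℚ) ^ N) := by
      rw [mul_neg_one, map_neg]
    rw [h4]
    ring

theorem euler_sum (N r : ℕ) :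
    2 * ∑ k ∈ range N, (-1 : ℚ) ^ k * (2 * k + 1) ^ r =
      eulerNum r - (-1) ^ N * ∑ i ∈ range (r + 1), (Nat.choose r i : ℚ) * eulerNum i *
        (2 * N) ^ (r - i) := by
  have h := congrArg (fun f => (Nat.factorial r : ℚ) * PowerSeries.coeff r f) (euler_tele N)
  have e1 : eulerSer * (1 - PowerSeries.C ((-1 : ℚ) ^ N) * exS (2 * N)) =
      eulerSer - PowerSeries.C ((-1 : ℚ) ^ N) * (eulerSer * exS (2 * N)) := by ring
  rw [e1, map_sub, PowerSeries.coeff_C_mul, mul_sub, ← eulerNum_eq] at h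
  have e2 : (Nat.factorial r : ℚ) * ((-1) ^ N * PowerSeries.coeff r (eulerSer * exS (2 * N))) =
      (-1) ^ N * ((Nat.factorial r : ℚ) * PowerSeries.coeff r (eulerSer * exS (2 * N))) := by ring
  rw [e2, coeff_euler_exS] at h
  rw [h]
  have e3 : (2 : PowerSeries ℚ) = PowerSeries.C (2 : ℚ) := (map_ofNat PowerSeries.C 2).symm
  rw [e3, PowerSeries.coeff_C_mul, map_sum, ← mul_assoc, mul_comm (Nat.factorial r : ℚ) 2,
    mul_assoc, mul_sum, mul_sum, mul_sum]
  apply sum_congr rfl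
  intro k _
  rw [PowerSeries.coeff_C_mul, coeff_exS]
  have h1 := fact_ne r
  field_simp

theorem euler_shift (r : ℕ) (hr : Even r) (hpos : 0 < r) :
    ∑ i ∈ range (r + 1), (Nat.choose r i : ℚ) * eulerNum i * (-1) ^ (r - i) = 0 := by
  have h := euler_rec r hpos
  have h2 : ∑ i ∈ range (r + 1), (Nat.choose r i : ℚ) * eulerNum i * (1 + (-1) ^ (r - i)) =
      2 * ∑ i ∈ range (r + 1), (Nat.choose r i : ℚ) * eulerNum i * (-1) ^ (r - i) := by
    rw [mul_sum]
    apply sum_congr rfl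
    intro i hi
    have hi := mem_range_succ_iff.mp hi
    rcases Nat.even_or_odd i with he | ho
    · have : Even (r - i) := (Nat.even_sub hi).mpr ⟨fun _ => he, fun _ => hr⟩
      rw [this.neg_one_pow]; ring
    · rw [euler_odd i ho]; ring
  rw [h2] at h
  linarith

section
variable {p : ℕ} (hp : p.Prime) (h5 : 5 ≤ p)
include hp h5

theorem fermat_cong (x : ℤ) (hx : ¬ (p : ℤ) ∣ x) : Dv p 1 ((x : ℚ) ^ (p - 3) - 1 / (x : ℚ) ^ 2) := by
  have hx0 := ne_of_not_dvd hx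
  have h1 : x ^ (p - 1) ≡ 1 [ZMOD p] :=
    Int.ModEq.pow_card_sub_one_eq_one hp ((prime_int hp).coprime_iff_not_dvd.mpr hx).symm
  obtain ⟨c, hc⟩ := h1.dvd
  have hc' : (1 : ℚ) - (x : ℚ) ^ (p - 1) = p * c := by exact_mod_cast hc
  have e1 : (x : ℚ) ^ (p - 1) = (x : ℚ) ^ (p - 3) * (x : ℚ) ^ 2 := by
    rw [← pow_add]; congr 1; omega
  have e2 : (x : ℚ) ^ (p - 3) - 1 / (x : ℚ) ^ 2 = p * (-c) * ((x : ℚ)⁻¹ ^ 2) := by
    rw [e1] at hc'
    field_simp
    linear_combination -hc'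
  rw [e2]
  exact Dv_mul_int hp (Dv_mul_int hp (Dv_p hp) (Dv_neg (Dv_int hp c)))
    (Dv_pow hp (Dv_inv_int hp hx) 2)

theorem pow_cong (n : ℕ) : Dv p 1 (((p : ℚ) - 1) ^ n - (-1) ^ n) := by
  have h1 : ((p : ℤ) - 1) ^ n ≡ (-1) ^ n [ZMOD p] := by
    apply Int.ModEq.pow
    apply Int.ModEq.symm
    rw [Int.modEq_iff_dvd]
    exact ⟨1, by ring⟩
  obtain ⟨c, hc⟩ := h1.dvd
  have hc' : (-1 : ℚ) ^ n - ((p : ℚ) - 1) ^ n = p * c := by exact_mod_cast hc
  have e2 : ((p : ℚ) - 1) ^ n - (-1) ^ n = p * (-c) := by linear_combination -hc'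
  rw [e2]
  exact Dv_mul_int hp (Dv_p hp) (Dv_neg (Dv_int hp c))

theorem euler_sum_cong {m : ℕ} (hm : p = 2 * m + 1) :
    Dv p 1 (2 * ∑ k ∈ range m, (-1 : ℚ) ^ k * (2 * k + 1) ^ (p - 3) - eulerNum (p - 3)) := by
  rw [euler_sum]
  have hr : Even (p - 3) := ⟨m - 1, by omega⟩
  have h2 := euler_shift (p - 3) hr (by omega)
  have e : eulerNum (p - 3) - (-1) ^ m * ∑ i ∈ range (p - 3 + 1), (Nat.choose (p - 3) i : ℚ) *
      eulerNum i * (2 * m) ^ (p - 3 - i) - eulerNum (p - 3) =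
      ∑ i ∈ range (p - 3 + 1), -((-1) ^ m * ((Nat.choose (p - 3) i : ℚ) * eulerNum i)) *
        (((p : ℚ) - 1) ^ (p - 3 - i) - (-1) ^ (p - 3 - i)) := by
    have e1 : (2 * (m : ℚ)) = (p : ℚ) - 1 := by rw [hm]; push_cast; ring
    have e3 : ∑ i ∈ range (p - 3 + 1), -((-1 : ℚ) ^ m * ((Nat.choose (p - 3) i : ℚ) * eulerNum i)) *
        (((p : ℚ) - 1) ^ (p - 3 - i) - (-1) ^ (p - 3 - i)) =
        -(-1) ^ m * (∑ i ∈ range (p - 3 + 1), (Nat.choose (p - 3) i : ℚ) *
      eulerNum i * ((p : ℚ) - 1) ^ (p - 3 - i)) + (-1) ^ m * ∑ i ∈ range (p - 3 + 1),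
      (Nat.choose (p - 3) i : ℚ) * eulerNum i * (-1) ^ (p - 3 - i) := by
      rw [mul_sum, mul_sum, ← sum_add_distrib]
      apply sum_congr rfl
      intro i _
      ring
    rw [e3, h2, e1]
    ring
  rw [e]
  apply Dv_sum hp
  intro i _
  obtain ⟨z, hz⟩ := euler_int i
  have hs : Dv p 0 ((-1 : ℚ) ^ m) := by
    have := Dv_int hp ((-1) ^ m)
    push_cast at this
    exact this
  refine Dv_int_mul hp (Dv_neg (Dv_mul_int hp hs (Dv_mul_int hp (Dv_nat hp _) ?_)))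
    (pow_cong hp h5 _)
  rw [hz]; exact Dv_int hp z

/-- the alternating sum `∑_{j ≤ m} (-1)^j / j^2`. -/
theorem alt_cong {m : ℕ} (hm : p = 2 * m + 1) :
    Dv p 1 (∑ k ∈ range m, (-1 : ℚ) ^ k / ((k : ℚ) + 1) ^ 2 + 2 * (-1) ^ m * eulerNum (p - 3)) := by
  have h := Dv_half hp h5
  have h1 := euler_sum_cong hp h5 hm
  have hs : Dv p 0 ((-1 : ℚ) ^ m) := by
    have := Dv_int hp ((-1) ^ m)
    push_cast at this
    exact this
  -- first: replace the powers
  have h2 : Dv p 1 (∑ k ∈ range m, (-1 : ℚ) ^ k * (2 * k + 1) ^ (p - 3) -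
      ∑ k ∈ range m, (-1 : ℚ) ^ k * (1 / (2 * k + 1) ^ 2)) := by
    rw [← sum_sub_distrib]
    apply Dv_sum hp
    intro k hk
    have hk := mem_range.mp hk
    have hnd : ¬ (p : ℤ) ∣ (2 * k + 1) := by
      intro hd
      have : p ∣ (2 * k + 1) := by exact_mod_cast hd
      have := Nat.le_of_dvd (by omega) this
      omega
    have h3 := fermat_cong hp h5 (2 * k + 1) hnd
    push_cast at h3
    have hk' : Dv p 0 ((-1 : ℚ) ^ k) := by
      have := Dv_int hp ((-1) ^ k)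
      push_cast at this
      exact this
    rw [← mul_sub]
    exact Dv_int_mul hp hk' h3
  -- reversal
  have h3 : Dv p 1 (∑ k ∈ range m, (-1 : ℚ) ^ k * (1 / (2 * k + 1) ^ 2) +
      (-1) ^ m * (1 / 2 * (1 / 2)) * ∑ k ∈ range m, (-1 : ℚ) ^ k / ((k : ℚ) + 1) ^ 2) := by
    have e1 : ∑ k ∈ range m, (-1 : ℚ) ^ k * (1 / (2 * k + 1) ^ 2) =
        ∑ k ∈ range m, (-1 : ℚ) ^ (m - 1 - k) * (1 / (2 * ((m - 1 - k : ℕ) : ℚ) + 1) ^ 2) := by
      rw [← sum_range_reflect]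
    rw [e1, mul_sum, ← sum_add_distrib]
    apply Dv_sum hp
    intro k hk
    have hk := mem_range.mp hk
    obtain ⟨d, hd⟩ : ∃ d, m = k + 1 + d := ⟨m - (k + 1), by omega⟩
    have e2 : m - 1 - k = d := by omega
    rw [e2]
    have e3 : (-1 : ℚ) ^ m * (-1) ^ k = -(-1) ^ d := by
      rw [hd, ← pow_add]
      have : k + 1 + d + k = 2 * k + (d + 1) := by ring
      rw [this, pow_add, pow_mul]
      simp [pow_succ]
    have hd' : Dv p 0 ((-1 : ℚ) ^ d) := by
      have := Dv_int hp ((-1) ^ d)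
      push_cast at this
      exact this
    have u1 : ((k : ℚ) + 1) ≠ 0 := by positivity
    have u2 : (2 * (d : ℚ) + 1) ≠ 0 := by positivity
    have e4 : (p : ℚ) = 2 * (k + 1) + (2 * d + 1) := by
      rw [hm, hd]; push_cast; ring
    have e5 : (-1 : ℚ) ^ d * (1 / (2 * d + 1) ^ 2) + (-1) ^ m * (1 / 2 * (1 / 2)) *
        ((-1) ^ k / ((k : ℚ) + 1) ^ 2) =
        (-1) ^ d * ((1 / (2 * d + 1) ^ 2) - 1 / 2 * (1 / 2) * (1 / ((k : ℚ) + 1) ^ 2)) := by
      have : (-1 : ℚ) ^ m * (1 / 2 * (1 / 2)) * ((-1) ^ k / ((k : ℚ) + 1) ^ 2) =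
        ((-1 : ℚ) ^ m * (-1) ^ k) * (1 / 2 * (1 / 2)) * (1 / ((k : ℚ) + 1) ^ 2) := by ring
      rw [this, e3]; ring
    have e6 : (1 / (2 * (d : ℚ) + 1) ^ 2) - 1 / 2 * (1 / 2) * (1 / ((k : ℚ) + 1) ^ 2) =
        p * (4 * (k + 1) - p) * (1 / 2 * (1 / 2)) * ((2 * (d : ℚ) + 1)⁻¹ ^ 2 * ((k : ℚ) + 1)⁻¹ ^ 2) := by
      rw [e4]
      field_simp
      ring
    rw [e5, e6]
    have v1 : Dv p 0 ((2 * (d : ℚ) + 1)⁻¹) := by
      have hnd : ¬ p ∣ (2 * d + 1) := by
        intro hd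
        have := Nat.le_of_dvd (by omega) hd
        omega
      have := Dv_inv_nat hp hnd
      push_cast at this
      exact this
    have v2 : Dv p 0 (((k : ℚ) + 1)⁻¹) := by
      have hnd : ¬ p ∣ (k + 1) := by
        intro hd
        have := Nat.le_of_dvd (by omega) hd
        omega
      have := Dv_inv_nat hp hnd
      push_cast at this
      exact this
    have v3 : Dv p 0 (4 * ((k : ℚ) + 1) - p) := by
      have := Dv_int hp (4 * (k + 1) - p)
      push_cast at this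
      exact this
    exact Dv_int_mul hp hd' (Dv_mul_int hp (Dv_mul_int hp (Dv_mul_int hp (Dv_p hp) v3)
      (Dv_mul_int hp h h)) (Dv_mul_int hp (Dv_pow hp v1 2) (Dv_pow hp v2 2)))
  have hsq := neg_one_sq m
  have e : ∑ k ∈ range m, (-1 : ℚ) ^ k / ((k : ℚ) + 1) ^ 2 + 2 * (-1) ^ m * eulerNum (p - 3) =
      4 * (-1) ^ m * (∑ k ∈ range m, (-1 : ℚ) ^ k * (1 / (2 * k + 1) ^ 2) +
      (-1) ^ m * (1 / 2 * (1 / 2)) * ∑ k ∈ range m, (-1 : ℚ) ^ k / ((k : ℚ) + 1) ^ 2) +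
      4 * (-1) ^ m * (∑ k ∈ range m, (-1 : ℚ) ^ k * (2 * k + 1) ^ (p - 3) -
      ∑ k ∈ range m, (-1 : ℚ) ^ k * (1 / (2 * k + 1) ^ 2)) -
      2 * (-1) ^ m * (2 * ∑ k ∈ range m, (-1 : ℚ) ^ k * (2 * k + 1) ^ (p - 3) -
        eulerNum (p - 3)) := by
    linear_combination (-(∑ k ∈ range m, (-1 : ℚ) ^ k / ((k : ℚ) + 1) ^ 2)) * hsq
  rw [e]
  refine Dv_sub hp (Dv_add hp ?_ ?_) ?_
  · exact Dv_int_mul hp (Dv_mul_int hp (Dv_ofNat hp 4) hs) h3
  · exact Dv_int_mul hp (Dv_mul_int hp (Dv_ofNat hp 4) hs) h2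
  · exact Dv_int_mul hp (Dv_mul_int hp (Dv_ofNat hp 2) hs) h1

/-- scaled form. -/
theorem alt_cong3 {m : ℕ} (hm : p = 2 * m + 1) :
    Dv p 3 (∑ k ∈ range m, (-1 : ℚ) ^ k * zq (2 * m + 1) k ^ 2 +
      2 * (-1) ^ m * ((p : ℚ) ^ 2 * eulerNum (p - 3))) := by
  have h1 := alt_cong hp h5 hm
  have e : ∑ k ∈ range m, (-1 : ℚ) ^ k * zq (2 * m + 1) k ^ 2 +
      2 * (-1) ^ m * ((p : ℚ) ^ 2 * eulerNum (p - 3)) = (p : ℚ) ^ 2 *
      (∑ k ∈ range m, (-1 : ℚ) ^ k / ((k : ℚ) + 1) ^ 2 + 2 * (-1) ^ m * eulerNum (p - 3)) := by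
    rw [mul_add, mul_sum]
    congr 1
    · apply sum_congr rfl
      intro k _
      unfold zq
      rw [← hm]
      field_simp
    · ring
  rw [e]
  have := Dv_mul hp (Dv_ppow hp 2) h1
  exact this

theorem euler_Dv (n : ℕ) : Dv p 0 (eulerNum n) := by
  obtain ⟨z, hz⟩ := euler_int n
  rw [hz]; exact Dv_int hp z

end

end Pool.Agent.Helper91
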