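import Mathlib

/-!
Explicit WZ pairs for the series with summands `(6n+1) binom(2n,n)^3/256^n`,
`(42n+5) binom(2n,n)^3/4096^n` and `(6n+1) binom(2n,n)^3/(-512)^n`.
-/

set_option autoImplicit false

namespace Pool.Agent.Helper91

open Finset

/-- `(1/2)_n`. -/
def hf (n : ℕ) : ℚ := ∏ i ∈ range n, ((i : ℚ) + 1 / 2)

theorem hf_zero : hf 0 = 1 := by simp [hf]

theorem hf_succ (n : ℕ) : hf (n + 1) = (n + 1 / 2) * hf n := by
  rw [hf, prod_range_succ, ← hf, mul_comm]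

theorem hf_pos (n : ℕ) : 0 < hf n := by
  unfold hf
  apply prod_pos
  intro i _
  positivity

theorem hf_ne (n : ℕ) : hf n ≠ 0 := (hf_pos n).ne'

/-- `(1/2)_z` for integers `z`. -/
def hz : ℤ → ℚ
  | Int.ofNat n => hf n
  | Int.negSucc n => (∏ i ∈ range (n + 1), (-(i : ℚ) - 1 / 2))⁻¹

theorem hz_nat (n : ℕ) : hz (n : ℤ) = hf n := rfl

theorem hz_add_one (z : ℤ) : hz (z + 1) = (z + 1 / 2) * hz z := by
  rcases z with n | n
  · have : (Int.ofNat n + 1) = Int.ofNat (n + 1) := rfl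
    rw [this]
    simp only [hz]
    rw [hf_succ]
    simp
  · rcases n with _ | n
    · have : Int.negSucc 0 + 1 = Int.ofNat 0 := rfl
      rw [this]
      simp [hz, hf]
      norm_num
    · have : Int.negSucc (n + 1) + 1 = Int.negSucc n := rfl
      rw [this]
      simp only [hz]
      rw [prod_range_succ _ (n + 1)]
      have h1 : (-((n + 1 : ℕ) : ℚ) - 1 / 2) ≠ 0 := by
        have : (0 : ℚ) < ((n + 1 : ℕ) : ℚ) + 1 / 2 := by positivity
        intro h
        linarith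
      rw [mul_inv, mul_comm _ ((-((n + 1 : ℕ) : ℚ) - 1 / 2)⁻¹), ← mul_assoc]
      have h2 : ((Int.negSucc (n + 1) : ℤ) : ℚ) + 1 / 2 = (-((n + 1 : ℕ) : ℚ) - 1 / 2) := by
        rw [Int.cast_negSucc]; push_cast; ring
      rw [h2, mul_inv_cancel₀ h1, one_mul]

/-- `1 / z!` for integers `z`, zero for negative `z`. -/
def rf : ℤ → ℚ
  | Int.ofNat n => ((Nat.factorial n : ℕ) : ℚ)⁻¹
  | Int.negSucc _ => 0

theorem rf_nat (n : ℕ) : rf (n : ℤ) = ((Nat.factorial n : ℕ) : ℚ)⁻¹ := rfl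

theorem rf_neg {z : ℤ} (h : z < 0) : rf z = 0 := by
  rcases z with n | n
  · exfalso
    exact absurd h (not_lt.mpr (Int.natCast_nonneg n))
  · rfl

theorem rf_sub_one (z : ℤ) : rf (z - 1) = z * rf z := by
  rcases z with n | n
  · rcases n with _ | n
    · have : (Int.ofNat 0 - 1) = Int.negSucc 0 := rfl
      rw [this]; simp [rf]
    · have : (Int.ofNat (n + 1) - 1) = Int.ofNat n := by
        simp
      rw [this]
      simp only [rf]
      rw [Nat.factorial_succ]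
      have h1 : ((n : ℚ) + 1) ≠ 0 := by positivity
      have h2 : ((Nat.factorial n : ℕ) : ℚ) ≠ 0 := by exact_mod_cast Nat.factorial_ne_zero n
      push_cast
      simp only [Int.ofNat_eq_natCast]
      push_cast
      field_simp
  · have : (Int.negSucc n - 1) = Int.negSucc (n + 1) := rfl
    rw [this]; simp [rf]

theorem rf_zero : rf 0 = 1 := by
  have := rf_nat 0
  simpa using this

/-! ### Pair A -/

/-- first member of WZ pair A. -/
def FA (n k : ℕ) : ℚ :=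
  (6 * n - 2 * k + 1) * hz n * hz ((n : ℤ) + k) * hz ((n : ℤ) - k) * rf n ^ 2 * rf ((n : ℤ) - k) /
    (hz k * 4 ^ n)

/-- second member of WZ pair A. -/
def GA (n k : ℕ) : ℚ :=
  8 * hz n * hz ((n : ℤ) + k - 1) * hz ((n : ℤ) - k) * rf ((n : ℤ) - 1) ^ 2 * rf ((n : ℤ) - k) /
    (hz k * 4 ^ n)

theorem wzA (n k : ℕ) : FA n k - FA n (k + 1) = GA (n + 1) (k + 1) - GA n (k + 1) := by
  unfold FA GA
  have e1 : hz ((n : ℤ) + ((k + 1 : ℕ) : ℤ)) = ((n : ℚ) + k + 1 / 2) * hz ((n : ℤ) + k) := by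
    have := hz_add_one ((n : ℤ) + k)
    push_cast at this ⊢
    rw [← add_assoc, this]
  have e2 : hz ((n : ℤ) - k) = ((n : ℚ) - k - 1 / 2) * hz ((n : ℤ) - ((k + 1 : ℕ) : ℤ)) := by
    have := hz_add_one ((n : ℤ) - ((k + 1 : ℕ) : ℤ))
    have e : (n : ℤ) - ((k + 1 : ℕ) : ℤ) + 1 = (n : ℤ) - k := by push_cast; ring
    rw [e] at this
    rw [this]
    push_cast
    ring
  have e3 : hz ((k + 1 : ℕ) : ℤ) = ((k : ℚ) + 1 / 2) * hz k := by
    have := hz_add_one (k : ℤ)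
    push_cast at this ⊢
    rw [this]
  have e4 : rf ((n : ℤ) - ((k + 1 : ℕ) : ℤ)) = ((n : ℚ) - k) * rf ((n : ℤ) - k) := by
    have := rf_sub_one ((n : ℤ) - k)
    have e : (n : ℤ) - ((k + 1 : ℕ) : ℤ) = (n : ℤ) - k - 1 := by push_cast; ring
    rw [e, this]
    push_cast
    ring
  have e5 : rf ((n : ℤ) - 1) = (n : ℚ) * rf n := by
    have := rf_sub_one (n : ℤ)
    rw [this]
    push_cast
    ring
  have e6 : hz ((n + 1 : ℕ) : ℤ) = ((n : ℚ) + 1 / 2) * hz n := by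
    have := hz_add_one (n : ℤ)
    push_cast at this ⊢
    rw [this]
  have e7 : hz (((n + 1 : ℕ) : ℤ) + ((k + 1 : ℕ) : ℤ) - 1) = ((n : ℚ) + k + 1 / 2) * hz ((n : ℤ) + k) := by
    rw [← e1]
    congr 1
    push_cast; ring
  have e8 : hz ((n : ℤ) + ((k + 1 : ℕ) : ℤ) - 1) = hz ((n : ℤ) + k) := by
    congr 1
    push_cast; ring
  have e9 : hz (((n + 1 : ℕ) : ℤ) - ((k + 1 : ℕ) : ℤ)) = hz ((n : ℤ) - k) := by
    congr 1
    push_cast; ring
  have e10 : rf (((n + 1 : ℕ) : ℤ) - 1) = rf n := by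
    congr 1
    push_cast; ring
  have e11 : rf (((n + 1 : ℕ) : ℤ) - ((k + 1 : ℕ) : ℤ)) = rf ((n : ℤ) - k) := by
    congr 1
    push_cast; ring
  rw [e7, e8, e9, e10, e11, e1, e3, e4, e5, e6, e2]
  have hk : hz k ≠ 0 := hf_ne k
  have hk2 : ((k : ℚ) + 1 / 2) ≠ 0 := by positivity
  have h4 : (4 : ℚ) ^ n ≠ 0 := by positivity
  push_cast
  rw [pow_succ (4 : ℚ) n]
  field_simp
  ring

theorem GA_zero (k : ℕ) : GA 0 k = 0 := by
  unfold GA
  have : rf (((0 : ℕ) : ℤ) - 1) = 0 := rf_neg (by norm_num)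
  rw [this]
  simp

theorem FA_zero_of_lt {n k : ℕ} (h : n < k) : FA n k = 0 := by
  unfold FA
  have : rf ((n : ℤ) - k) = 0 := rf_neg (by omega)
  rw [this]
  simp

theorem sumA_step (N k : ℕ) :
    ∑ n ∈ range N, FA n k = ∑ n ∈ range N, FA n (k + 1) + GA N (k + 1) := by
  have h : ∑ n ∈ range N, (FA n k - FA n (k + 1)) = GA N (k + 1) := by
    have : ∀ n ∈ range N, FA n k - FA n (k + 1) = GA (n + 1) (k + 1) - GA n (k + 1) :=
      fun n _ => wzA n k
    rw [sum_congr rfl this, sum_range_sub (fun n => GA n (k + 1)), GA_zero, sub_zero]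
  rw [sum_sub_distrib] at h
  linarith

theorem sumA (N K : ℕ) :
    ∑ n ∈ range N, FA n 0 = ∑ n ∈ range N, FA n K + ∑ k ∈ range K, GA N (k + 1) := by
  induction K with
  | zero => simp
  | succ K ih => rw [ih, sumA_step N K, sum_range_succ]; ring

/-- Evaluation of the sum to `m` of the first series. -/
theorem sumA_main (m : ℕ) :
    ∑ n ∈ range (m + 1), FA n 0 = FA m m + ∑ k ∈ range m, GA (m + 1) (k + 1) := by
  rw [sumA (m + 1) m, sum_range_succ]
  have : ∑ n ∈ range m, FA n m = 0 :=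
    sum_eq_zero (fun n hn => FA_zero_of_lt (mem_range.mp hn))
  rw [this, zero_add]

/-- The triangular path identity. -/
theorem sumA_tail (s L : ℕ) :
    ∑ n ∈ range L, FA (s + n) 0 =
      ∑ k ∈ range L, GA (s + L) (k + 1) +
        ∑ l ∈ range L, (FA (s + l) l - GA (s + l + 1) (l + 1)) := by
  induction L with
  | zero => simp
  | succ L ih =>
    rw [sum_range_succ, ih, sum_range_succ _ L, sum_range_succ _ L]
    have h1 : ∀ k ∈ range L, GA (s + (L + 1)) (k + 1) =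
        GA (s + L) (k + 1) + (FA (s + L) k - FA (s + L) (k + 1)) := by
      intro k _
      have := wzA (s + L) k
      rw [← add_assoc]
      linarith
    rw [sum_congr rfl h1, sum_add_distrib, sum_range_sub' (fun k => FA (s + L) k)]
    rw [← add_assoc]
    ring_nf

/-! ### Pair B -/

/-- first member of WZ pair B. -/
def FB (n k : ℕ) : ℚ :=
  (6 * n + 4 * k + 1) * hz n ^ 3 * hz k ^ 2 * rf n * rf ((n : ℤ) + k) ^ 2 / 4 ^ n

/-- second member of WZ pair B (vertical weights). -/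
def VB (n k : ℕ) : ℚ :=
  8 * hz n ^ 3 * hz k ^ 2 * rf ((n : ℤ) - 1) * rf ((n : ℤ) + k) ^ 2 / 4 ^ n

theorem wzB (n k : ℕ) : FB n k + VB (n + 1) k = VB n k + FB n (k + 1) := by
  unfold FB VB
  have e3 : hz ((k + 1 : ℕ) : ℤ) = ((k : ℚ) + 1 / 2) * hz k := by
    have := hz_add_one (k : ℤ)
    push_cast at this ⊢
    rw [this]
  have e5 : rf ((n : ℤ) - 1) = (n : ℚ) * rf n := by
    have := rf_sub_one (n : ℤ)
    rw [this]
    push_cast
    ring
  have e6 : hz ((n + 1 : ℕ) : ℤ) = ((n : ℚ) + 1 / 2) * hz n := by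
    have := hz_add_one (n : ℤ)
    push_cast at this ⊢
    rw [this]
  have e10 : rf (((n + 1 : ℕ) : ℤ) - 1) = rf n := by
    congr 1
    push_cast; ring
  have e11 : rf ((n : ℤ) + k) = ((n : ℚ) + k + 1) * rf ((n : ℤ) + ((k + 1 : ℕ) : ℤ)) := by
    have := rf_sub_one ((n : ℤ) + ((k + 1 : ℕ) : ℤ))
    have e : (n : ℤ) + ((k + 1 : ℕ) : ℤ) - 1 = (n : ℤ) + k := by push_cast; ring
    rw [e] at this
    rw [this]
    push_cast
    ring
  have e12 : rf (((n + 1 : ℕ) : ℤ) + k) = rf ((n : ℤ) + ((k + 1 : ℕ) : ℤ)) := by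
    congr 1
    push_cast; ring
  rw [e12, e11, e10, e6, e5, e3]
  have h4 : (4 : ℚ) ^ n ≠ 0 := by positivity
  push_cast
  rw [pow_succ (4 : ℚ) n]
  field_simp
  ring

theorem VB_zero (k : ℕ) : VB 0 k = 0 := by
  unfold VB
  have : rf (((0 : ℕ) : ℤ) - 1) = 0 := rf_neg (by norm_num)
  rw [this]
  simp

/-- Diagonal path = horizontal path + vertical path. -/
theorem sumB_diag (N : ℕ) :
    ∑ l ∈ range N, (FB l l + VB (l + 1) l) = ∑ n ∈ range N, FB n 0 + ∑ k ∈ range N, VB N k := by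
  induction N with
  | zero => simp
  | succ N ih =>
    rw [sum_range_succ, ih, sum_range_succ _ N, sum_range_succ _ N]
    have h1 : ∀ k ∈ range N, VB (N + 1) k = VB N k + (FB N (k + 1) - FB N k) := by
      intro k _
      have := wzB N k
      linarith
    rw [sum_congr rfl h1, sum_add_distrib, sum_range_sub (fun k => FB N k)]
    ring

/-- Rectangle identity. -/
theorem sumB_rect (s L K : ℕ) :
    ∑ n ∈ range L, FB (s + n) 0 + ∑ k ∈ range K, VB (s + L) k =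
      ∑ k ∈ range K, VB s k + ∑ n ∈ range L, FB (s + n) K := by
  induction L with
  | zero => simp
  | succ L ih =>
    rw [sum_range_succ, sum_range_succ _ L]
    have h1 : ∀ k ∈ range K, VB (s + (L + 1)) k =
        VB (s + L) k + (FB (s + L) (k + 1) - FB (s + L) k) := by
      intro k _
      have := wzB (s + L) k
      rw [← add_assoc]
      linarith
    rw [sum_congr rfl h1, sum_add_distrib, sum_range_sub (fun k => FB (s + L) k)]
    linarith

/-! ### Pair E -/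

/-- first member of WZ pair E. -/
def FE (n k : ℕ) : ℚ :=
  (-1) ^ n * (6 * n - 4 * k + 1) * hz ((n : ℤ) - 2 * k) * hz n ^ 2 * 4 ^ k * rf n *
    rf ((n : ℤ) - k) ^ 2 / 8 ^ n

/-- second member of WZ pair E. -/
def GE (n k : ℕ) : ℚ :=
  4 * (-1) ^ n * hz ((n : ℤ) - 2 * k) * hz n ^ 2 * 4 ^ k * rf ((n : ℤ) - 1) *
    rf ((n : ℤ) - k) ^ 2 / 8 ^ n

theorem wzE (n k : ℕ) : FE n k - FE n (k + 1) = GE (n + 1) (k + 1) - GE n (k + 1) := by
  unfold FE GE
  have e1 : hz ((n : ℤ) - 2 * k) = ((n : ℚ) - 2 * k - 1 / 2) * (((n : ℚ) - 2 * k - 3 / 2) *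
      hz ((n : ℤ) - 2 * ((k + 1 : ℕ) : ℤ))) := by
    have h1 := hz_add_one ((n : ℤ) - 2 * ((k + 1 : ℕ) : ℤ))
    have h2 := hz_add_one ((n : ℤ) - 2 * ((k + 1 : ℕ) : ℤ) + 1)
    have e : (n : ℤ) - 2 * ((k + 1 : ℕ) : ℤ) + 1 + 1 = (n : ℤ) - 2 * k := by push_cast; ring
    rw [e, h1] at h2
    rw [h2]
    push_cast
    ring
  have e2 : hz (((n + 1 : ℕ) : ℤ) - 2 * ((k + 1 : ℕ) : ℤ)) = ((n : ℚ) - 2 * k - 3 / 2) *
      hz ((n : ℤ) - 2 * ((k + 1 : ℕ) : ℤ)) := by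
    have h1 := hz_add_one ((n : ℤ) - 2 * ((k + 1 : ℕ) : ℤ))
    have e : ((n + 1 : ℕ) : ℤ) - 2 * ((k + 1 : ℕ) : ℤ) = (n : ℤ) - 2 * ((k + 1 : ℕ) : ℤ) + 1 := by
      push_cast; ring
    rw [e, h1]
    push_cast
    ring
  have e4 : rf ((n : ℤ) - ((k + 1 : ℕ) : ℤ)) = ((n : ℚ) - k) * rf ((n : ℤ) - k) := by
    have := rf_sub_one ((n : ℤ) - k)
    have e : (n : ℤ) - ((k + 1 : ℕ) : ℤ) = (n : ℤ) - k - 1 := by push_cast; ring
    rw [e, this]
    push_cast
    ring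
  have e5 : rf ((n : ℤ) - 1) = (n : ℚ) * rf n := by
    have := rf_sub_one (n : ℤ)
    rw [this]
    push_cast
    ring
  have e6 : hz ((n + 1 : ℕ) : ℤ) = ((n : ℚ) + 1 / 2) * hz n := by
    have := hz_add_one (n : ℤ)
    push_cast at this ⊢
    rw [this]
  have e10 : rf (((n + 1 : ℕ) : ℤ) - 1) = rf n := by
    congr 1
    push_cast; ring
  have e11 : rf (((n + 1 : ℕ) : ℤ) - ((k + 1 : ℕ) : ℤ)) = rf ((n : ℤ) - k) := by
    congr 1
    push_cast; ring
  rw [e2, e11, e10, e6, e5, e4, e1]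
  have h8 : (8 : ℚ) ^ n ≠ 0 := by positivity
  push_cast
  rw [pow_succ (8 : ℚ) n, pow_succ (-1 : ℚ) n, pow_succ (4 : ℚ) k]
  field_simp
  ring

theorem GE_zero (k : ℕ) : GE 0 k = 0 := by
  unfold GE
  have : rf (((0 : ℕ) : ℤ) - 1) = 0 := rf_neg (by norm_num)
  rw [this]
  simp

theorem FE_zero_of_lt {n k : ℕ} (h : n < k) : FE n k = 0 := by
  unfold FE
  have : rf ((n : ℤ) - k) = 0 := rf_neg (by omega)
  rw [this]
  simp

theorem sumE_step (N k : ℕ) :
    ∑ n ∈ range N, FE n k = ∑ n ∈ range N, FE n (k + 1) + GE N (k + 1) := by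
  have h : ∑ n ∈ range N, (FE n k - FE n (k + 1)) = GE N (k + 1) := by
    have : ∀ n ∈ range N, FE n k - FE n (k + 1) = GE (n + 1) (k + 1) - GE n (k + 1) :=
      fun n _ => wzE n k
    rw [sum_congr rfl this, sum_range_sub (fun n => GE n (k + 1)), GE_zero, sub_zero]
  rw [sum_sub_distrib] at h
  linarith

theorem sumE (N K : ℕ) :
    ∑ n ∈ range N, FE n 0 = ∑ n ∈ range N, FE n K + ∑ k ∈ range K, GE N (k + 1) := by
  induction K with
  | zero => simp
  | succ K ih => rw [ih, sumE_step N K, sum_range_succ]; ring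

theorem sumE_main (m : ℕ) :
    ∑ n ∈ range (m + 1), FE n 0 = FE m m + ∑ k ∈ range m, GE (m + 1) (k + 1) := by
  rw [sumE (m + 1) m, sum_range_succ]
  have : ∑ n ∈ range m, FE n m = 0 :=
    sum_eq_zero (fun n hn => FE_zero_of_lt (mem_range.mp hn))
  rw [this, zero_add]

/-! ### Relation with central binomial coefficients -/

theorem hf_mul_four_pow (n : ℕ) : hf n * 4 ^ n = Nat.centralBinom n * (Nat.factorial n : ℕ) := by
  induction n with
  | zero => simp [hf]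
  | succ n ih =>
    have h := Nat.succ_mul_centralBinom_succ n
    have h' : ((n : ℚ) + 1) * Nat.centralBinom (n + 1) = 2 * (2 * n + 1) * Nat.centralBinom n := by
      exact_mod_cast h
    rw [hf_succ, Nat.factorial_succ, pow_succ]
    push_cast
    linear_combination (2 * (2 * (n : ℚ) + 1)) * ih - (Nat.factorial n : ℚ) * h'

theorem fact_ne (n : ℕ) : ((Nat.factorial n : ℕ) : ℚ) ≠ 0 := by
  exact_mod_cast Nat.factorial_ne_zero n

/-- `beta n = binom(2n,n)/4^n = (1/2)_n/n!`. -/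
theorem hf_div (n : ℕ) : hf n * rf n = Nat.centralBinom n / 4 ^ n := by
  have h := hf_mul_four_pow n
  rw [rf_nat]
  have h4 : (4 : ℚ) ^ n ≠ 0 := by positivity
  have hf := fact_ne n
  field_simp
  linear_combination h

theorem FA_eq_binom (n : ℕ) :
    FA n 0 = (6 * n + 1) * (Nat.centralBinom n : ℚ) ^ 3 / 256 ^ n := by
  have h := hf_div n
  unfold FA
  have e0 : hz ((0 : ℕ) : ℤ) = 1 := by rw [hz_nat]; exact hf_zero
  have e1 : (n : ℤ) + ((0 : ℕ) : ℤ) = n := by simp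
  have e2 : (n : ℤ) - ((0 : ℕ) : ℤ) = n := by simp
  rw [e0, e1, e2, hz_nat]
  have h256 : (256 : ℚ) ^ n = (4 ^ n) ^ 3 * 4 ^ n := by
    rw [← pow_mul, ← pow_add]
    have : (256 : ℚ) = 4 ^ 4 := by norm_num
    rw [this, ← pow_mul]
    congr 1
    ring
  have h4 : (4 : ℚ) ^ n ≠ 0 := by positivity
  rw [h256]
  have h3 : (hf n * rf n) ^ 3 = (Nat.centralBinom n / 4 ^ n) ^ 3 := by rw [h]
  have h3' : (hf n * rf n) ^ 3 * (4 ^ n) ^ 3 = (Nat.centralBinom n : ℚ) ^ 3 := by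
    rw [h3, div_pow]; field_simp
  rw [← h3']
  field_simp
  push_cast
  ring

theorem FB_zero_eq_FA (n : ℕ) : FB n 0 = FA n 0 := by
  unfold FA FB
  have e0 : hz ((0 : ℕ) : ℤ) = 1 := by rw [hz_nat]; exact hf_zero
  have e1 : (n : ℤ) + ((0 : ℕ) : ℤ) = n := by simp
  have e2 : (n : ℤ) - ((0 : ℕ) : ℤ) = n := by simp
  rw [e0, e1, e2]
  push_cast
  ring

theorem rf_two_mul (l : ℕ) : rf ((l : ℤ) + l) * (4 ^ l * hf l) = rf l := by
  have h := hf_mul_four_pow l
  have h2 : (Nat.centralBinom l : ℚ) * ((Nat.factorial l : ℕ) * (Nat.factorial l : ℕ)) =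
      (Nat.factorial (2 * l) : ℕ) := by
    have := Nat.choose_mul_factorial_mul_factorial (n := 2 * l) (k := l) (by omega)
    have e : 2 * l - l = l := by omega
    rw [e] at this
    unfold Nat.centralBinom
    rw [← mul_assoc]
    exact_mod_cast this
  have e1 : (l : ℤ) + l = ((2 * l : ℕ) : ℤ) := by push_cast; ring
  rw [e1, rf_nat, rf_nat, ← h2]
  have hf0 := fact_ne l
  have hc : (Nat.centralBinom l : ℚ) ≠ 0 := by exact_mod_cast Nat.centralBinom_ne_zero l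
  field_simp
  linear_combination h

theorem FB_diag (l : ℕ) :
    FB l l + VB (l + 1) l = (42 * l + 5) / 4 * (Nat.centralBinom l : ℚ) ^ 3 / 4096 ^ l := by
  have h := hf_div l
  unfold FB VB
  have e6 : hz ((l + 1 : ℕ) : ℤ) = ((l : ℚ) + 1 / 2) * hz l := by
    have := hz_add_one (l : ℤ)
    push_cast at this ⊢
    rw [this]
  have e10 : rf (((l + 1 : ℕ) : ℤ) - 1) = rf l := by
    congr 1
    push_cast; ring
  have e11 : rf ((l : ℤ) + l) = (2 * (l : ℚ) + 1) * rf (((l + 1 : ℕ) : ℤ) + l) := by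
    have := rf_sub_one (((l + 1 : ℕ) : ℤ) + l)
    have e : ((l + 1 : ℕ) : ℤ) + l - 1 = (l : ℤ) + l := by push_cast; ring
    rw [e] at this
    rw [this]
    push_cast
    ring
  have e12 := rf_two_mul l
  have h4 : (4 : ℚ) ^ l ≠ 0 := by positivity
  have hh := hf_ne l
  have hl : (2 * (l : ℚ) + 1) ≠ 0 := by positivity
  have e13 : rf (((l + 1 : ℕ) : ℤ) + l) = rf l / ((2 * (l : ℚ) + 1) * (4 ^ l * hf l)) := by
    rw [← e12, e11]
    field_simp
  rw [e11, e10, e6, e13, hz_nat]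
  have h4096 : (4096 : ℚ) ^ l = (4 ^ l) ^ 6 := by
    rw [← pow_mul]
    have : (4096 : ℚ) = 4 ^ 6 := by norm_num
    rw [this, ← pow_mul]
    congr 1
    ring
  have h3' : (hf l * rf l) ^ 3 * (4 ^ l) ^ 3 = (Nat.centralBinom l : ℚ) ^ 3 := by
    rw [h, div_pow]; field_simp
  rw [h4096, ← h3', pow_succ (4 : ℚ) l]
  field_simp
  ring

theorem FE_eq_binom (n : ℕ) :
    FE n 0 = (6 * n + 1) * (Nat.centralBinom n : ℚ) ^ 3 / (-512) ^ n := by
  have h := hf_div n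
  unfold FE
  have e1 : (n : ℤ) - 2 * ((0 : ℕ) : ℤ) = n := by simp
  have e2 : (n : ℤ) - ((0 : ℕ) : ℤ) = n := by simp
  rw [e1, e2, hz_nat]
  have h512 : (-512 : ℚ) ^ n = (4 ^ n) ^ 3 * (8 ^ n * (-1) ^ n) := by
    rw [← pow_mul, mul_comm n 3, pow_mul, ← mul_pow, ← mul_pow]
    norm_num
  have h4 : (4 : ℚ) ^ n ≠ 0 := by positivity
  have h8 : (8 : ℚ) ^ n ≠ 0 := by positivity
  have hm : (-1 : ℚ) ^ n * (-1) ^ n = 1 := by rw [← mul_pow]; simp
  have hm0 : (-1 : ℚ) ^ n ≠ 0 := by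
    intro h; rw [h] at hm; simp at hm
  rw [h512]
  have h3' : (hf n * rf n) ^ 3 * (4 ^ n) ^ 3 = (Nat.centralBinom n : ℚ) ^ 3 := by
    rw [h, div_pow]; field_simp
  rw [← h3']
  field_simp
  push_cast
  linear_combination ((6 * (n : ℚ) + 1) * hf n ^ 3 * rf n ^ 3) * hm

end Pool.Agent.Helper91
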