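import Mathlib
import Pool.Agent.Helper91.WZ

/-!
Exact product formulas for the Pochhammer products at `q = 2m+1`, and exact
convolution identities for harmonic type sums.
-/

set_option autoImplicit false

namespace Pool.Agent.Helper91

open Finset

/-- `q / (l+1)`. -/
def zq (q l : ℕ) : ℚ := (q : ℚ) / ((l : ℚ) + 1)

/-- `∏_{1 ≤ l ≤ n} (1 + q/(2l))`. -/
def pA (q n : ℕ) : ℚ := ∏ l ∈ range n, (1 + zq q l / 2)

/-- `∏_{1 ≤ l ≤ n} (1 - q/(2l))`. -/
def pB (q n : ℕ) : ℚ := ∏ l ∈ range n, (1 + -(zq q l / 2))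

/-- `∏_{1 ≤ l ≤ n} (1 - q/l)`. -/
def pC (q n : ℕ) : ℚ := ∏ l ∈ range n, (1 + -(zq q l))

/-- `q / (2i+1)`. -/
def wq (q i : ℕ) : ℚ := (q : ℚ) / (2 * (i : ℚ) + 1)

/-- `∏_{0 ≤ i < n} (1 + q/(2i+1))`. -/
def pO (q n : ℕ) : ℚ := ∏ i ∈ range n, (1 + wq q i)

theorem L1 (m n : ℕ) (h : n ≤ m) :
    hf n * (Nat.factorial (m - n) : ℕ) * pB (2 * m + 1) (m - n) =
      (-1) ^ n * (Nat.factorial m : ℕ) * pB (2 * m + 1) m := by
  induction n with
  | zero => simp [hf_zero]
  | succ n ih =>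
    have ih := ih (by omega)
    obtain ⟨d, hd⟩ : ∃ d, m = n + 1 + d := ⟨m - (n + 1), by omega⟩
    have e1 : m - n = d + 1 := by omega
    have e2 : m - (n + 1) = d := by omega
    rw [e1, pB, prod_range_succ, ← pB, Nat.factorial_succ] at ih
    rw [e2, hf_succ, pow_succ]
    have hd1 : ((d : ℚ) + 1) ≠ 0 := by positivity
    have hz : ((d : ℚ) + 1) * (1 + -(zq (2 * m + 1) d / 2)) = -((n : ℚ) + 1 / 2) := by
      unfold zq
      rw [hd]
      push_cast
      field_simp
      ring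
    push_cast at ih ⊢
    linear_combination (-1 : ℚ) * ih +
      (hf n * (Nat.factorial d : ℕ) * pB (2 * m + 1) d) * hz

theorem L2 (m k : ℕ) :
    ((Nat.factorial (m + k) : ℕ) : ℚ) = (Nat.factorial m : ℕ) * hf k * pO (2 * m + 1) k := by
  induction k with
  | zero => simp [hf_zero, pO]
  | succ k ih =>
    rw [← add_assoc, Nat.factorial_succ, hf_succ, pO, prod_range_succ, ← pO]
    push_cast
    rw [ih]
    have h1 : (2 * (k : ℚ) + 1) ≠ 0 := by positivity
    unfold wq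
    push_cast
    field_simp
    ring

theorem L3 (m n : ℕ) :
    hf (m + 1 + n) = hf m * (((2 * m + 1 : ℕ) : ℚ) / 2) * (Nat.factorial n : ℕ) *
      pA (2 * m + 1) n := by
  induction n with
  | zero =>
    rw [add_zero, hf_succ]
    simp [pA]
    ring
  | succ n ih =>
    rw [← add_assoc, hf_succ, ih, Nat.factorial_succ, pA, pA, prod_range_succ]
    have h1 : ((n : ℚ) + 1) ≠ 0 := by positivity
    unfold zq
    push_cast
    field_simp
    ring

theorem hf_eq (m : ℕ) : hf m = (-1) ^ m * (Nat.factorial m : ℕ) * pB (2 * m + 1) m := by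
  have := L1 m m le_rfl
  simpa [pB] using this

theorem pC_choose (m n : ℕ) (h : n ≤ 2 * m) :
    pC (2 * m + 1) n = (-1) ^ n * (Nat.choose (2 * m) n : ℕ) := by
  induction n with
  | zero => simp [pC]
  | succ n ih =>
    rw [pC, prod_range_succ, ← pC, ih (by omega)]
    have h2 := Nat.choose_succ_right_eq (2 * m) n
    have h3 : ((Nat.choose (2 * m) (n + 1) : ℕ) : ℚ) * ((n : ℚ) + 1) =
        (Nat.choose (2 * m) n : ℕ) * (2 * (m : ℚ) - n) := by
      have h4 : ((2 * m - n : ℕ) : ℚ) = 2 * (m : ℚ) - n := by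
        rw [Nat.cast_sub (by omega)]; push_cast; ring
      rw [← h4]
      exact_mod_cast h2
    have h1 : ((n : ℚ) + 1) ≠ 0 := by positivity
    unfold zq
    rw [pow_succ]
    push_cast
    field_simp
    linear_combination h3

theorem neg_one_sq (m : ℕ) : (-1 : ℚ) ^ m * (-1) ^ m = 1 := by rw [← mul_pow]; simp

theorem L4 (m : ℕ) : 4 ^ m * pB (2 * m + 1) m = pC (2 * m + 1) m := by
  rw [pC_choose m m (by omega)]
  have h1 := hf_mul_four_pow m
  rw [hf_eq m] at h1
  have h2 := fact_ne m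
  have h3 : (-1 : ℚ) ^ m * pB (2 * m + 1) m * 4 ^ m = Nat.centralBinom m := by
    apply mul_right_cancel₀ h2
    linear_combination h1
  have h4 := neg_one_sq m
  unfold Nat.centralBinom at h3
  linear_combination (-1 : ℚ) ^ m * h3 - (pB (2 * m + 1) m * 4 ^ m) * h4

theorem L5 (m : ℕ) : pO (2 * m + 1) m = 4 ^ m := by
  have h1 := hf_mul_four_pow m
  have h2 := L2 m m
  have h3 : (Nat.centralBinom m : ℚ) * ((Nat.factorial m : ℕ) * (Nat.factorial m : ℕ)) =
      (Nat.factorial (m + m) : ℕ) := by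
    have := Nat.choose_mul_factorial_mul_factorial (n := 2 * m) (k := m) (by omega)
    have e : 2 * m - m = m := by omega
    rw [e] at this
    unfold Nat.centralBinom
    rw [← mul_assoc, ← two_mul]
    exact_mod_cast this
  have h4 := fact_ne m
  have h5 := hf_ne m
  apply mul_left_cancel₀ (mul_ne_zero h4 h5)
  linear_combination -h2 - h3 - (Nat.factorial m : ℚ) * h1

/-! ### Harmonic type sums -/

/-- `∑_{1 ≤ l ≤ n} q/l`. -/
def S1 (q n : ℕ) : ℚ := ∑ l ∈ range n, zq q l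
/-- `∑_{1 ≤ l ≤ n} (q/l)^2`. -/
def S2 (q n : ℕ) : ℚ := ∑ l ∈ range n, zq q l ^ 2
/-- `∑_{1 ≤ l ≤ n} (q/l)^3`. -/
def S3 (q n : ℕ) : ℚ := ∑ l ∈ range n, zq q l ^ 3
/-- `∑_{1 ≤ i < j ≤ n} (q/i) (q/j)^2`. -/
def S12 (q n : ℕ) : ℚ := ∑ l ∈ range n, S1 q l * zq q l ^ 2

theorem S1_succ (q n : ℕ) : S1 q (n + 1) = S1 q n + zq q n := by
  rw [S1, sum_range_succ, ← S1]
theorem S2_succ (q n : ℕ) : S2 q (n + 1) = S2 q n + zq q n ^ 2 := by
  rw [S2, sum_range_succ, ← S2]
theorem S3_succ (q n : ℕ) : S3 q (n + 1) = S3 q n + zq q n ^ 3 := by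
  rw [S3, sum_range_succ, ← S3]
theorem S12_succ (q n : ℕ) : S12 q (n + 1) = S12 q n + S1 q n * zq q n ^ 2 := by
  rw [S12, sum_range_succ, ← S12]

/-- partial fractions. -/
theorem zq_mul (q m i : ℕ) (h : i < m) :
    zq q i * zq q (m - 1 - i) = zq q m * (zq q i + zq q (m - 1 - i)) := by
  obtain ⟨d, hd⟩ : ∃ d, m = i + 1 + d := ⟨m - (i + 1), by omega⟩
  have e : m - 1 - i = d := by omega
  rw [e]
  unfold zq
  rw [hd]
  have h1 : ((i : ℚ) + 1) ≠ 0 := by positivity
  have h2 : ((d : ℚ) + 1) ≠ 0 := by positivity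
  have h3 : (((i + 1 + d : ℕ) : ℚ) + 1) ≠ 0 := by positivity
  push_cast at h3 ⊢
  field_simp
  ring

theorem S1_sub (q m i : ℕ) (h : i < m) : S1 q (m - i) = S1 q (m - 1 - i) + zq q (m - 1 - i) := by
  have : m - i = (m - 1 - i) + 1 := by omega
  rw [this, S1_succ]

/-- reflection. -/
theorem sum_refl (f g : ℕ → ℚ) (m : ℕ) :
    ∑ i ∈ range m, f (m - 1 - i) * g i = ∑ i ∈ range m, f i * g (m - 1 - i) := by
  rw [← sum_range_reflect]
  apply sum_congr rfl
  intro i hi
  have hi := mem_range.mp hi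
  have : m - 1 - (m - 1 - i) = i := by omega
  rw [this]

theorem I2 (q m : ℕ) : ∑ i ∈ range m, zq q i * S1 q i = (S1 q m ^ 2 - S2 q m) / 2 := by
  induction m with
  | zero => simp [S1, S2]
  | succ m ih => rw [sum_range_succ, ih, S1_succ, S2_succ]; ring

theorem I1 (q m : ℕ) :
    ∑ i ∈ range m, zq q i * S1 q (m - 1 - i) = S1 q m ^ 2 - S2 q m := by
  induction m with
  | zero => simp [S1, S2]
  | succ m ih =>
    rw [sum_range_succ]
    have h0 : m + 1 - 1 - m = 0 := by omega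
    have h1 : ∀ i ∈ range m, zq q i * S1 q (m + 1 - 1 - i) =
        zq q i * S1 q (m - 1 - i) + zq q m * (zq q i * 1 + zq q (m - 1 - i) * 1) := by
      intro i hi
      have hi := mem_range.mp hi
      have e : m + 1 - 1 - i = m - i := by omega
      rw [e, S1_sub q m i hi]
      linear_combination zq_mul q m i hi
    rw [sum_congr rfl h1, sum_add_distrib, ih, ← mul_sum, sum_add_distrib, h0,
      sum_refl (fun i => zq q i) (fun _ => 1) m]
    have h2 : ∑ i ∈ range m, zq q i * 1 = S1 q m := by simp [S1]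
    simp only [h2]
    have h3 : S1 q 0 = 0 := by simp [S1]
    rw [h3, S1_succ, S2_succ]
    ring

theorem J3 (q m : ℕ) :
    ∑ i ∈ range m, zq q i * (S1 q i ^ 2 - S2 q i) =
      (S1 q m ^ 3 - 3 * S1 q m * S2 q m + 2 * S3 q m) / 3 := by
  induction m with
  | zero => simp [S1, S2, S3]
  | succ m ih => rw [sum_range_succ, ih, S1_succ, S2_succ, S3_succ]; ring

theorem J2 (q m : ℕ) :
    ∑ i ∈ range m, zq q i * S1 q (m - 1 - i) * S1 q i =
      (S1 q m ^ 3 - 3 * S1 q m * S2 q m + 2 * S3 q m) / 2 := by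
  induction m with
  | zero => simp [S1, S2, S3]
  | succ m ih =>
    rw [sum_range_succ]
    have h0 : m + 1 - 1 - m = 0 := by omega
    have h1 : ∀ i ∈ range m, zq q i * S1 q (m + 1 - 1 - i) * S1 q i =
        zq q i * S1 q (m - 1 - i) * S1 q i +
          zq q m * (zq q i * S1 q i + zq q (m - 1 - i) * S1 q i) := by
      intro i hi
      have hi := mem_range.mp hi
      have e : m + 1 - 1 - i = m - i := by omega
      rw [e, S1_sub q m i hi]
      linear_combination S1 q i * zq_mul q m i hi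
    rw [sum_congr rfl h1, sum_add_distrib, ih, ← mul_sum, sum_add_distrib, h0,
      sum_refl (fun i => zq q i) (fun i => S1 q i) m, I1, I2]
    have h3 : S1 q 0 = 0 := by simp [S1]
    rw [h3, S1_succ, S2_succ, S3_succ]
    ring

theorem J1 (q m : ℕ) :
    ∑ i ∈ range m, zq q i * S1 q (m - 1 - i) ^ 2 =
      S1 q m ^ 3 - 2 * S1 q m * S2 q m + S3 q m + S12 q m := by
  induction m with
  | zero => simp [S1, S2, S3, S12]
  | succ m ih =>
    rw [sum_range_succ]
    have h0 : m + 1 - 1 - m = 0 := by omega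
    have h1 : ∀ i ∈ range m, zq q i * S1 q (m + 1 - 1 - i) ^ 2 =
        zq q i * S1 q (m - 1 - i) ^ 2 +
          zq q m * (2 * (zq q i * S1 q (m - 1 - i)) + 2 * (zq q (m - 1 - i) * S1 q (m - 1 - i))
            + zq q m * (zq q i * 1 + zq q (m - 1 - i) * 1) + zq q (m - 1 - i) ^ 2) := by
      intro i hi
      have hi := mem_range.mp hi
      have e : m + 1 - 1 - i = m - i := by omega
      rw [e, S1_sub q m i hi]
      linear_combination (2 * S1 q (m - 1 - i) + zq q (m - 1 - i) + zq q m) * zq_mul q m i hi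
    have r1 : ∑ i ∈ range m, zq q (m - 1 - i) * S1 q (m - 1 - i) = (S1 q m ^ 2 - S2 q m) / 2 := by
      rw [← I2, ← sum_range_reflect (fun i => zq q i * S1 q i) m]
    have r2 : ∑ i ∈ range m, zq q (m - 1 - i) ^ 2 = S2 q m := by
      rw [S2, ← sum_range_reflect (fun i => zq q i ^ 2) m]
    have r3 : ∑ i ∈ range m, zq q (m - 1 - i) * 1 = S1 q m := by
      rw [S1, ← sum_range_reflect (fun i => zq q i) m]; simp
    have r4 : ∑ i ∈ range m, zq q i * 1 = S1 q m := by simp [S1]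
    rw [sum_congr rfl h1, sum_add_distrib, ih, ← mul_sum, sum_add_distrib, sum_add_distrib,
      sum_add_distrib, ← mul_sum, ← mul_sum, ← mul_sum, sum_add_distrib, h0, I1, r1, r2, r3, r4]
    have h3 : S1 q 0 = 0 := by simp [S1]
    rw [h3, S1_succ, S2_succ, S3_succ, S12_succ]
    ring

end Pool.Agent.Helper91
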