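import Mathlib
import Pool.Agent.Helper91.Prods

/-!
Exact evaluations of the WZ boundary terms at `q = 2m+1`.
-/

set_option autoImplicit false

namespace Pool.Agent.Helper91

open Finset

theorem pB_ne (m n : ℕ) (h : n ≤ m) : pB (2 * m + 1) n ≠ 0 := by
  have h1 := L1 m (m - n) (by omega)
  have e : m - (m - n) = n := by omega
  rw [e] at h1
  have h2 : pB (2 * m + 1) m ≠ 0 := by
    intro h0
    have := hf_eq m
    rw [h0, mul_zero] at this
    exact hf_ne m this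
  intro h0
  rw [h0, mul_zero] at h1
  have h3 : (-1 : ℚ) ^ (m - n) * (Nat.factorial m : ℕ) * pB (2 * m + 1) m ≠ 0 := by
    apply mul_ne_zero _ h2
    apply mul_ne_zero _ (fact_ne m)
    exact pow_ne_zero _ (by norm_num)
  exact h3 h1.symm

theorem FA_mm (m : ℕ) :
    FA m m = (-1) ^ m * ((2 * m + 1 : ℕ) : ℚ) *
      (pA (2 * m + 1) m * pB (2 * m + 1) m / 4 ^ m) := by
  unfold FA
  have e1 : (m : ℤ) - m = ((0 : ℕ) : ℤ) := by push_cast; ring
  have e2 : (m : ℤ) + m = ((m + m : ℕ) : ℤ) := by push_cast; ring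
  rw [e1, e2, hz_nat, hz_nat, hz_nat, hf_zero, rf_nat, rf_nat]
  have h1 := hf_succ (m + m)
  have h2 := L3 m m
  have e3 : m + 1 + m = m + m + 1 := by ring
  rw [e3, h1] at h2
  have h3 := hf_eq m
  have h4 := fact_ne m
  have h5 := hf_ne m
  have h6 : (4 : ℚ) ^ m ≠ 0 := by positivity
  have h7 : (6 * (m : ℚ) - 2 * m + 1) * hf (m + m) =
      hf m * ((2 * m + 1 : ℕ) : ℚ) * (Nat.factorial m : ℕ) * pA (2 * m + 1) m := by
    push_cast at h2 ⊢
    linear_combination 2 * h2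
  have h8 : (6 * (m : ℚ) - 2 * m + 1) * hf m * hf (m + m) * 1 * ((Nat.factorial m : ℕ) : ℚ)⁻¹ ^ 2 *
      ((Nat.factorial 0 : ℕ) : ℚ)⁻¹ / (hf m * 4 ^ m) =
      ((6 * (m : ℚ) - 2 * m + 1) * hf (m + m)) * ((Nat.factorial m : ℕ) : ℚ)⁻¹ ^ 2 / 4 ^ m := by
    simp only [Nat.factorial_zero, Nat.cast_one, inv_one, mul_one]
    field_simp
  rw [h8, h7, h3]
  field_simp

theorem GA_m (i k : ℕ) :
    GA (i + k + 1 + 1) (k + 1) = -((-1) ^ (i + k + 1) * ((2 * (i + k + 1) + 1 : ℕ) : ℚ) / 2 *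
      (pB (2 * (i + k + 1) + 1) (i + k + 1) ^ 2 / 4 ^ (i + k + 1)) *
      (zq (2 * (i + k + 1) + 1) i * (pA (2 * (i + k + 1) + 1) k * pB (2 * (i + k + 1) + 1) i /
        pB (2 * (i + k + 1) + 1) k))) := by
  obtain ⟨m, hm⟩ : ∃ m, m = i + k + 1 := ⟨_, rfl⟩
  rw [← hm]
  unfold GA
  have e1 : ((m + 1 : ℕ) : ℤ) + ((k + 1 : ℕ) : ℤ) - 1 = ((m + 1 + k : ℕ) : ℤ) := by
    push_cast; ring
  have e2 : ((m + 1 : ℕ) : ℤ) - ((k + 1 : ℕ) : ℤ) = ((i + 1 : ℕ) : ℤ) := by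
    rw [hm]; push_cast; ring
  have e3 : ((m + 1 : ℕ) : ℤ) - 1 = (m : ℤ) := by push_cast; ring
  rw [e1, e2, e3, hz_nat, hz_nat, hz_nat, hz_nat, rf_nat, rf_nat, L3 m k]
  have h0 := L3 m 0
  rw [add_zero] at h0
  have h1 := L1 m (i + 1) (by omega)
  have h2 := L1 m (k + 1) (by omega)
  have e4 : m - (i + 1) = k := by omega
  have e5 : m - (k + 1) = i := by omega
  rw [e4] at h1
  rw [e5] at h2
  have b1 := pB_ne m k (by omega)
  have b2 := pB_ne m i (by omega)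
  have b3 := pB_ne m m (by omega)
  have f1 := fact_ne m
  have f2 := fact_ne i
  have f3 := fact_ne k
  have h4 : (4 : ℚ) ^ m ≠ 0 := by positivity
  have h5 := hf_ne (k + 1)
  have h6 := hf_eq m
  have h7 := neg_one_sq m
  have h8 : (-1 : ℚ) ^ (i + 1) = (-1) ^ m * (-1) ^ k := by
    rw [hm, ← pow_add]
    have : i + k + 1 + k = (i + 1) + 2 * k := by ring
    rw [this, pow_add _ (i + 1), pow_mul]
    simp
  have h9 : (-1 : ℚ) ^ (k + 1) = -(-1) ^ k := by rw [pow_succ]; ring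
  have h10 := neg_one_sq k
  have hm1 : (-1 : ℚ) ^ m ≠ 0 := pow_ne_zero _ (by norm_num)
  have hk1 : (-1 : ℚ) ^ k ≠ 0 := pow_ne_zero _ (by norm_num)
  -- solve for hf (i+1), hf (k+1)
  have g1 : hf (i + 1) = (-1) ^ m * (-1) ^ k * (Nat.factorial m : ℕ) * pB (2 * m + 1) m /
      ((Nat.factorial k : ℕ) * pB (2 * m + 1) k) := by
    rw [eq_div_iff (mul_ne_zero f3 b1), ← h8]
    linear_combination h1
  have g2 : hf (k + 1) = -(-1) ^ k * (Nat.factorial m : ℕ) * pB (2 * m + 1) m /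
      ((Nat.factorial i : ℕ) * pB (2 * m + 1) i) := by
    rw [eq_div_iff (mul_ne_zero f2 b2), ← h9]
    linear_combination h2
  have g0 : hf (m + 1) = hf m * (((2 * m + 1 : ℕ) : ℚ) / 2) := by
    rw [h0]; simp [pA]
  rw [g0, g1, g2, h6, Nat.factorial_succ]
  unfold zq
  have hi : ((i : ℚ) + 1) ≠ 0 := by positivity
  rw [pow_succ (4 : ℚ) m]
  push_cast
  field_simp
  linear_combination (-(8 * pA (2 * m + 1) k)) * h7

/-- The weighted sum appearing in the evaluation of the first series. -/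
def PP (q m : ℕ) : ℚ :=
  ∑ i ∈ range m, zq q i * (pA q (m - 1 - i) * pB q i / pB q (m - 1 - i))

theorem S6_eval (m : ℕ) :
    ∑ n ∈ range (m + 1), FA n 0 = (-1) ^ m * ((2 * m + 1 : ℕ) : ℚ) *
      (pA (2 * m + 1) m * pB (2 * m + 1) m / 4 ^ m -
        1 / 2 * (pB (2 * m + 1) m ^ 2 / 4 ^ m) * PP (2 * m + 1) m) := by
  rw [sumA_main, FA_mm]
  have h : ∑ k ∈ range m, GA (m + 1) (k + 1) =
      ∑ k ∈ range m, -((-1) ^ m * ((2 * m + 1 : ℕ) : ℚ) / 2 *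
      (pB (2 * m + 1) m ^ 2 / 4 ^ m)) * (zq (2 * m + 1) (m - 1 - k) *
        (pA (2 * m + 1) (m - 1 - (m - 1 - k)) * pB (2 * m + 1) (m - 1 - k) /
        pB (2 * m + 1) (m - 1 - (m - 1 - k)))) := by
    apply sum_congr rfl
    intro k hk
    have hk := mem_range.mp hk
    obtain ⟨i, hi⟩ : ∃ i, m = i + k + 1 := ⟨m - (k + 1), by omega⟩
    have e1 : m - 1 - k = i := by omega
    have e2 : m - 1 - i = k := by omega
    rw [e1, e2]
    have := GA_m i k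
    rw [← hi] at this
    rw [this]
    ring
  rw [h, ← mul_sum, sum_range_reflect (fun i => zq (2 * m + 1) i *
        (pA (2 * m + 1) (m - 1 - i) * pB (2 * m + 1) i /
        pB (2 * m + 1) (m - 1 - i))) m, ← PP]
  ring

theorem pO_pos (q n : ℕ) : 0 < pO q n := by
  unfold pO wq
  apply prod_pos
  intro i _
  positivity

theorem VB_m (m k : ℕ) :
    VB (m + 1) k = (-1) ^ m * ((2 * m + 1 : ℕ) : ℚ) * (pB (2 * m + 1) m ^ 3 / 4 ^ m) *
      (wq (2 * m + 1) k ^ 2 / pO (2 * m + 1) (k + 1) ^ 2) := by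
  unfold VB
  have e1 : ((m + 1 : ℕ) : ℤ) + (k : ℤ) = ((m + (k + 1) : ℕ) : ℤ) := by
    push_cast; ring
  have e3 : ((m + 1 : ℕ) : ℤ) - 1 = (m : ℤ) := by push_cast; ring
  rw [e1, e3, hz_nat, hz_nat, rf_nat, rf_nat, L2 m (k + 1)]
  have h0 := L3 m 0
  rw [add_zero] at h0
  have g0 : hf (m + 1) = hf m * (((2 * m + 1 : ℕ) : ℚ) / 2) := by
    rw [h0]; simp [pA]
  have h6 := hf_eq m
  have h7 := neg_one_sq m
  have f1 := fact_ne m
  have h4 : (4 : ℚ) ^ m ≠ 0 := by positivity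
  have h8 := hf_ne k
  have h9 := (pO_pos (2 * m + 1) (k + 1)).ne'
  have h10 : ((k : ℚ) + 1 / 2) ≠ 0 := by positivity
  have h11 : (2 * (k : ℚ) + 1) ≠ 0 := by positivity
  rw [g0, h6, hf_succ k]
  unfold wq
  rw [pow_succ (4 : ℚ) m]
  push_cast
  field_simp
  have h12 : (-1 : ℚ) ^ (m * 2) = 1 := by rw [mul_comm, pow_mul]; simp
  ring_nf
  rw [h12]
  ring

end Pool.Agent.Helper91
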