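import Mathlib

/-!
Elementary p-adic bookkeeping on the rationals, for a prime `p`.
`Dv p k x` says that `x = p ^ k * (a / b)` with integers `a`, `b` and `p` not dividing `b`.
-/

set_option autoImplicit false

namespace Pool.Agent.Helper91

/-- `x` is `p ^ k` times a `p`-integral rational. -/
def Dv (p k : ℕ) (x : ℚ) : Prop :=
  ∃ a b : ℤ, ¬ ((p : ℤ) ∣ b) ∧ x * b = (p : ℚ) ^ k * a

section
variable {p : ℕ} (hp : p.Prime)
include hp

theorem prime_int : Prime (p : ℤ) := Nat.prime_iff_prime_int.mp hp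

theorem p_ne : (p : ℚ) ≠ 0 := by exact_mod_cast hp.ne_zero

omit hp in
theorem ne_of_not_dvd {b : ℤ} (hb : ¬ ((p : ℤ) ∣ b)) : (b : ℚ) ≠ 0 := by
  intro h
  have : b = 0 := by exact_mod_cast h
  exact hb (this ▸ dvd_zero _)

theorem Dv_zero_mem (k : ℕ) : Dv p k 0 := by
  refine ⟨0, 1, ?_, by simp⟩
  intro h
  have := Int.isUnit_iff.mp (isUnit_of_dvd_one h)
  have h2 := hp.two_le
  omega

theorem Dv_int (n : ℤ) : Dv p 0 (n : ℚ) := by
  refine ⟨n, 1, ?_, by simp⟩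
  intro h
  have := Int.isUnit_iff.mp (isUnit_of_dvd_one h)
  have h2 := hp.two_le
  omega

theorem Dv_nat (n : ℕ) : Dv p 0 (n : ℚ) := by
  have := Dv_int hp (n : ℤ)
  simpa using this

theorem Dv_one : Dv p 0 (1 : ℚ) := by
  have := Dv_nat hp 1
  simpa using this

theorem Dv_ofNat (n : ℕ) [n.AtLeastTwo] : Dv p 0 (OfNat.ofNat n : ℚ) := by
  have := Dv_nat hp (OfNat.ofNat n)
  simpa using this

theorem Dv_add {k : ℕ} {x y : ℚ} (hx : Dv p k x) (hy : Dv p k y) : Dv p k (x + y) := by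
  obtain ⟨a, b, hb, h1⟩ := hx
  obtain ⟨c, d, hd, h2⟩ := hy
  refine ⟨a * d + c * b, b * d, ?_, ?_⟩
  · intro h
    rcases (prime_int hp).dvd_or_dvd h with h | h
    · exact hb h
    · exact hd h
  · push_cast
    linear_combination (d : ℚ) * h1 + (b : ℚ) * h2

theorem Dv_mul {k l : ℕ} {x y : ℚ} (hx : Dv p k x) (hy : Dv p l y) : Dv p (k + l) (x * y) := by
  obtain ⟨a, b, hb, h1⟩ := hx
  obtain ⟨c, d, hd, h2⟩ := hy
  refine ⟨a * c, b * d, ?_, ?_⟩
  · intro h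
    rcases (prime_int hp).dvd_or_dvd h with h | h
    · exact hb h
    · exact hd h
  · push_cast
    rw [pow_add]
    linear_combination (y * (d : ℚ)) * h1 + ((p : ℚ) ^ k * a) * h2

omit hp in
theorem Dv_neg {k : ℕ} {x : ℚ} (hx : Dv p k x) : Dv p k (-x) := by
  obtain ⟨a, b, hb, h1⟩ := hx
  refine ⟨-a, b, hb, ?_⟩
  push_cast
  linear_combination -h1

theorem Dv_sub {k : ℕ} {x y : ℚ} (hx : Dv p k x) (hy : Dv p k y) : Dv p k (x - y) := by
  rw [sub_eq_add_neg]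
  exact Dv_add hp hx (Dv_neg hy)

omit hp in
theorem Dv_mono {k l : ℕ} {x : ℚ} (h : k ≤ l) (hx : Dv p l x) : Dv p k x := by
  obtain ⟨a, b, hb, h1⟩ := hx
  refine ⟨(p : ℤ) ^ (l - k) * a, b, hb, ?_⟩
  push_cast
  rw [h1, ← mul_assoc, ← pow_add]
  congr 2
  omega

theorem Dv_mul_int {k : ℕ} {x y : ℚ} (hx : Dv p k x) (hy : Dv p 0 y) : Dv p k (x * y) := by
  simpa using Dv_mul hp hx hy

theorem Dv_int_mul {k : ℕ} {x y : ℚ} (hx : Dv p 0 x) (hy : Dv p k y) : Dv p k (x * y) := by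
  simpa using Dv_mul hp hx hy

theorem Dv_ppow (k : ℕ) : Dv p k ((p : ℚ) ^ k) := by
  refine ⟨1, 1, ?_, by simp⟩
  intro h
  have := Int.isUnit_iff.mp (isUnit_of_dvd_one h)
  have h2 := hp.two_le
  omega

theorem Dv_p : Dv p 1 (p : ℚ) := by
  simpa using Dv_ppow hp 1

theorem Dv_pow {x : ℚ} (hx : Dv p 0 x) (n : ℕ) : Dv p 0 (x ^ n) := by
  induction n with
  | zero => simpa using Dv_one hp
  | succ n ih => rw [pow_succ]; simpa using Dv_mul hp ih hx

theorem Dv_pow' {k : ℕ} {x : ℚ} (hx : Dv p k x) (n : ℕ) : Dv p (k * n) (x ^ n) := by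
  induction n with
  | zero => simpa using Dv_one hp
  | succ n ih => rw [pow_succ, Nat.mul_succ]; exact Dv_mul hp ih hx

theorem Dv_sum {ι : Type*} {k : ℕ} (s : Finset ι) (f : ι → ℚ) (h : ∀ i ∈ s, Dv p k (f i)) :
    Dv p k (∑ i ∈ s, f i) := by
  classical
  induction s using Finset.induction_on with
  | empty => simpa using Dv_zero_mem hp k
  | insert a s ha ih =>
    rw [Finset.sum_insert ha]
    exact Dv_add hp (h a (Finset.mem_insert_self a s))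
      (ih (fun i hi => h i (Finset.mem_insert_of_mem hi)))

theorem Dv_prod {ι : Type*} (s : Finset ι) (f : ι → ℚ) (h : ∀ i ∈ s, Dv p 0 (f i)) :
    Dv p 0 (∏ i ∈ s, f i) := by
  classical
  induction s using Finset.induction_on with
  | empty => simpa using Dv_one hp
  | insert a s ha ih =>
    rw [Finset.prod_insert ha]
    exact Dv_mul_int hp (h a (Finset.mem_insert_self a s))
      (ih (fun i hi => h i (Finset.mem_insert_of_mem hi)))

theorem Dv_inv_int {n : ℤ} (hn : ¬ ((p : ℤ) ∣ n)) : Dv p 0 ((n : ℚ)⁻¹) := by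
  refine ⟨1, n, hn, ?_⟩
  have := ne_of_not_dvd hn
  push_cast
  rw [inv_mul_cancel₀ this]; simp

theorem Dv_inv_nat {n : ℕ} (hn : ¬ (p ∣ n)) : Dv p 0 ((n : ℚ)⁻¹) := by
  have : ¬ ((p : ℤ) ∣ (n : ℤ)) := by exact_mod_cast hn
  simpa using Dv_inv_int hp this

/-- cancel a factor `p`. -/
theorem Dv_of_p_mul {k : ℕ} {x : ℚ} (h : Dv p (k + 1) ((p : ℚ) * x)) : Dv p k x := by
  obtain ⟨a, b, hb, h1⟩ := h
  refine ⟨a, b, hb, ?_⟩
  have hp0 := p_ne hp
  apply mul_left_cancel₀ hp0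
  rw [pow_succ] at h1
  linear_combination h1

theorem Dv_of_ppow_mul {k l : ℕ} {x : ℚ} (h : Dv p (k + l) ((p : ℚ) ^ l * x)) : Dv p k x := by
  obtain ⟨a, b, hb, h1⟩ := h
  refine ⟨a, b, hb, ?_⟩
  have hp0 := pow_ne_zero l (p_ne hp)
  apply mul_left_cancel₀ hp0
  rw [pow_add] at h1
  linear_combination h1

theorem Dv_eq {k : ℕ} {x : ℚ} (h : Dv p k x) : ∃ y, Dv p 0 y ∧ x = (p : ℚ) ^ k * y := by
  obtain ⟨a, b, hb, h1⟩ := h
  have hb0 := ne_of_not_dvd hb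
  refine ⟨(a : ℚ) / b, ⟨a, b, hb, ?_⟩, ?_⟩
  · rw [div_mul_cancel₀ _ hb0]; simp
  · field_simp
    linear_combination h1

theorem Dv_of_eq {k : ℕ} {x y : ℚ} (h : Dv p 0 y) (hx : x = (p : ℚ) ^ k * y) : Dv p k x := by
  rw [hx]
  exact Dv_mul_int hp (Dv_ppow hp k) h

/-- a rational congruent to a unit is a unit. -/
theorem Dv_inv_of_sub {x u : ℚ} (hu' : Dv p 0 u⁻¹) (hu0 : u ≠ 0)
    (h : Dv p 1 (x - u)) : x ≠ 0 ∧ Dv p 0 x⁻¹ := by
  have h' : Dv p 1 (x * u⁻¹ - 1) := by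
    have : x * u⁻¹ - 1 = (x - u) * u⁻¹ := by
      rw [sub_mul, mul_inv_cancel₀ hu0]
    rw [this]
    exact Dv_mul_int hp h hu'
  obtain ⟨a, b, hb, h1⟩ := h'
  have hb0 := ne_of_not_dvd hb
  -- x u⁻¹ b = b + p a
  have h2 : x * u⁻¹ * b = ((b + p * a : ℤ) : ℚ) := by
    push_cast
    linear_combination h1
  have h3 : ¬ ((p : ℤ) ∣ (b + p * a : ℤ)) := by
    intro h
    apply hb
    have := dvd_sub h (Dvd.intro a rfl : (p : ℤ) ∣ p * a)
    simpa using this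
  have h4 := ne_of_not_dvd h3
  have hx0 : x ≠ 0 := by
    rintro rfl
    apply h4
    rw [← h2]; ring
  refine ⟨hx0, ?_⟩
  have h5 : x⁻¹ = u⁻¹ * (b : ℚ) * ((b + p * a : ℤ) : ℚ)⁻¹ := by
    rw [← h2]
    field_simp
  rw [h5]
  exact Dv_mul_int hp (Dv_mul_int hp hu' (Dv_int hp b)) (Dv_inv_int hp h3)

theorem Dv_inv_of_sub_one {x : ℚ} (h : Dv p 1 (x - 1)) : x ≠ 0 ∧ Dv p 0 x⁻¹ := by
  exact Dv_inv_of_sub hp (by simpa using Dv_one hp) one_ne_zero h

/-- The form used in the final statements. -/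
theorem Dv_iff_exists_den {k : ℕ} {x : ℚ} :
    Dv p k x ↔ ∃ z : ℚ, x = (p : ℚ) ^ k * z ∧ ¬ (p ∣ z.den) := by
  constructor
  · intro h
    obtain ⟨a, b, hb, h1⟩ := h
    have hb0 := ne_of_not_dvd hb
    refine ⟨(a : ℚ) / b, ?_, ?_⟩
    · field_simp
      linear_combination h1
    · intro h
      have h2 : (((a : ℚ) / b).den : ℤ) ∣ b := by
        rw [← Rat.divInt_eq_div]
        exact Rat.den_dvd a b
      exact hb (dvd_trans (by exact_mod_cast h) h2)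
  · rintro ⟨z, hz, hd⟩
    refine ⟨z.num, z.den, by exact_mod_cast hd, ?_⟩
    rw [hz]
    have : z * z.den = z.num := Rat.mul_den_eq_num z
    push_cast
    linear_combination (p : ℚ) ^ k * this

end

end Pool.Agent.Helper91
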