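import Mathlib
import Pool.Agent.Helper91.PAdic
import Pool.Agent.Helper91.Prods

/-!
p-adic expansions of finite products and the basic congruences between the
harmonic type sums.
-/

set_option autoImplicit false

namespace Pool.Agent.Helper91

open Finset

section
variable {p : ℕ} (hp : p.Prime) (h5 : 5 ≤ p)
include hp h5

theorem Dv_half : Dv p 0 (1 / 2 : ℚ) := by
  have : ¬ (p ∣ 2) := fun h => by have := Nat.le_of_dvd (by norm_num) h; omega
  have := Dv_inv_nat hp this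
  simpa using this

theorem Dv_third : Dv p 0 (1 / 3 : ℚ) := by
  have : ¬ (p ∣ 3) := fun h => by have := Nat.le_of_dvd (by norm_num) h; omega
  have := Dv_inv_nat hp this
  simpa using this

omit h5 in
theorem prod_exp0 (x : ℕ → ℚ) (n : ℕ) (h : ∀ i < n, Dv p 1 (x i)) :
    Dv p 1 (∏ i ∈ range n, (1 + x i) - 1) := by
  induction n with
  | zero => simpa using Dv_zero_mem hp 1
  | succ n ih =>
    have ih := ih (fun i hi => h i (by omega))
    rw [prod_range_succ]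
    have e : (∏ i ∈ range n, (1 + x i)) * (1 + x n) - 1 =
      (∏ i ∈ range n, (1 + x i) - 1) * (1 + x n) + x n := by ring
    rw [e]
    have hx := h n (by omega)
    exact Dv_add hp (Dv_mul_int hp ih (Dv_add hp (Dv_one hp) (Dv_mono (by norm_num) hx))) hx

omit h5 in
theorem sum_Dv (x : ℕ → ℚ) (n k : ℕ) (h : ∀ i < n, Dv p k (x i)) :
    Dv p k (∑ i ∈ range n, x i) :=
  Dv_sum hp _ _ (fun i hi => h i (mem_range.mp hi))

omit h5 in
theorem prod_exp1 (x : ℕ → ℚ) (n : ℕ) (h : ∀ i < n, Dv p 1 (x i)) :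
    Dv p 2 (∏ i ∈ range n, (1 + x i) - (1 + ∑ i ∈ range n, x i)) := by
  induction n with
  | zero => simpa using Dv_zero_mem hp 2
  | succ n ih =>
    have hs := sum_Dv hp x n 1 (fun i hi => h i (by omega))
    have ih := ih (fun i hi => h i (by omega))
    rw [prod_range_succ, sum_range_succ]
    have e : (∏ i ∈ range n, (1 + x i)) * (1 + x n) - (1 + (∑ i ∈ range n, x i + x n)) =
      (∏ i ∈ range n, (1 + x i) - (1 + ∑ i ∈ range n, x i)) * (1 + x n) +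
        (∑ i ∈ range n, x i) * x n := by ring
    rw [e]
    have hx := h n (by omega)
    exact Dv_add hp (Dv_mul_int hp ih (Dv_add hp (Dv_one hp) (Dv_mono (by norm_num) hx)))
      (Dv_mul hp hs hx)

theorem prod_exp2 (x : ℕ → ℚ) (n : ℕ) (h : ∀ i < n, Dv p 1 (x i)) :
    Dv p 3 (∏ i ∈ range n, (1 + x i) - (1 + ∑ i ∈ range n, x i +
      ((∑ i ∈ range n, x i) ^ 2 - ∑ i ∈ range n, x i ^ 2) / 2)) := by
  induction n with
  | zero => simpa using Dv_zero_mem hp 3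
  | succ n ih =>
    have hs := sum_Dv hp x n 1 (fun i hi => h i (by omega))
    have hs2 := sum_Dv hp (fun i => x i ^ 2) n 2 (fun i hi => Dv_pow' hp (h i (by omega)) 2)
    have ih := ih (fun i hi => h i (by omega))
    rw [prod_range_succ, sum_range_succ, sum_range_succ]
    have hx := h n (by omega)
    generalize ∏ i ∈ range n, (1 + x i) = P at *
    generalize ∑ i ∈ range n, x i = S at *
    generalize ∑ i ∈ range n, x i ^ 2 = Q at *
    have e : P * (1 + x n) - (1 + (S + x n) + ((S + x n) ^ 2 - (Q + x n ^ 2)) / 2) =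
      (P - (1 + S + (S ^ 2 - Q) / 2)) * (1 + x n) + ((S ^ 2 - Q) * (1 / 2)) * x n := by ring
    rw [e]
    exact Dv_add hp (Dv_mul_int hp ih (Dv_add hp (Dv_one hp) (Dv_mono (by norm_num) hx)))
      (Dv_mul hp (Dv_mul_int hp (Dv_sub hp (Dv_pow' hp hs 2) hs2) (Dv_half hp h5)) hx)

theorem prod_exp3 (x : ℕ → ℚ) (n : ℕ) (h : ∀ i < n, Dv p 1 (x i)) :
    Dv p 4 (∏ i ∈ range n, (1 + x i) - (1 + ∑ i ∈ range n, x i +
      ((∑ i ∈ range n, x i) ^ 2 - ∑ i ∈ range n, x i ^ 2) / 2 +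
      ((∑ i ∈ range n, x i) ^ 3 - 3 * (∑ i ∈ range n, x i) * (∑ i ∈ range n, x i ^ 2) +
        2 * ∑ i ∈ range n, x i ^ 3) / 6)) := by
  induction n with
  | zero => simpa using Dv_zero_mem hp 4
  | succ n ih =>
    have hs := sum_Dv hp x n 1 (fun i hi => h i (by omega))
    have hs2 := sum_Dv hp (fun i => x i ^ 2) n 2 (fun i hi => Dv_pow' hp (h i (by omega)) 2)
    have hs3 := sum_Dv hp (fun i => x i ^ 3) n 3 (fun i hi => Dv_pow' hp (h i (by omega)) 3)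
    have ih := ih (fun i hi => h i (by omega))
    rw [prod_range_succ, sum_range_succ, sum_range_succ, sum_range_succ]
    have hx := h n (by omega)
    generalize ∏ i ∈ range n, (1 + x i) = P at *
    generalize ∑ i ∈ range n, x i = S at *
    generalize ∑ i ∈ range n, x i ^ 2 = Q at *
    generalize ∑ i ∈ range n, x i ^ 3 = C at *
    have e : P * (1 + x n) - (1 + (S + x n) + ((S + x n) ^ 2 - (Q + x n ^ 2)) / 2 +
        ((S + x n) ^ 3 - 3 * (S + x n) * (Q + x n ^ 2) + 2 * (C + x n ^ 3)) / 6) =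
      (P - (1 + S + (S ^ 2 - Q) / 2 + (S ^ 3 - 3 * S * Q + 2 * C) / 6)) * (1 + x n) +
        ((S ^ 3 - 3 * (S * Q) + 2 * C) * (1 / 2 * (1 / 3))) * x n := by ring
    rw [e]
    refine Dv_add hp (Dv_mul_int hp ih (Dv_add hp (Dv_one hp) (Dv_mono (by norm_num) hx)))
      (Dv_mul hp (Dv_mul_int hp ?_ (Dv_mul_int hp (Dv_half hp h5) (Dv_third hp h5))) hx)
    exact Dv_add hp (Dv_sub hp (Dv_pow' hp hs 3)
      (Dv_int_mul hp (Dv_ofNat hp 3) (Dv_mul hp hs hs2)))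
      (Dv_int_mul hp (Dv_ofNat hp 2) hs3)

end

/-! ### Sums over a full period -/

theorem sum_even_odd (f : ℕ → ℚ) (m : ℕ) :
    ∑ l ∈ range (2 * m), f l = ∑ i ∈ range m, (f (2 * i) + f (2 * i + 1)) := by
  induction m with
  | zero => simp
  | succ m ih =>
    rw [sum_range_succ, ← ih]
    have : 2 * (m + 1) = 2 * m + 1 + 1 := by ring
    rw [this, sum_range_succ, sum_range_succ]
    ring

theorem sum_pair (f : ℕ → ℚ) (m : ℕ) :
    ∑ l ∈ range (2 * m), f l = ∑ i ∈ range m, (f i + f (2 * m - 1 - i)) := by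
  rw [two_mul, sum_range_add, sum_add_distrib]
  congr 1
  rw [← sum_range_reflect]
  apply sum_congr rfl
  intro i hi
  have hi := mem_range.mp hi
  congr 1
  omega

/-- reflection of even index terms. -/
theorem sum_even_refl (f : ℕ → ℚ) (m : ℕ) :
    ∑ i ∈ range m, f (2 * i) = ∑ i ∈ range m, f (2 * (m - 1 - i)) := by
  rw [← sum_range_reflect]

theorem zq_refl (m l : ℕ) (h : l < 2 * m) :
    zq (2 * m + 1) (2 * m - 1 - l) * (1 - zq (2 * m + 1) l) = -zq (2 * m + 1) l := by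
  obtain ⟨d, hd⟩ : ∃ d, 2 * m = l + 1 + d := ⟨2 * m - (l + 1), by omega⟩
  have e : 2 * m - 1 - l = d := by omega
  rw [e]
  unfold zq
  have h1 : ((l : ℚ) + 1) ≠ 0 := by positivity
  have h2 : ((d : ℚ) + 1) ≠ 0 := by positivity
  have h3 : ((2 * m + 1 : ℕ) : ℚ) = l + 1 + (d + 1) := by
    rw [hd]; push_cast; ring
  rw [h3]
  field_simp
  ring

theorem zq_odd (q i : ℕ) : zq q (2 * i + 1) = zq q i / 2 := by
  unfold zq
  have h1 : ((i : ℚ) + 1) ≠ 0 := by positivity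
  push_cast
  field_simp
  ring

theorem wq_eq (q i : ℕ) : wq q i = zq q (2 * i) := by
  unfold wq zq
  push_cast
  ring

theorem wq_refl (m i : ℕ) (h : i < m) :
    wq (2 * m + 1) (m - 1 - i) * (1 - zq (2 * m + 1) i / 2) = -(zq (2 * m + 1) i / 2) := by
  rw [wq_eq, ← zq_odd]
  have := zq_refl m (2 * i + 1) (by omega)
  have e : 2 * m - 1 - (2 * i + 1) = 2 * (m - 1 - i) := by omega
  rw [e] at this
  exact this

theorem K21 (q m : ℕ) :
    ∑ i ∈ range m, zq q i ^ 2 * S1 q (m - 1 - i) = S12 q m + S1 q m * S2 q m - S3 q m := by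
  induction m with
  | zero => simp [S1, S2, S3, S12]
  | succ m ih =>
    rw [sum_range_succ]
    have h0 : m + 1 - 1 - m = 0 := by omega
    have h1 : ∀ i ∈ range m, zq q i ^ 2 * S1 q (m + 1 - 1 - i) =
        zq q i ^ 2 * S1 q (m - 1 - i) +
          zq q m * (zq q i ^ 2 + zq q m * (zq q i * 1 + zq q (m - 1 - i) * 1)) := by
      intro i hi
      have hi := mem_range.mp hi
      have e : m + 1 - 1 - i = m - i := by omega
      rw [e, S1_sub q m i hi]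
      linear_combination (zq q i + zq q m) * zq_mul q m i hi
    have r3 : ∑ i ∈ range m, zq q (m - 1 - i) * 1 = S1 q m := by
      rw [S1, ← sum_range_reflect (fun i => zq q i) m]; simp
    have r4 : ∑ i ∈ range m, zq q i * 1 = S1 q m := by simp [S1]
    rw [sum_congr rfl h1, sum_add_distrib, ih, ← mul_sum, sum_add_distrib, ← mul_sum,
      sum_add_distrib, h0, r3, r4, ← S2]
    have h3 : S1 q 0 = 0 := by simp [S1]
    rw [h3, S1_succ, S2_succ, S3_succ, S12_succ]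
    ring

section
variable {p : ℕ} (hp : p.Prime) (h5 : 5 ≤ p) {m : ℕ}
  (Hz : ∀ l, l < 2 * m → Dv p 1 (zq (2 * m + 1) l))
include hp Hz

theorem S1_Dv (n : ℕ) (h : n ≤ 2 * m) : Dv p 1 (S1 (2 * m + 1) n) :=
  sum_Dv hp _ n 1 (fun i hi => Hz i (by omega))

theorem S2_Dv (n : ℕ) (h : n ≤ 2 * m) : Dv p 2 (S2 (2 * m + 1) n) :=
  sum_Dv hp _ n 2 (fun i hi => Dv_pow' hp (Hz i (by omega)) 2)

theorem S3_Dv (n : ℕ) (h : n ≤ 2 * m) : Dv p 3 (S3 (2 * m + 1) n) :=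
  sum_Dv hp _ n 3 (fun i hi => Dv_pow' hp (Hz i (by omega)) 3)

theorem S12_Dv (n : ℕ) (h : n ≤ 2 * m) : Dv p 3 (S12 (2 * m + 1) n) :=
  sum_Dv hp _ n 3 (fun i hi => Dv_mul hp (S1_Dv hp Hz i (by omega))
    (Dv_pow' hp (Hz i (by omega)) 2))

/-- `1 - z` is a unit. -/
theorem one_sub_unit {x : ℚ} (hx : Dv p 1 x) : (1 - x) ≠ 0 ∧ Dv p 0 (1 - x)⁻¹ := by
  clear Hz
  apply Dv_inv_of_sub_one hp
  have : 1 - x - 1 = -x := by ring
  rw [this]
  exact Dv_neg hx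

/-- `z_{q-l} + z_l` mod `p^2`. -/
theorem zq_refl1 (l : ℕ) (h : l < 2 * m) :
    Dv p 2 (zq (2 * m + 1) (2 * m - 1 - l) + zq (2 * m + 1) l) := by
  have h1 := zq_refl m l h
  have h2 := Hz l h
  obtain ⟨h3, h4⟩ := one_sub_unit hp Hz h2
  have : zq (2 * m + 1) (2 * m - 1 - l) + zq (2 * m + 1) l =
      -(zq (2 * m + 1) l ^ 2 * (1 - zq (2 * m + 1) l)⁻¹) := by
    field_simp
    linear_combination h1
  rw [this]
  exact Dv_neg (Dv_mul_int hp (Dv_pow' hp h2 2) h4)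

theorem zq_refl2 (l : ℕ) (h : l < 2 * m) :
    Dv p 4 (zq (2 * m + 1) (2 * m - 1 - l) ^ 2 -
      (zq (2 * m + 1) l ^ 2 + 2 * zq (2 * m + 1) l ^ 3)) := by
  have h1 := zq_refl m l h
  have h2 := Hz l h
  obtain ⟨h3, h4⟩ := one_sub_unit hp Hz h2
  have h1' : zq (2 * m + 1) (2 * m - 1 - l) = -zq (2 * m + 1) l * (1 - zq (2 * m + 1) l)⁻¹ := by
    rw [← h1]; field_simp
  rw [h1']
  generalize zq (2 * m + 1) l = z at *
  have : (-z * (1 - z)⁻¹) ^ 2 - (z ^ 2 + 2 * z ^ 3) = z ^ 4 * ((3 - 2 * z) * (1 - z)⁻¹ ^ 2) := by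
    field_simp
    ring
  rw [this]
  refine Dv_mul_int hp (Dv_pow' hp h2 4) (Dv_mul_int hp ?_ (Dv_pow hp h4 2))
  exact Dv_sub hp (Dv_ofNat hp 3) (Dv_int_mul hp (Dv_ofNat hp 2) (Dv_mono (by norm_num) h2))

theorem zq_refl1' (l : ℕ) (h : l < 2 * m) :
    Dv p 4 (zq (2 * m + 1) (2 * m - 1 - l) +
      (zq (2 * m + 1) l + zq (2 * m + 1) l ^ 2 + zq (2 * m + 1) l ^ 3)) := by
  have h1 := zq_refl m l h
  have h2 := Hz l h
  obtain ⟨h3, h4⟩ := one_sub_unit hp Hz h2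
  have h1' : zq (2 * m + 1) (2 * m - 1 - l) = -zq (2 * m + 1) l * (1 - zq (2 * m + 1) l)⁻¹ := by
    rw [← h1]; field_simp
  rw [h1']
  generalize zq (2 * m + 1) l = z at *
  have : (-z * (1 - z)⁻¹) + (z + z ^ 2 + z ^ 3) = z ^ 4 * (-(1 - z)⁻¹) := by
    field_simp
    ring
  rw [this]
  exact Dv_mul_int hp (Dv_pow' hp h2 4) (Dv_neg h4)

/-- `q H_{q-1} ≡ - S2 - S3 mod p^4`. -/
theorem S1_full : Dv p 4 (S1 (2 * m + 1) (2 * m) + S2 (2 * m + 1) m + S3 (2 * m + 1) m) := by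
  rw [S1, sum_pair, S2, S3, ← sum_add_distrib, ← sum_add_distrib]
  apply sum_Dv hp
  intro i hi
  have := zq_refl1' hp Hz i (by omega)
  have e : zq (2 * m + 1) i + zq (2 * m + 1) (2 * m - 1 - i) + zq (2 * m + 1) i ^ 2 +
      zq (2 * m + 1) i ^ 3 = zq (2 * m + 1) (2 * m - 1 - i) +
      (zq (2 * m + 1) i + zq (2 * m + 1) i ^ 2 + zq (2 * m + 1) i ^ 3) := by ring
  rw [e]
  exact this

include h5

/-- `S2 ≡ -(7/6) S3 mod p^4`. -/
theorem S2_eq : Dv p 4 (S2 (2 * m + 1) m + 7 / 6 * S3 (2 * m + 1) m) := by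
  -- first evaluation
  have e1 : Dv p 4 (S2 (2 * m + 1) (2 * m) - (2 * S2 (2 * m + 1) m + 2 * S3 (2 * m + 1) m)) := by
    have : S2 (2 * m + 1) (2 * m) - (2 * S2 (2 * m + 1) m + 2 * S3 (2 * m + 1) m) =
        ∑ i ∈ range m, (zq (2 * m + 1) (2 * m - 1 - i) ^ 2 -
          (zq (2 * m + 1) i ^ 2 + 2 * zq (2 * m + 1) i ^ 3)) := by
      rw [S2, sum_pair, sum_sub_distrib, sum_add_distrib, sum_add_distrib, ← mul_sum, S2, S3]
      ring
    rw [this]
    exact sum_Dv hp _ m 4 (fun i hi => zq_refl2 hp Hz i (by omega))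
  have e2 : Dv p 4 (S2 (2 * m + 1) (2 * m) -
      (S2 (2 * m + 1) m / 2 + S3 (2 * m + 1) m / 4)) := by
    have : S2 (2 * m + 1) (2 * m) - (S2 (2 * m + 1) m / 2 + S3 (2 * m + 1) m / 4) =
        ∑ i ∈ range m, (zq (2 * m + 1) (2 * m - 1 - (2 * i + 1)) ^ 2 -
          (zq (2 * m + 1) (2 * i + 1) ^ 2 + 2 * zq (2 * m + 1) (2 * i + 1) ^ 3)) := by
      rw [S2, sum_even_odd, sum_add_distrib, sum_even_refl (fun i => zq (2 * m + 1) i ^ 2),
        sum_sub_distrib, sum_add_distrib, S2, S3]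
      have r1 : ∑ i ∈ range m, zq (2 * m + 1) (2 * m - 1 - (2 * i + 1)) ^ 2 =
          ∑ i ∈ range m, zq (2 * m + 1) (2 * (m - 1 - i)) ^ 2 := by
        apply sum_congr rfl
        intro i hi
        have hi := mem_range.mp hi
        have : 2 * m - 1 - (2 * i + 1) = 2 * (m - 1 - i) := by omega
        rw [this]
      rw [r1]
      simp only [zq_odd, div_pow]
      rw [← mul_sum, ← sum_div, ← sum_div]
      ring
    rw [this]
    exact sum_Dv hp _ m 4 (fun i hi => zq_refl2 hp Hz (2 * i + 1) (by omega))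
  have e3 := Dv_sub hp e2 e1
  have e4 : S2 (2 * m + 1) m + 7 / 6 * S3 (2 * m + 1) m =
      ((S2 (2 * m + 1) (2 * m) - (S2 (2 * m + 1) m / 2 + S3 (2 * m + 1) m / 4)) -
      (S2 (2 * m + 1) (2 * m) - (2 * S2 (2 * m + 1) m + 2 * S3 (2 * m + 1) m))) *
      (2 * (1 / 3)) := by ring
  rw [e4]
  exact Dv_mul_int hp e3 (Dv_mul_int hp (Dv_ofNat hp 2) (Dv_third hp h5))

theorem S2_Dv3 : Dv p 3 (S2 (2 * m + 1) m) := by
  have h1 := S2_eq hp h5 Hz
  have h2 := S3_Dv hp Hz m (by omega)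
  have e : S2 (2 * m + 1) m = (S2 (2 * m + 1) m + 7 / 6 * S3 (2 * m + 1) m) -
      (7 * (1 / 2 * (1 / 3))) * S3 (2 * m + 1) m := by ring
  rw [e]
  exact Dv_sub hp (Dv_mono (by norm_num) h1) (Dv_int_mul hp (Dv_mul_int hp (Dv_ofNat hp 7)
    (Dv_mul_int hp (Dv_half hp h5) (Dv_third hp h5))) h2)

omit h5 in
theorem S1_full2 : Dv p 2 (S1 (2 * m + 1) (2 * m)) := by
  have h1 := S1_full hp Hz
  have h2 := S2_Dv hp Hz m (by omega)
  have h3 := S3_Dv hp Hz m (by omega)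
  have e : S1 (2 * m + 1) (2 * m) =
      (S1 (2 * m + 1) (2 * m) + S2 (2 * m + 1) m + S3 (2 * m + 1) m) -
        S2 (2 * m + 1) m - S3 (2 * m + 1) m := by ring
  rw [e]
  exact Dv_sub hp (Dv_sub hp (Dv_mono (by norm_num) h1) h2) (Dv_mono (by norm_num) h3)

omit h5 in
theorem S1_refl (j : ℕ) (h : j ≤ 2 * m) :
    Dv p 2 (S1 (2 * m + 1) (2 * m - j) - S1 (2 * m + 1) j) := by
  induction j with
  | zero =>
    have h0 : S1 (2 * m + 1) 0 = 0 := by simp [S1]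
    rw [h0, sub_zero]
    exact S1_full2 hp Hz
  | succ j ih =>
    have ih := ih (by omega)
    have e1 : 2 * m - j = (2 * m - (j + 1)) + 1 := by omega
    have e2 : 2 * m - (j + 1) = 2 * m - 1 - j := by omega
    rw [e1, S1_succ] at ih
    rw [S1_succ]
    have h1 := zq_refl1 hp Hz j (by omega)
    rw [e2] at ih ⊢
    have e3 : S1 (2 * m + 1) (2 * m - 1 - j) - (S1 (2 * m + 1) j + zq (2 * m + 1) j) =
      (S1 (2 * m + 1) (2 * m - 1 - j) + zq (2 * m + 1) (2 * m - 1 - j) - S1 (2 * m + 1) j) -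
        (zq (2 * m + 1) (2 * m - 1 - j) + zq (2 * m + 1) j) := by ring
    rw [e3]
    exact Dv_sub hp ih h1

omit h5 in
theorem wq_Dv (j : ℕ) (h : j < m) : Dv p 1 (wq (2 * m + 1) j) := by
  rw [wq_eq]; exact Hz _ (by omega)

omit h5 in
theorem wq_refl1 (j : ℕ) (h : j < m) :
    Dv p 2 (wq (2 * m + 1) j + zq (2 * m + 1) (m - 1 - j) / 2) := by
  have h1 := zq_refl1 hp Hz (2 * (m - 1 - j) + 1) (by omega)
  have e1 : 2 * m - 1 - (2 * (m - 1 - j) + 1) = 2 * j := by omega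
  rw [e1, zq_odd, ← wq_eq] at h1
  exact h1

omit h5 in
theorem wq_refl2 (j : ℕ) (h : j < m) :
    Dv p 4 (wq (2 * m + 1) j ^ 2 - (zq (2 * m + 1) (m - 1 - j) ^ 2 / 4 +
      zq (2 * m + 1) (m - 1 - j) ^ 3 / 4)) := by
  have h1 := zq_refl2 hp Hz (2 * (m - 1 - j) + 1) (by omega)
  have e1 : 2 * m - 1 - (2 * (m - 1 - j) + 1) = 2 * j := by omega
  rw [e1, zq_odd, ← wq_eq] at h1
  have e2 : wq (2 * m + 1) j ^ 2 - (zq (2 * m + 1) (m - 1 - j) ^ 2 / 4 +
      zq (2 * m + 1) (m - 1 - j) ^ 3 / 4) = wq (2 * m + 1) j ^ 2 -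
      ((zq (2 * m + 1) (m - 1 - j) / 2) ^ 2 + 2 * (zq (2 * m + 1) (m - 1 - j) / 2) ^ 3) := by ring
  rw [e2]
  exact h1

theorem S1_double (j : ℕ) (h : j ≤ m) :
    Dv p 2 (S1 (2 * m + 1) (2 * j) -
      1 / 2 * (S1 (2 * m + 1) j + S1 (2 * m + 1) (m - j) - S1 (2 * m + 1) m)) := by
  induction j with
  | zero =>
    have h0 : S1 (2 * m + 1) 0 = 0 := by simp [S1]
    simp only [mul_zero, h0, Nat.sub_zero]
    have : (0 : ℚ) - 1 / 2 * (0 + S1 (2 * m + 1) m - S1 (2 * m + 1) m) = 0 := by ring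
    rw [this]
    exact Dv_zero_mem hp 2
  | succ j ih =>
    have ih := ih (by omega)
    have e1 : m - j = (m - (j + 1)) + 1 := by omega
    have e2 : m - (j + 1) = m - 1 - j := by omega
    have e3 : 2 * (j + 1) = 2 * j + 1 + 1 := by ring
    rw [e1, S1_succ, e2] at ih
    rw [e3, S1_succ, S1_succ, S1_succ, e2, zq_odd, ← wq_eq]
    have h1 := wq_refl1 hp Hz j (by omega)
    generalize S1 (2 * m + 1) (2 * j) = a at *
    generalize S1 (2 * m + 1) j = b at *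
    generalize S1 (2 * m + 1) (m - 1 - j) = c at *
    generalize S1 (2 * m + 1) m = d at *
    have e4 : a + wq (2 * m + 1) j + zq (2 * m + 1) j / 2 - 1 / 2 * (b + zq (2 * m + 1) j + c - d) =
      (a - 1 / 2 * (b + (c + zq (2 * m + 1) (m - 1 - j)) - d)) +
        (wq (2 * m + 1) j + zq (2 * m + 1) (m - 1 - j) / 2) := by ring
    rw [e4]
    exact Dv_add hp ih h1

/-- `S12 ≡ -(3/4) S3 mod p^4`. -/
theorem S12_eq : Dv p 4 (S12 (2 * m + 1) m + 3 / 4 * S3 (2 * m + 1) m) := by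
  -- first evaluation of the full sum
  have e1 : Dv p 4 (S12 (2 * m + 1) (2 * m) - (2 * S12 (2 * m + 1) m + S3 (2 * m + 1) m)) := by
    have : S12 (2 * m + 1) (2 * m) - (2 * S12 (2 * m + 1) m + S3 (2 * m + 1) m) =
        ∑ i ∈ range m, (S1 (2 * m + 1) (2 * m - 1 - i) * zq (2 * m + 1) (2 * m - 1 - i) ^ 2 -
          (S1 (2 * m + 1) i + zq (2 * m + 1) i) * zq (2 * m + 1) i ^ 2) := by
      have r : ∑ i ∈ range m, (S1 (2 * m + 1) i + zq (2 * m + 1) i) * zq (2 * m + 1) i ^ 2 =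
          S12 (2 * m + 1) m + S3 (2 * m + 1) m := by
        rw [S12, S3, ← sum_add_distrib]
        exact sum_congr rfl (fun i _ => by ring)
      rw [S12, sum_pair, sum_sub_distrib, sum_add_distrib, r, ← S12]
      ring
    rw [this]
    apply sum_Dv hp
    intro i hi
    have a1 := S1_refl hp Hz (i + 1) (by omega)
    have e2 : 2 * m - (i + 1) = 2 * m - 1 - i := by omega
    rw [e2, S1_succ] at a1
    have a2 := zq_refl2 hp Hz i (by omega)
    have a3 := Hz i (by omega)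
    have a4 := S1_Dv hp Hz i (by omega)
    have a5 := S1_Dv hp Hz (2 * m - 1 - i) (by omega)
    have a6 := Hz (2 * m - 1 - i) (by omega)
    generalize S1 (2 * m + 1) (2 * m - 1 - i) = a at *
    generalize S1 (2 * m + 1) i = b at *
    generalize zq (2 * m + 1) (2 * m - 1 - i) = c at *
    generalize zq (2 * m + 1) i = d at *
    have e3 : a * c ^ 2 - (b + d) * d ^ 2 = a * (c ^ 2 - (d ^ 2 + 2 * d ^ 3)) +
      a * (d ^ 3 * 2) + (a - (b + d)) * d ^ 2 := by ring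
    rw [e3]
    refine Dv_add hp (Dv_add hp ?_ ?_) ?_
    · exact Dv_mono (by norm_num) (Dv_mul hp a5 a2)
    · exact Dv_mono (by norm_num) (Dv_mul hp a5 (Dv_mul_int hp (Dv_pow' hp a3 3) (Dv_ofNat hp 2)))
    · exact Dv_mul hp a1 (Dv_pow' hp a3 2)
  have e2 : Dv p 4 (S12 (2 * m + 1) (2 * m) -
      (S12 (2 * m + 1) m / 2 - S3 (2 * m + 1) m / 8)) := by
    have r0 : ∑ i ∈ range m, S1 (2 * m + 1) (2 * i) * zq (2 * m + 1) (2 * i) ^ 2 =
        ∑ i ∈ range m, S1 (2 * m + 1) (2 * (m - 1 - i)) * wq (2 * m + 1) (m - 1 - i) ^ 2 := by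
      rw [sum_even_refl (fun i => S1 (2 * m + 1) i * zq (2 * m + 1) i ^ 2)]
      exact sum_congr rfl (fun i _ => by rw [wq_eq])
    have r1 : ∑ i ∈ range m, (1 / 4 * ((S1 (2 * m + 1) i + S1 (2 * m + 1) (m - 1 - i) -
        S1 (2 * m + 1) m + zq (2 * m + 1) i) * zq (2 * m + 1) i ^ 2) -
        1 / 8 * zq (2 * m + 1) i ^ 3) = S12 (2 * m + 1) m / 2 - S3 (2 * m + 1) m / 8 := by
      have r2 : ∀ i ∈ range m, (1 / 4 * ((S1 (2 * m + 1) i + S1 (2 * m + 1) (m - 1 - i) -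
        S1 (2 * m + 1) m + zq (2 * m + 1) i) * zq (2 * m + 1) i ^ 2) -
        1 / 8 * zq (2 * m + 1) i ^ 3) = 1 / 4 * (S1 (2 * m + 1) i * zq (2 * m + 1) i ^ 2) +
          1 / 4 * (zq (2 * m + 1) i ^ 2 * S1 (2 * m + 1) (m - 1 - i)) -
          (1 / 4 * S1 (2 * m + 1) m) * zq (2 * m + 1) i ^ 2 + 1 / 8 * zq (2 * m + 1) i ^ 3 := by
        intro i _; ring
      rw [sum_congr rfl r2, sum_add_distrib, sum_sub_distrib, sum_add_distrib, ← mul_sum,
        ← mul_sum, ← mul_sum, ← mul_sum, K21, ← S2, ← S3, ← S12]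
      ring
    have : S12 (2 * m + 1) (2 * m) - (S12 (2 * m + 1) m / 2 - S3 (2 * m + 1) m / 8) =
        ∑ i ∈ range m, (S1 (2 * m + 1) (2 * (m - 1 - i)) * wq (2 * m + 1) (m - 1 - i) ^ 2 +
          S1 (2 * m + 1) (2 * i + 1) * zq (2 * m + 1) (2 * i + 1) ^ 2 -
          (1 / 4 * ((S1 (2 * m + 1) i + S1 (2 * m + 1) (m - 1 - i) -
        S1 (2 * m + 1) m + zq (2 * m + 1) i) * zq (2 * m + 1) i ^ 2) -
        1 / 8 * zq (2 * m + 1) i ^ 3)) := by
      rw [sum_sub_distrib, r1, sum_add_distrib, ← r0, ← sum_add_distrib, S12, sum_even_odd]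
    rw [this]
    apply sum_Dv hp
    intro i hi
    -- first part: S1(2(m-1-i)) ≡ S1(2i+2)
    have a1 := S1_refl hp Hz (2 * (i + 1)) (by omega)
    have e3 : 2 * m - 2 * (i + 1) = 2 * (m - 1 - i) := by omega
    rw [e3] at a1
    have a2 := S1_double hp h5 Hz (i + 1) (by omega)
    have e4 : m - (i + 1) = m - 1 - i := by omega
    have e5 : 2 * (i + 1) = 2 * i + 1 + 1 := by ring
    rw [e4, S1_succ _ i] at a2
    rw [e5, S1_succ _ (2 * i + 1)] at a1 a2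
    have a3 := wq_refl2 hp Hz (m - 1 - i) (by omega)
    have e6 : m - 1 - (m - 1 - i) = i := by omega
    rw [e6] at a3
    have a4 := Hz i (by omega)
    have a5 := S1_Dv hp Hz (2 * (m - 1 - i)) (by omega)
    rw [zq_odd] at *
    generalize S1 (2 * m + 1) (2 * (m - 1 - i)) = a at *
    generalize S1 (2 * m + 1) (2 * i + 1) = b at *
    generalize S1 (2 * m + 1) i = c at *
    generalize S1 (2 * m + 1) (m - 1 - i) = d at *
    generalize S1 (2 * m + 1) m = s at *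
    generalize wq (2 * m + 1) (m - 1 - i) = w at *
    generalize zq (2 * m + 1) i = z at *
    have e7 : a * w ^ 2 + b * (z / 2) ^ 2 - (1 / 4 * ((c + d - s + z) * z ^ 2) - 1 / 8 * z ^ 3) =
      a * (w ^ 2 - (z ^ 2 / 4 + z ^ 3 / 4)) + a * (z ^ 3 * (1 / 2 * (1 / 2))) +
      (a - (b + z / 2)) * (z ^ 2 * (1 / 2 * (1 / 2))) +
      ((b + z / 2) - 1 / 2 * (c + z + d - s)) * (z ^ 2 * (1 / 2)) := by ring
    rw [e7]
    have hh := Dv_half hp h5
    refine Dv_add hp (Dv_add hp (Dv_add hp ?_ ?_) ?_) ?_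
    · exact Dv_mono (by norm_num) (Dv_mul hp a5 a3)
    · exact Dv_mono (by norm_num) (Dv_mul hp a5 (Dv_mul_int hp (Dv_pow' hp a4 3)
        (Dv_mul_int hp hh hh)))
    · exact Dv_mul hp a1 (Dv_mul_int hp (Dv_pow' hp a4 2) (Dv_mul_int hp hh hh))
    · exact Dv_mul hp a2 (Dv_mul_int hp (Dv_pow' hp a4 2) hh)
  have e3 := Dv_sub hp e2 e1
  have e4 : S12 (2 * m + 1) m + 3 / 4 * S3 (2 * m + 1) m =
      ((S12 (2 * m + 1) (2 * m) - (S12 (2 * m + 1) m / 2 - S3 (2 * m + 1) m / 8)) -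
      (S12 (2 * m + 1) (2 * m) - (2 * S12 (2 * m + 1) m + S3 (2 * m + 1) m))) *
      (2 * (1 / 3)) := by ring
  rw [e4]
  exact Dv_mul_int hp e3 (Dv_mul_int hp (Dv_ofNat hp 2) (Dv_third hp h5))

end

end Pool.Agent.Helper91
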