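import Mathlib
import Pool.Agent.Helper91.Expand
import Pool.Agent.Helper91.Exact

/-!
Evaluation of the truncated first series modulo `q p^4`.
-/

set_option autoImplicit false

namespace Pool.Agent.Helper91

open Finset

/-- cubic truncation of `exp (c s)`. -/
def ee (s c : ℚ) : ℚ := 1 + c * s + (c * s) ^ 2 / 2 + (c * s) ^ 3 / 6

section
variable {p : ℕ} (hp : p.Prime) (h5 : 5 ≤ p)
include hp

theorem Dv_poly (l : List ℤ) {s : ℚ} (hs : Dv p 0 s) :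
    Dv p 0 (l.foldr (fun (c : ℤ) (acc : ℚ) => (c : ℚ) + s * acc) 0) := by
  induction l with
  | nil => simpa using Dv_zero_mem hp 0
  | cons c l ih =>
    simp only [List.foldr_cons]
    exact Dv_add hp (Dv_int hp c) (Dv_mul_int hp hs ih)

/-- `X ≡ X0 + α` modulo `p^4`, with `X0 ≡ 1` mod `p` and `α ≡ 0` mod `p^3`. -/
def Ap (p : ℕ) (X X0 α : ℚ) : Prop :=
  Dv p 4 (X - (X0 + α)) ∧ Dv p 1 (X0 - 1) ∧ Dv p 3 α

theorem Ap.mul {X X0 α Y Y0 β : ℚ} (h1 : Ap p X X0 α) (h2 : Ap p Y Y0 β) :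
    Ap p (X * Y) (X0 * Y0) (α + β) := by
  obtain ⟨a1, a2, a3⟩ := h1
  obtain ⟨b1, b2, b3⟩ := h2
  have x0 : Dv p 0 X0 := by
    have : X0 = (X0 - 1) + 1 := by ring
    rw [this]; exact Dv_add hp (Dv_mono (by norm_num) a2) (Dv_one hp)
  have y0 : Dv p 0 Y0 := by
    have : Y0 = (Y0 - 1) + 1 := by ring
    rw [this]; exact Dv_add hp (Dv_mono (by norm_num) b2) (Dv_one hp)
  have y : Dv p 0 Y := by
    have : Y = (Y - (Y0 + β)) + Y0 + β := by ring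
    rw [this]
    exact Dv_add hp (Dv_add hp (Dv_mono (by norm_num) b1) y0) (Dv_mono (by norm_num) b3)
  refine ⟨?_, ?_, Dv_add hp a3 b3⟩
  · have e : X * Y - (X0 * Y0 + (α + β)) = (X - (X0 + α)) * Y + (X0 + α) * (Y - (Y0 + β)) +
      (X0 - 1) * β + α * (Y0 - 1) + α * β := by ring
    rw [e]
    refine Dv_add hp (Dv_add hp (Dv_add hp (Dv_add hp ?_ ?_) ?_) ?_) ?_
    · exact Dv_mul_int hp a1 y
    · exact Dv_int_mul hp (Dv_add hp x0 (Dv_mono (by norm_num) a3)) b1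
    · exact Dv_mul hp a2 b3
    · exact Dv_mul hp a3 b2
    · exact Dv_mono (by norm_num) (Dv_mul hp a3 b3)
  · have e : X0 * Y0 - 1 = (X0 - 1) * Y0 + (Y0 - 1) := by ring
    rw [e]
    exact Dv_add hp (Dv_mul_int hp a2 y0) b2

theorem Ap.unit {X X0 α : ℚ} (h : Ap p X X0 α) : X ≠ 0 ∧ Dv p 0 X⁻¹ := by
  obtain ⟨a1, a2, a3⟩ := h
  apply Dv_inv_of_sub_one hp
  have : X - 1 = (X - (X0 + α)) + (X0 - 1) + α := by ring
  rw [this]
  exact Dv_add hp (Dv_add hp (Dv_mono (by norm_num) a1) a2) (Dv_mono (by norm_num) a3)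

theorem Ap.int {X X0 α : ℚ} (h : Ap p X X0 α) : Dv p 0 X := by
  obtain ⟨a1, a2, a3⟩ := h
  have : X = (X - (X0 + α)) + (X0 - 1) + α + 1 := by ring
  rw [this]
  exact Dv_add hp (Dv_add hp (Dv_add hp (Dv_mono (by norm_num) a1) (Dv_mono (by norm_num) a2))
    (Dv_mono (by norm_num) a3)) (Dv_one hp)

theorem Ap.sub_one {X X0 α : ℚ} (h : Ap p X X0 α) : Dv p 1 (X - 1) := by
  obtain ⟨a1, a2, a3⟩ := h
  have : X - 1 = (X - (X0 + α)) + (X0 - 1) + α := by ring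
  rw [this]
  exact Dv_add hp (Dv_add hp (Dv_mono (by norm_num) a1) a2) (Dv_mono (by norm_num) a3)

include h5

theorem ee_sub_one {s c : ℚ} (hs : Dv p 1 s) (hc : Dv p 0 c) : Dv p 1 (ee s c - 1) := by
  have h := Dv_half hp h5
  have h3 := Dv_third hp h5
  have hcs : Dv p 1 (c * s) := Dv_int_mul hp hc hs
  have e : ee s c - 1 = c * s * (1 + (c * s) * (1 / 2) + (c * s) ^ 2 * (1 / 2 * (1 / 3))) := by
    unfold ee; ring
  rw [e]
  have h0 : Dv p 0 (c * s) := Dv_mono (by norm_num) hcs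
  exact Dv_mul_int hp hcs (Dv_add hp (Dv_add hp (Dv_one hp) (Dv_mul_int hp h0 h))
    (Dv_mul_int hp (Dv_pow hp h0 2) (Dv_mul_int hp h h3)))

end

section
variable {p : ℕ} (hp : p.Prime) (h5 : 5 ≤ p) {m : ℕ}
  (Hz : ∀ l, l < 2 * m → Dv p 1 (zq (2 * m + 1) l))
include hp h5 Hz

theorem pA_Ap : Ap p (pA (2 * m + 1) m) (ee (S1 (2 * m + 1) m) (1 / 2))
    (-(S2 (2 * m + 1) m / 8) + S3 (2 * m + 1) m / 24) := by
  have h := Dv_half hp h5
  have h3 := Dv_third hp h5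
  have s1 := S1_Dv hp Hz m (by omega)
  have s2 := S2_Dv3 hp h5 Hz
  have s3 := S3_Dv hp Hz m (by omega)
  have h1 := prod_exp3 hp h5 (fun l => zq (2 * m + 1) l / 2) m (fun i hi => by
    have := Dv_mul_int hp (Hz i (by omega)) h
    have e : zq (2 * m + 1) i / 2 = zq (2 * m + 1) i * (1 / 2) := by ring
    rw [e]; exact this)
  refine ⟨?_, ee_sub_one hp h5 s1 h, ?_⟩
  · simp only [div_pow] at h1
    rw [← sum_div, ← sum_div, ← sum_div, ← S1, ← S2, ← S3, ← pA] at h1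
    generalize S1 (2 * m + 1) m = s at *
    generalize S2 (2 * m + 1) m = t at *
    generalize S3 (2 * m + 1) m = u at *
    have e : pA (2 * m + 1) m - (ee s (1 / 2) + (-(t / 8) + u / 24)) =
      (pA (2 * m + 1) m - (1 + s / 2 + ((s / 2) ^ 2 - t / 2 ^ 2) / 2 +
      ((s / 2) ^ 3 - 3 * (s / 2) * (t / 2 ^ 2) + 2 * (u / 2 ^ 3)) / 6)) -
      s * t * (1 / 2 * (1 / 2) * (1 / 2) * (1 / 2)) := by
      unfold ee; ring
    rw [e]
    exact Dv_sub hp h1 (Dv_mul_int hp (Dv_mul hp s1 s2)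
      (Dv_mul_int hp (Dv_mul_int hp (Dv_mul_int hp h h) h) h))
  · have e : -(S2 (2 * m + 1) m / 8) + S3 (2 * m + 1) m / 24 =
      S2 (2 * m + 1) m * (-(1 / 2 * (1 / 2) * (1 / 2))) +
      S3 (2 * m + 1) m * (1 / 2 * (1 / 2) * (1 / 2) * (1 / 3)) := by ring
    rw [e]
    exact Dv_add hp (Dv_mul_int hp s2 (Dv_neg (Dv_mul_int hp (Dv_mul_int hp h h) h)))
      (Dv_mul_int hp s3 (Dv_mul_int hp (Dv_mul_int hp (Dv_mul_int hp h h) h) h3))

theorem pB_Ap : Ap p (pB (2 * m + 1) m) (ee (S1 (2 * m + 1) m) (-(1 / 2)))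
    (-(S2 (2 * m + 1) m / 8) - S3 (2 * m + 1) m / 24) := by
  have h := Dv_half hp h5
  have h3 := Dv_third hp h5
  have s1 := S1_Dv hp Hz m (by omega)
  have s2 := S2_Dv3 hp h5 Hz
  have s3 := S3_Dv hp Hz m (by omega)
  have h1 := prod_exp3 hp h5 (fun l => -(zq (2 * m + 1) l / 2)) m (fun i hi => by
    have := Dv_mul_int hp (Hz i (by omega)) h
    have e : -(zq (2 * m + 1) i / 2) = -(zq (2 * m + 1) i * (1 / 2)) := by ring
    rw [e]; exact Dv_neg this)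
  refine ⟨?_, ee_sub_one hp h5 s1 (Dv_neg h), ?_⟩
  · have r1 : ∑ i ∈ range m, -(zq (2 * m + 1) i / 2) = -(S1 (2 * m + 1) m / 2) := by
      rw [sum_neg_distrib, ← sum_div, ← S1]
    have r2 : ∑ i ∈ range m, (-(zq (2 * m + 1) i / 2)) ^ 2 = S2 (2 * m + 1) m / 4 := by
      rw [S2, sum_div]; exact sum_congr rfl (fun i _ => by ring)
    have r3 : ∑ i ∈ range m, (-(zq (2 * m + 1) i / 2)) ^ 3 = -(S3 (2 * m + 1) m / 8) := by
      rw [S3, sum_div, ← sum_neg_distrib]; exact sum_congr rfl (fun i _ => by ring)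
    rw [r1, r2, r3, ← pB] at h1
    generalize S1 (2 * m + 1) m = s at *
    generalize S2 (2 * m + 1) m = t at *
    generalize S3 (2 * m + 1) m = u at *
    have e : pB (2 * m + 1) m - (ee s (-(1 / 2)) + (-(t / 8) - u / 24)) =
      (pB (2 * m + 1) m - (1 + -(s / 2) + ((-(s / 2)) ^ 2 - t / 4) / 2 +
      ((-(s / 2)) ^ 3 - 3 * (-(s / 2)) * (t / 4) + 2 * (-(u / 8))) / 6)) +
      s * t * (1 / 2 * (1 / 2) * (1 / 2) * (1 / 2)) := by
      unfold ee; ring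
    rw [e]
    exact Dv_add hp h1 (Dv_mul_int hp (Dv_mul hp s1 s2)
      (Dv_mul_int hp (Dv_mul_int hp (Dv_mul_int hp h h) h) h))
  · have e : -(S2 (2 * m + 1) m / 8) - S3 (2 * m + 1) m / 24 =
      S2 (2 * m + 1) m * (-(1 / 2 * (1 / 2) * (1 / 2))) +
      S3 (2 * m + 1) m * (-(1 / 2 * (1 / 2) * (1 / 2) * (1 / 3))) := by ring
    rw [e]
    exact Dv_add hp (Dv_mul_int hp s2 (Dv_neg (Dv_mul_int hp (Dv_mul_int hp h h) h)))
      (Dv_mul_int hp s3 (Dv_neg (Dv_mul_int hp (Dv_mul_int hp (Dv_mul_int hp h h) h) h3)))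

theorem pC_Ap : Ap p (pC (2 * m + 1) m) (ee (S1 (2 * m + 1) m) (-1))
    (-(S2 (2 * m + 1) m / 2) - S3 (2 * m + 1) m / 3) := by
  have h := Dv_half hp h5
  have h3 := Dv_third hp h5
  have s1 := S1_Dv hp Hz m (by omega)
  have s2 := S2_Dv3 hp h5 Hz
  have s3 := S3_Dv hp Hz m (by omega)
  have h1 := prod_exp3 hp h5 (fun l => -(zq (2 * m + 1) l)) m (fun i hi => by
    exact Dv_neg (Hz i (by omega)))
  refine ⟨?_, ee_sub_one hp h5 s1 (Dv_neg (Dv_one hp)), ?_⟩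
  · have r1 : ∑ i ∈ range m, -(zq (2 * m + 1) i) = -(S1 (2 * m + 1) m) := by
      rw [sum_neg_distrib, ← S1]
    have r2 : ∑ i ∈ range m, (-(zq (2 * m + 1) i)) ^ 2 = S2 (2 * m + 1) m := by
      rw [S2]; exact sum_congr rfl (fun i _ => by ring)
    have r3 : ∑ i ∈ range m, (-(zq (2 * m + 1) i)) ^ 3 = -(S3 (2 * m + 1) m) := by
      rw [S3, ← sum_neg_distrib]; exact sum_congr rfl (fun i _ => by ring)
    rw [r1, r2, r3, ← pC] at h1
    generalize S1 (2 * m + 1) m = s at *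
    generalize S2 (2 * m + 1) m = t at *
    generalize S3 (2 * m + 1) m = u at *
    have e : pC (2 * m + 1) m - (ee s (-1) + (-(t / 2) - u / 3)) =
      (pC (2 * m + 1) m - (1 + -s + ((-s) ^ 2 - t) / 2 +
      ((-s) ^ 3 - 3 * (-s) * t + 2 * (-u)) / 6)) +
      s * t * (1 / 2) := by
      unfold ee; ring
    rw [e]
    exact Dv_add hp h1 (Dv_mul_int hp (Dv_mul hp s1 s2) h)
  · have e : -(S2 (2 * m + 1) m / 2) - S3 (2 * m + 1) m / 3 =
      S2 (2 * m + 1) m * (-(1 / 2)) +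
      S3 (2 * m + 1) m * (-(1 / 3)) := by ring
    rw [e]
    exact Dv_add hp (Dv_mul_int hp s2 (Dv_neg h)) (Dv_mul_int hp s3 (Dv_neg h3))

/-- second order expansions of partial products. -/
theorem pA_exp2 (n : ℕ) (hn : n ≤ 2 * m) : Dv p 3 (pA (2 * m + 1) n -
    (1 + S1 (2 * m + 1) n / 2 + (S1 (2 * m + 1) n ^ 2 - S2 (2 * m + 1) n) / 8)) := by
  have h := Dv_half hp h5
  have h1 := prod_exp2 hp h5 (fun l => zq (2 * m + 1) l / 2) n (fun i hi => by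
    have := Dv_mul_int hp (Hz i (by omega)) h
    have e : zq (2 * m + 1) i / 2 = zq (2 * m + 1) i * (1 / 2) := by ring
    rw [e]; exact this)
  simp only [div_pow] at h1
  rw [← sum_div, ← sum_div, ← S1, ← S2, ← pA] at h1
  have e : pA (2 * m + 1) n -
    (1 + S1 (2 * m + 1) n / 2 + (S1 (2 * m + 1) n ^ 2 - S2 (2 * m + 1) n) / 8) =
    pA (2 * m + 1) n - (1 + S1 (2 * m + 1) n / 2 +
      ((S1 (2 * m + 1) n / 2) ^ 2 - S2 (2 * m + 1) n / 2 ^ 2) / 2) := by ring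
  rw [e]
  exact h1

theorem pB_exp2 (n : ℕ) (hn : n ≤ 2 * m) : Dv p 3 (pB (2 * m + 1) n -
    (1 - S1 (2 * m + 1) n / 2 + (S1 (2 * m + 1) n ^ 2 - S2 (2 * m + 1) n) / 8)) := by
  have h := Dv_half hp h5
  have h1 := prod_exp2 hp h5 (fun l => -(zq (2 * m + 1) l / 2)) n (fun i hi => by
    have := Dv_mul_int hp (Hz i (by omega)) h
    have e : -(zq (2 * m + 1) i / 2) = -(zq (2 * m + 1) i * (1 / 2)) := by ring
    rw [e]; exact Dv_neg this)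
  have r1 : ∑ i ∈ range n, -(zq (2 * m + 1) i / 2) = -(S1 (2 * m + 1) n / 2) := by
    rw [sum_neg_distrib, ← sum_div, ← S1]
  have r2 : ∑ i ∈ range n, (-(zq (2 * m + 1) i / 2)) ^ 2 = S2 (2 * m + 1) n / 4 := by
    rw [S2, sum_div]; exact sum_congr rfl (fun i _ => by ring)
  rw [r1, r2, ← pB] at h1
  have e : pB (2 * m + 1) n -
    (1 - S1 (2 * m + 1) n / 2 + (S1 (2 * m + 1) n ^ 2 - S2 (2 * m + 1) n) / 8) =
    pB (2 * m + 1) n - (1 + -(S1 (2 * m + 1) n / 2) +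
      ((-(S1 (2 * m + 1) n / 2)) ^ 2 - S2 (2 * m + 1) n / 4) / 2) := by ring
  rw [e]
  exact h1

theorem pB_unit (n : ℕ) (hn : n ≤ 2 * m) :
    pB (2 * m + 1) n ≠ 0 ∧ Dv p 0 (pB (2 * m + 1) n)⁻¹ ∧ Dv p 0 (pB (2 * m + 1) n) := by
  have h := Dv_half hp h5
  have h1 := prod_exp0 hp (fun l => -(zq (2 * m + 1) l / 2)) n (fun i hi => by
    have := Dv_mul_int hp (Hz i (by omega)) h
    have e : -(zq (2 * m + 1) i / 2) = -(zq (2 * m + 1) i * (1 / 2)) := by ring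
    rw [e]; exact Dv_neg this)
  rw [← pB] at h1
  obtain ⟨h2, h3⟩ := Dv_inv_of_sub_one hp h1
  refine ⟨h2, h3, ?_⟩
  have : pB (2 * m + 1) n = (pB (2 * m + 1) n - 1) + 1 := by ring
  rw [this]
  exact Dv_add hp (Dv_mono (by norm_num) h1) (Dv_one hp)

/-- expansion of the individual factor. -/
theorem P_exp (i : ℕ) (hi : i < m) : Dv p 3
    (pA (2 * m + 1) (m - 1 - i) * pB (2 * m + 1) i / pB (2 * m + 1) (m - 1 - i) -
    (1 + (2 * S1 (2 * m + 1) (m - 1 - i) - S1 (2 * m + 1) i) / 2 +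
      ((2 * S1 (2 * m + 1) (m - 1 - i) - S1 (2 * m + 1) i) ^ 2 - S2 (2 * m + 1) i) / 8)) := by
  have h := Dv_half hp h5
  have a1 := pA_exp2 hp h5 Hz (m - 1 - i) (by omega)
  have a2 := pB_exp2 hp h5 Hz (m - 1 - i) (by omega)
  have a3 := pB_exp2 hp h5 Hz i (by omega)
  obtain ⟨b1, b2, b3⟩ := pB_unit hp h5 Hz (m - 1 - i) (by omega)
  obtain ⟨c1, c2, c3⟩ := pB_unit hp h5 Hz i (by omega)
  have s1 := S1_Dv hp Hz (m - 1 - i) (by omega)
  have s2 := S1_Dv hp Hz i (by omega)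
  have t1 := S2_Dv hp Hz (m - 1 - i) (by omega)
  have t2 := S2_Dv hp Hz i (by omega)
  generalize S1 (2 * m + 1) (m - 1 - i) = a at *
  generalize S1 (2 * m + 1) i = b at *
  generalize S2 (2 * m + 1) (m - 1 - i) = a' at *
  generalize S2 (2 * m + 1) i = b' at *
  generalize pA (2 * m + 1) (m - 1 - i) = A at *
  generalize pB (2 * m + 1) (m - 1 - i) = B at *
  generalize pB (2 * m + 1) i = D at *
  have e : A * D / B - (1 + (2 * a - b) / 2 + ((2 * a - b) ^ 2 - b') / 8) =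
    ((A - (1 + a / 2 + (a ^ 2 - a') / 8)) * D +
    (1 + a * (1 / 2) + (a ^ 2 - a') * (1 / 2 * (1 / 2) * (1 / 2))) *
      (D - (1 - b / 2 + (b ^ 2 - b') / 8)) -
    (1 + (2 * a - b) * (1 / 2) + ((2 * a - b) ^ 2 - b') * (1 / 2 * (1 / 2) * (1 / 2))) *
      (B - (1 - a / 2 + (a ^ 2 - a') / 8)) +
    ((a * (1 / 2)) * ((b ^ 2 - b') * (1 / 2 * (1 / 2) * (1 / 2))) +
     ((a ^ 2 - a') * (1 / 2 * (1 / 2) * (1 / 2))) * (-(b * (1 / 2))) +
     ((a ^ 2 - a') * (1 / 2 * (1 / 2) * (1 / 2))) * ((b ^ 2 - b') * (1 / 2 * (1 / 2) * (1 / 2))) -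
     ((2 * a - b) * (1 / 2)) * ((a ^ 2 - a') * (1 / 2 * (1 / 2) * (1 / 2))) -
     (((2 * a - b) ^ 2 - b') * (1 / 2 * (1 / 2) * (1 / 2))) * (-(a * (1 / 2))) -
     (((2 * a - b) ^ 2 - b') * (1 / 2 * (1 / 2) * (1 / 2))) *
      ((a ^ 2 - a') * (1 / 2 * (1 / 2) * (1 / 2))))) * B⁻¹ := by
    field_simp
    ring
  rw [e]
  have h8 : Dv p 0 (1 / 2 * (1 / 2) * (1 / 2) : ℚ) := Dv_mul_int hp (Dv_mul_int hp h h) h
  have A1 : Dv p 1 (a * (1 / 2)) := Dv_mul_int hp s1 h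
  have A2 : Dv p 2 ((a ^ 2 - a') * (1 / 2 * (1 / 2) * (1 / 2))) :=
    Dv_mul_int hp (Dv_sub hp (Dv_pow' hp s1 2) t1) h8
  have B1 : Dv p 1 (-(b * (1 / 2))) := Dv_neg (Dv_mul_int hp s2 h)
  have B2 : Dv p 2 ((b ^ 2 - b') * (1 / 2 * (1 / 2) * (1 / 2))) :=
    Dv_mul_int hp (Dv_sub hp (Dv_pow' hp s2 2) t2) h8
  have ab : Dv p 1 (2 * a - b) := Dv_sub hp (Dv_int_mul hp (Dv_ofNat hp 2) s1) s2
  have T1 : Dv p 1 ((2 * a - b) * (1 / 2)) := Dv_mul_int hp ab h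
  have T2 : Dv p 2 (((2 * a - b) ^ 2 - b') * (1 / 2 * (1 / 2) * (1 / 2))) :=
    Dv_mul_int hp (Dv_sub hp (Dv_pow' hp ab 2) t2) h8
  refine Dv_mul_int hp (Dv_add hp (Dv_sub hp (Dv_add hp ?_ ?_) ?_) ?_) b2
  · exact Dv_mul_int hp a1 c3
  · exact Dv_int_mul hp (Dv_add hp (Dv_add hp (Dv_one hp) (Dv_mono (by norm_num) A1))
      (Dv_mono (by norm_num) A2)) a3
  · exact Dv_int_mul hp (Dv_add hp (Dv_add hp (Dv_one hp) (Dv_mono (by norm_num) T1))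
      (Dv_mono (by norm_num) T2)) a2
  · refine Dv_sub hp (Dv_sub hp (Dv_sub hp (Dv_add hp (Dv_add hp ?_ ?_) ?_) ?_) ?_) ?_
    · exact Dv_mul hp A1 B2
    · exact Dv_mul hp A2 B1
    · exact Dv_mono (by norm_num) (Dv_mul hp A2 B2)
    · exact Dv_mul hp T1 A2
    · exact Dv_mul hp T2 (Dv_neg A1)
    · exact Dv_mono (by norm_num) (Dv_mul hp T2 A2)

/-- expansion of `PP`. -/
theorem PP_exp : Dv p 4 (PP (2 * m + 1) m -
    ((S1 (2 * m + 1) m + 3 / 4 * S1 (2 * m + 1) m ^ 2 + 7 / 24 * S1 (2 * m + 1) m ^ 3) +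
      (-(3 / 4) * S2 (2 * m + 1) m + 1 / 12 * S3 (2 * m + 1) m + 1 / 2 * S12 (2 * m + 1) m))) := by
  have h := Dv_half hp h5
  have s1 := S1_Dv hp Hz m (by omega)
  have s2 := S2_Dv3 hp h5 Hz
  have r : ∑ i ∈ range m, zq (2 * m + 1) i *
    (1 + (2 * S1 (2 * m + 1) (m - 1 - i) - S1 (2 * m + 1) i) / 2 +
      ((2 * S1 (2 * m + 1) (m - 1 - i) - S1 (2 * m + 1) i) ^ 2 - S2 (2 * m + 1) i) / 8) =
    (S1 (2 * m + 1) m + 3 / 4 * S1 (2 * m + 1) m ^ 2 + 7 / 24 * S1 (2 * m + 1) m ^ 3) +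
      (-(3 / 4) * S2 (2 * m + 1) m + 1 / 12 * S3 (2 * m + 1) m + 1 / 2 * S12 (2 * m + 1) m) -
      3 / 8 * (S1 (2 * m + 1) m * S2 (2 * m + 1) m) := by
    have r1 : ∀ i ∈ range m, zq (2 * m + 1) i *
      (1 + (2 * S1 (2 * m + 1) (m - 1 - i) - S1 (2 * m + 1) i) / 2 +
      ((2 * S1 (2 * m + 1) (m - 1 - i) - S1 (2 * m + 1) i) ^ 2 - S2 (2 * m + 1) i) / 8) =
      zq (2 * m + 1) i + zq (2 * m + 1) i * S1 (2 * m + 1) (m - 1 - i) -
      1 / 2 * (zq (2 * m + 1) i * S1 (2 * m + 1) i) +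
      1 / 2 * (zq (2 * m + 1) i * S1 (2 * m + 1) (m - 1 - i) ^ 2) -
      1 / 2 * (zq (2 * m + 1) i * S1 (2 * m + 1) (m - 1 - i) * S1 (2 * m + 1) i) +
      1 / 8 * (zq (2 * m + 1) i * (S1 (2 * m + 1) i ^ 2 - S2 (2 * m + 1) i)) := by
      intro i _; ring
    rw [sum_congr rfl r1, sum_add_distrib, sum_sub_distrib, sum_add_distrib, sum_sub_distrib,
      sum_add_distrib, ← mul_sum, ← mul_sum, ← mul_sum, ← mul_sum, I1, I2, J1, J2, J3, ← S1]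
    ring
  have e : PP (2 * m + 1) m -
    ((S1 (2 * m + 1) m + 3 / 4 * S1 (2 * m + 1) m ^ 2 + 7 / 24 * S1 (2 * m + 1) m ^ 3) +
      (-(3 / 4) * S2 (2 * m + 1) m + 1 / 12 * S3 (2 * m + 1) m + 1 / 2 * S12 (2 * m + 1) m)) =
    ∑ i ∈ range m, (zq (2 * m + 1) i *
      (pA (2 * m + 1) (m - 1 - i) * pB (2 * m + 1) i / pB (2 * m + 1) (m - 1 - i) -
    (1 + (2 * S1 (2 * m + 1) (m - 1 - i) - S1 (2 * m + 1) i) / 2 +
      ((2 * S1 (2 * m + 1) (m - 1 - i) - S1 (2 * m + 1) i) ^ 2 - S2 (2 * m + 1) i) / 8))) -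
      (S1 (2 * m + 1) m * S2 (2 * m + 1) m) * (3 * (1 / 2 * (1 / 2) * (1 / 2))) := by
    have r2 : ∀ i ∈ range m, (zq (2 * m + 1) i *
      (pA (2 * m + 1) (m - 1 - i) * pB (2 * m + 1) i / pB (2 * m + 1) (m - 1 - i) -
    (1 + (2 * S1 (2 * m + 1) (m - 1 - i) - S1 (2 * m + 1) i) / 2 +
      ((2 * S1 (2 * m + 1) (m - 1 - i) - S1 (2 * m + 1) i) ^ 2 - S2 (2 * m + 1) i) / 8))) =
      zq (2 * m + 1) i *
      (pA (2 * m + 1) (m - 1 - i) * pB (2 * m + 1) i / pB (2 * m + 1) (m - 1 - i)) -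
      zq (2 * m + 1) i *
    (1 + (2 * S1 (2 * m + 1) (m - 1 - i) - S1 (2 * m + 1) i) / 2 +
      ((2 * S1 (2 * m + 1) (m - 1 - i) - S1 (2 * m + 1) i) ^ 2 - S2 (2 * m + 1) i) / 8) := by
      intro i _; ring
    rw [sum_congr rfl r2, sum_sub_distrib, r, PP]
    ring
  rw [e]
  refine Dv_sub hp (sum_Dv hp _ m 4 (fun i hi => ?_)) ?_
  · exact Dv_mul hp (Hz i (by omega)) (P_exp hp h5 Hz i hi)
  · exact Dv_mul_int hp (Dv_mul hp s1 s2) (Dv_mul_int hp (Dv_ofNat hp 3)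
      (Dv_mul_int hp (Dv_mul_int hp h h) h))

/-- The bracket in the evaluation of the first series, modulo `p^4`. -/
theorem S6_cong : Dv p 4 (pA (2 * m + 1) m * pB (2 * m + 1) m / 4 ^ m -
        1 / 2 * (pB (2 * m + 1) m ^ 2 / 4 ^ m) * PP (2 * m + 1) m -
        (1 + (S2 (2 * m + 1) m / 2 + S3 (2 * m + 1) m / 4 - S12 (2 * m + 1) m / 4))) := by
  have h := Dv_half hp h5
  have h3 := Dv_third hp h5
  have s1 := S1_Dv hp Hz m (by omega)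
  have s2 := S2_Dv3 hp h5 Hz
  have s3 := S3_Dv hp Hz m (by omega)
  have s12 := S12_Dv hp Hz m (by omega)
  have hA := pA_Ap hp h5 Hz
  have hB := pB_Ap hp h5 Hz
  have hC := pC_Ap hp h5 Hz
  have hP := PP_exp hp h5 Hz
  have h4 := L4 m
  have hT : Ap p (1 + (S2 (2 * m + 1) m / 2 + S3 (2 * m + 1) m / 4 - S12 (2 * m + 1) m / 4)) 1
      (S2 (2 * m + 1) m / 2 + S3 (2 * m + 1) m / 4 - S12 (2 * m + 1) m / 4) := by
    refine ⟨?_, ?_, ?_⟩
    · rw [sub_self]; exact Dv_zero_mem hp 4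
    · rw [sub_self]; exact Dv_zero_mem hp 1
    · have e : S2 (2 * m + 1) m / 2 + S3 (2 * m + 1) m / 4 - S12 (2 * m + 1) m / 4 =
        S2 (2 * m + 1) m * (1 / 2) + S3 (2 * m + 1) m * (1 / 2 * (1 / 2)) -
          S12 (2 * m + 1) m * (1 / 2 * (1 / 2)) := by ring
      rw [e]
      exact Dv_sub hp (Dv_add hp (Dv_mul_int hp s2 h) (Dv_mul_int hp s3 (Dv_mul_int hp h h)))
        (Dv_mul_int hp s12 (Dv_mul_int hp h h))
  obtain ⟨c0, c1⟩ := hC.unit hp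
  have hABB := ((hA.mul hp hB).mul hp hB)
  have hBBB := ((hB.mul hp hB).mul hp hB)
  have hTC := hT.mul hp hC
  have hBint := hBBB.int hp
  generalize pA (2 * m + 1) m = A at *
  generalize pB (2 * m + 1) m = B at *
  generalize pC (2 * m + 1) m = C at *
  generalize PP (2 * m + 1) m = P at *
  generalize S1 (2 * m + 1) m = s at *
  generalize S2 (2 * m + 1) m = t at *
  generalize S3 (2 * m + 1) m = u at *
  generalize S12 (2 * m + 1) m = v at *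
  have hf : (4 : ℚ) ^ m ≠ 0 := by positivity
  have hB0 : B ≠ 0 := by
    intro h0; rw [h0, mul_zero] at h4; exact c0 h4.symm
  have e1 : A * B / 4 ^ m - 1 / 2 * (B ^ 2 / 4 ^ m) * P - (1 + (t / 2 + u / 4 - v / 4)) =
      (A * B * B - 1 / 2 * (B * B * B * P) - (1 + (t / 2 + u / 4 - v / 4)) * C) * C⁻¹ := by
    rw [← h4]
    field_simp
  rw [e1]
  refine Dv_mul_int hp ?_ c1
  have sT : Dv p 1 (s + 3 / 4 * s ^ 2 + 7 / 24 * s ^ 3) := by
    have e : s + 3 / 4 * s ^ 2 + 7 / 24 * s ^ 3 = s * (1 + 3 * (1 / 2 * (1 / 2)) * s +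
      7 * (1 / 2 * (1 / 2) * (1 / 2) * (1 / 3)) * s ^ 2) := by ring
    rw [e]
    have s0 := Dv_mono (p := p) (by norm_num : 0 ≤ 1) s1
    exact Dv_mul_int hp s1 (Dv_add hp (Dv_add hp (Dv_one hp) (Dv_mul_int hp
      (Dv_mul_int hp (Dv_ofNat hp 3) (Dv_mul_int hp h h)) s0))
      (Dv_mul_int hp (Dv_mul_int hp (Dv_ofNat hp 7)
        (Dv_mul_int hp (Dv_mul_int hp (Dv_mul_int hp h h) h) h3)) (Dv_pow hp s0 2)))
  have sτ : Dv p 3 (-(3 / 4) * t + 1 / 12 * u + 1 / 2 * v) := by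
    have e : -(3 / 4) * t + 1 / 12 * u + 1 / 2 * v = t * (-(3 * (1 / 2 * (1 / 2)))) +
      u * (1 / 2 * (1 / 2) * (1 / 3)) + v * (1 / 2) := by ring
    rw [e]
    exact Dv_add hp (Dv_add hp (Dv_mul_int hp s2 (Dv_neg (Dv_mul_int hp (Dv_ofNat hp 3)
      (Dv_mul_int hp h h)))) (Dv_mul_int hp s3 (Dv_mul_int hp (Dv_mul_int hp h h) h3)))
      (Dv_mul_int hp s12 h)
  have hPint : Dv p 0 P := by
    have e : P = (P - ((s + 3 / 4 * s ^ 2 + 7 / 24 * s ^ 3) +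
      (-(3 / 4) * t + 1 / 12 * u + 1 / 2 * v))) + (s + 3 / 4 * s ^ 2 + 7 / 24 * s ^ 3) +
      (-(3 / 4) * t + 1 / 12 * u + 1 / 2 * v) := by ring
    rw [e]
    exact Dv_add hp (Dv_add hp (Dv_mono (by norm_num) hP) (Dv_mono (by norm_num) sT))
      (Dv_mono (by norm_num) sτ)
  have key : Dv p 4 (ee s (1 / 2) * ee s (-(1 / 2)) * ee s (-(1 / 2)) -
      1 / 2 * (ee s (-(1 / 2)) * ee s (-(1 / 2)) * ee s (-(1 / 2)) *
        (s + 3 / 4 * s ^ 2 + 7 / 24 * s ^ 3)) - ee s (-1)) := by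
    have s0 := Dv_mono (p := p) (by norm_num : 0 ≤ 1) s1
    have hl := Dv_poly hp [387072, -276480, 170496, -76032, 24336, -5712, 960, -108, 7] s0
    have e : ee s (1 / 2) * ee s (-(1 / 2)) * ee s (-(1 / 2)) -
      1 / 2 * (ee s (-(1 / 2)) * ee s (-(1 / 2)) * ee s (-(1 / 2)) *
        (s + 3 / 4 * s ^ 2 + 7 / 24 * s ^ 3)) - ee s (-1) =
      s ^ 4 * (List.foldr (fun (c : ℤ) (acc : ℚ) => (c : ℚ) + s * acc) 0
        [387072, -276480, 170496, -76032, 24336, -5712, 960, -108, 7]) *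
        ((1 / 2) ^ 16 * (1 / 3) ^ 4) := by
      unfold ee
      simp only [List.foldr_cons, List.foldr_nil]
      push_cast
      ring
    rw [e]
    exact Dv_mul_int hp (Dv_mul_int hp (Dv_pow' hp s1 4) hl)
      (Dv_mul_int hp (Dv_pow hp h 16) (Dv_pow hp h3 4))
  obtain ⟨x1, x2, x3⟩ := hABB
  obtain ⟨y1, y2, y3⟩ := hBBB
  obtain ⟨z1, z2, z3⟩ := hTC
  generalize ee s (1 / 2) = A0 at *
  generalize ee s (-(1 / 2)) = B0 at *
  generalize ee s (-1) = C0 at *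
  have yP : Dv p 4 (B * B * B * P - (B0 * B0 * B0 * (s + 3 / 4 * s ^ 2 + 7 / 24 * s ^ 3) +
      (-(3 / 4) * t + 1 / 12 * u + 1 / 2 * v))) := by
    have e : B * B * B * P - (B0 * B0 * B0 * (s + 3 / 4 * s ^ 2 + 7 / 24 * s ^ 3) +
      (-(3 / 4) * t + 1 / 12 * u + 1 / 2 * v)) =
      (B * B * B - (B0 * B0 * B0 +
        (-(t / 8) - u / 24 + (-(t / 8) - u / 24) + (-(t / 8) - u / 24)))) * P +
      (B0 * B0 * B0 - 1 + 1 + (-(t / 8) - u / 24 + (-(t / 8) - u / 24) + (-(t / 8) - u / 24))) *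
        (P - ((s + 3 / 4 * s ^ 2 + 7 / 24 * s ^ 3) +
          (-(3 / 4) * t + 1 / 12 * u + 1 / 2 * v))) +
      (-(t / 8) - u / 24 + (-(t / 8) - u / 24) + (-(t / 8) - u / 24)) *
        (s + 3 / 4 * s ^ 2 + 7 / 24 * s ^ 3) +
      (-(t / 8) - u / 24 + (-(t / 8) - u / 24) + (-(t / 8) - u / 24)) *
        (-(3 / 4) * t + 1 / 12 * u + 1 / 2 * v) +
      (B0 * B0 * B0 - 1) * (-(3 / 4) * t + 1 / 12 * u + 1 / 2 * v) := by ring
    rw [e]
    refine Dv_add hp (Dv_add hp (Dv_add hp (Dv_add hp ?_ ?_) ?_) ?_) ?_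
    · exact Dv_mul_int hp y1 hPint
    · exact Dv_int_mul hp (Dv_add hp (Dv_add hp (Dv_mono (by norm_num) y2) (Dv_one hp))
        (Dv_mono (by norm_num) y3)) hP
    · exact Dv_mul hp y3 sT
    · exact Dv_mono (by norm_num) (Dv_mul hp y3 sτ)
    · exact Dv_mul hp y2 sτ
  have e2 : A * B * B - 1 / 2 * (B * B * B * P) - (1 + (t / 2 + u / 4 - v / 4)) * C =
      (A * B * B - (A0 * B0 * B0 +
        (-(t / 8) + u / 24 + (-(t / 8) - u / 24) + (-(t / 8) - u / 24)))) -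
      (1 / 2) * (B * B * B * P - (B0 * B0 * B0 * (s + 3 / 4 * s ^ 2 + 7 / 24 * s ^ 3) +
      (-(3 / 4) * t + 1 / 12 * u + 1 / 2 * v))) -
      ((1 + (t / 2 + u / 4 - v / 4)) * C - (1 * C0 + (t / 2 + u / 4 - v / 4 +
        (-(t / 2) - u / 3)))) +
      (A0 * B0 * B0 - 1 / 2 * (B0 * B0 * B0 * (s + 3 / 4 * s ^ 2 + 7 / 24 * s ^ 3)) - C0) := by
    ring
  rw [e2]
  exact Dv_add hp (Dv_sub hp (Dv_sub hp x1 (Dv_int_mul hp h yP)) z1) key

/-- `(B/4^m)^3 ≡ 1 + (3/4)(S2+S3)`. -/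
theorem BX_cong : Dv p 4 (pB (2 * m + 1) m ^ 3 / (4 ^ m) ^ 3 -
    (1 + 3 / 4 * (S2 (2 * m + 1) m + S3 (2 * m + 1) m))) := by
  have h := Dv_half hp h5
  have h3 := Dv_third hp h5
  have s1 := S1_Dv hp Hz m (by omega)
  have s2 := S2_Dv3 hp h5 Hz
  have s3 := S3_Dv hp Hz m (by omega)
  have hB := pB_Ap hp h5 Hz
  have hC := pC_Ap hp h5 Hz
  have h4 := L4 m
  have hT : Ap p (1 + 3 / 4 * (S2 (2 * m + 1) m + S3 (2 * m + 1) m)) 1
      (3 / 4 * (S2 (2 * m + 1) m + S3 (2 * m + 1) m)) := by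
    refine ⟨?_, ?_, ?_⟩
    · rw [sub_self]; exact Dv_zero_mem hp 4
    · rw [sub_self]; exact Dv_zero_mem hp 1
    · have e : 3 / 4 * (S2 (2 * m + 1) m + S3 (2 * m + 1) m) =
        (S2 (2 * m + 1) m + S3 (2 * m + 1) m) * (3 * (1 / 2 * (1 / 2))) := by ring
      rw [e]
      exact Dv_mul_int hp (Dv_add hp s2 s3) (Dv_mul_int hp (Dv_ofNat hp 3) (Dv_mul_int hp h h))
  have hCCC := (hC.mul hp hC).mul hp hC
  obtain ⟨c0, c1⟩ := hCCC.unit hp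
  have hBBB := ((hB.mul hp hB).mul hp hB)
  have hB6 := hBBB.mul hp hBBB
  have hTC := hT.mul hp hCCC
  generalize pB (2 * m + 1) m = B at *
  generalize pC (2 * m + 1) m = C at *
  generalize S1 (2 * m + 1) m = s at *
  generalize S2 (2 * m + 1) m = t at *
  generalize S3 (2 * m + 1) m = u at *
  have hf : (4 : ℚ) ^ m ≠ 0 := by positivity
  have hC0 : C ≠ 0 := by
    intro h0; apply c0; rw [h0]; ring
  have hB0 : B ≠ 0 := by
    intro h0; rw [h0, mul_zero] at h4; exact hC0 h4.symm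
  have e1 : B ^ 3 / (4 ^ m) ^ 3 - (1 + 3 / 4 * (t + u)) =
      (B * B * B * (B * B * B) - (1 + 3 / 4 * (t + u)) * (C * C * C)) * (C * C * C)⁻¹ := by
    rw [← h4]
    field_simp
  rw [e1]
  refine Dv_mul_int hp ?_ c1
  have key : Dv p 4 (ee s (-(1 / 2)) * ee s (-(1 / 2)) * ee s (-(1 / 2)) *
      (ee s (-(1 / 2)) * ee s (-(1 / 2)) * ee s (-(1 / 2))) -
        ee s (-1) * ee s (-1) * ee s (-1)) := by
    have s0 := Dv_mono (p := p) (by norm_num : 0 ≤ 1) s1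
    have hl := Dv_poly hp [1337720832, -2866544640, 3073572864, -2197684224, 1115762688,
      -418369536, 118775808, -25380864, 4608576, -703296, 88560, -8928, 684, -36, 1] s0
    have e : ee s (-(1 / 2)) * ee s (-(1 / 2)) * ee s (-(1 / 2)) *
      (ee s (-(1 / 2)) * ee s (-(1 / 2)) * ee s (-(1 / 2))) -
        ee s (-1) * ee s (-1) * ee s (-1) =
      s ^ 4 * (List.foldr (fun (c : ℤ) (acc : ℚ) => (c : ℚ) + s * acc) 0
        [1337720832, -2866544640, 3073572864, -2197684224, 1115762688,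
      -418369536, 118775808, -25380864, 4608576, -703296, 88560, -8928, 684, -36, 1]) *
        ((1 / 2) ^ 24 * (1 / 3) ^ 6) := by
      unfold ee
      simp only [List.foldr_cons, List.foldr_nil]
      push_cast
      ring
    rw [e]
    exact Dv_mul_int hp (Dv_mul_int hp (Dv_pow' hp s1 4) hl)
      (Dv_mul_int hp (Dv_pow hp h 24) (Dv_pow hp h3 6))
  obtain ⟨x1, x2, x3⟩ := hB6
  obtain ⟨z1, z2, z3⟩ := hTC
  generalize ee s (-(1 / 2)) = B0 at *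
  generalize ee s (-1) = C0 at *
  have e2 : B * B * B * (B * B * B) - (1 + 3 / 4 * (t + u)) * (C * C * C) =
      (B * B * B * (B * B * B) - (B0 * B0 * B0 * (B0 * B0 * B0) +
        (-(t / 8) - u / 24 + (-(t / 8) - u / 24) + (-(t / 8) - u / 24) +
        (-(t / 8) - u / 24 + (-(t / 8) - u / 24) + (-(t / 8) - u / 24))))) -
      ((1 + 3 / 4 * (t + u)) * (C * C * C) - (1 * (C0 * C0 * C0) + (3 / 4 * (t + u) +
        (-(t / 2) - u / 3 + (-(t / 2) - u / 3) + (-(t / 2) - u / 3))))) +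
      (B0 * B0 * B0 * (B0 * B0 * B0) - C0 * C0 * C0) := by
    ring
  rw [e2]
  exact Dv_add hp (Dv_sub hp x1 z1) key

end

end Pool.Agent.Helper91
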