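import Mathlib
import Pool.Agent.Helper91.Main1

/-!
The vertical sum of pair B, and the divisibility hypotheses for `q = p^a`.
-/

set_option autoImplicit false

namespace Pool.Agent.Helper91

open Finset

section
variable {p : ℕ} (hp : p.Prime) (h5 : 5 ≤ p) {m : ℕ}
  (Hz : ∀ l, l < 2 * m → Dv p 1 (zq (2 * m + 1) l))
include hp h5 Hz

omit h5 in
theorem W_cong (k : ℕ) (hk : k ≤ m) :
    Dv p 2 (∑ i ∈ range k, wq (2 * m + 1) i +
      (S1 (2 * m + 1) m - S1 (2 * m + 1) (m - k)) / 2) := by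
  induction k with
  | zero => simpa using Dv_zero_mem hp 2
  | succ k ih =>
    have ih := ih (by omega)
    have e1 : m - k = (m - (k + 1)) + 1 := by omega
    have e2 : m - (k + 1) = m - 1 - k := by omega
    rw [e1, S1_succ, e2] at ih
    rw [sum_range_succ, e2]
    have h1 := wq_refl1 hp Hz k (by omega)
    have e3 : ∑ i ∈ range k, wq (2 * m + 1) i + wq (2 * m + 1) k +
      (S1 (2 * m + 1) m - S1 (2 * m + 1) (m - 1 - k)) / 2 =
      (∑ i ∈ range k, wq (2 * m + 1) i +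
      (S1 (2 * m + 1) m - (S1 (2 * m + 1) (m - 1 - k) + zq (2 * m + 1) (m - 1 - k))) / 2) +
      (wq (2 * m + 1) k + zq (2 * m + 1) (m - 1 - k) / 2) := by ring
    rw [e3]
    exact Dv_add hp ih h1

omit h5 in
theorem pO_unit (k : ℕ) (hk : k ≤ m) :
    pO (2 * m + 1) k ≠ 0 ∧ Dv p 0 (pO (2 * m + 1) k)⁻¹ ∧
      Dv p 2 (pO (2 * m + 1) k - (1 + ∑ i ∈ range k, wq (2 * m + 1) i)) ∧
      Dv p 1 (pO (2 * m + 1) k - 1) := by
  have h1 := prod_exp0 hp (fun i => wq (2 * m + 1) i) k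
    (fun i hi => wq_Dv hp Hz i (by omega))
  have h2 := prod_exp1 hp (fun i => wq (2 * m + 1) i) k
    (fun i hi => wq_Dv hp Hz i (by omega))
  rw [← pO] at h1 h2
  obtain ⟨h3, h4⟩ := Dv_inv_of_sub_one hp h1
  exact ⟨h3, h4, h2, h1⟩

/-- The vertical sum. -/
theorem V_cong : Dv p 4 (∑ k ∈ range m, wq (2 * m + 1) k ^ 2 / pO (2 * m + 1) (k + 1) ^ 2 -
    (S2 (2 * m + 1) m + S3 (2 * m + 1) m - S12 (2 * m + 1) m) / 4) := by
  have h := Dv_half hp h5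
  have s1 := S1_Dv hp Hz m (by omega)
  have s2 := S2_Dv3 hp h5 Hz
  have r : ∑ k ∈ range m, 1 / 4 * (zq (2 * m + 1) (m - 1 - k) ^ 2 +
      zq (2 * m + 1) (m - 1 - k) ^ 3 + zq (2 * m + 1) (m - 1 - k) ^ 2 *
        (S1 (2 * m + 1) m - S1 (2 * m + 1) (m - 1 - k))) =
      (S2 (2 * m + 1) m + S3 (2 * m + 1) m - S12 (2 * m + 1) m) / 4 +
        1 / 4 * (S1 (2 * m + 1) m * S2 (2 * m + 1) m) := by
    rw [sum_range_reflect (fun i => 1 / 4 * (zq (2 * m + 1) i ^ 2 +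
      zq (2 * m + 1) i ^ 3 + zq (2 * m + 1) i ^ 2 *
        (S1 (2 * m + 1) m - S1 (2 * m + 1) i))) m]
    have r1 : ∀ i ∈ range m, 1 / 4 * (zq (2 * m + 1) i ^ 2 +
      zq (2 * m + 1) i ^ 3 + zq (2 * m + 1) i ^ 2 *
        (S1 (2 * m + 1) m - S1 (2 * m + 1) i)) =
        (1 / 4 + 1 / 4 * S1 (2 * m + 1) m) * zq (2 * m + 1) i ^ 2 +
        1 / 4 * zq (2 * m + 1) i ^ 3 -
        1 / 4 * (S1 (2 * m + 1) i * zq (2 * m + 1) i ^ 2) := by
      intro i _; ring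
    rw [sum_congr rfl r1, sum_sub_distrib, sum_add_distrib, ← mul_sum, ← mul_sum, ← mul_sum,
      ← S2, ← S3, ← S12]
    ring
  have e : ∑ k ∈ range m, wq (2 * m + 1) k ^ 2 / pO (2 * m + 1) (k + 1) ^ 2 -
    (S2 (2 * m + 1) m + S3 (2 * m + 1) m - S12 (2 * m + 1) m) / 4 =
    ∑ k ∈ range m, (wq (2 * m + 1) k ^ 2 / pO (2 * m + 1) (k + 1) ^ 2 -
      1 / 4 * (zq (2 * m + 1) (m - 1 - k) ^ 2 +
      zq (2 * m + 1) (m - 1 - k) ^ 3 + zq (2 * m + 1) (m - 1 - k) ^ 2 *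
        (S1 (2 * m + 1) m - S1 (2 * m + 1) (m - 1 - k)))) +
      (S1 (2 * m + 1) m * S2 (2 * m + 1) m) * (1 / 2 * (1 / 2)) := by
    rw [sum_sub_distrib, r]; ring
  rw [e]
  refine Dv_add hp (sum_Dv hp _ m 4 (fun k hk => ?_))
    (Dv_mul_int hp (Dv_mul hp s1 s2) (Dv_mul_int hp h h))
  have a1 := W_cong hp Hz (k + 1) (by omega)
  obtain ⟨a2, a3, a4, a5⟩ := pO_unit hp Hz (k + 1) (by omega)
  have a6 := wq_refl2 hp Hz k hk
  have a7 := wq_Dv hp Hz k hk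
  have a8 := Hz (m - 1 - k) (by omega)
  have a9 := S1_Dv hp Hz (m - 1 - k) (by omega)
  have e2 : m - (k + 1) = m - 1 - k := by omega
  rw [e2] at a1
  have hW : Dv p 1 (∑ i ∈ range (k + 1), wq (2 * m + 1) i) :=
    sum_Dv hp _ _ 1 (fun i hi => wq_Dv hp Hz i (by omega))
  generalize ∑ i ∈ range (k + 1), wq (2 * m + 1) i = W at *
  generalize pO (2 * m + 1) (k + 1) = O at *
  generalize wq (2 * m + 1) k = w at *
  generalize zq (2 * m + 1) (m - 1 - k) = z at *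
  generalize S1 (2 * m + 1) (m - 1 - k) = b at *
  generalize S1 (2 * m + 1) m = s at *
  -- 1/O^2 - (1 - 2W) is Dv 2
  have b1 : Dv p 2 (1 / O ^ 2 - (1 - 2 * W)) := by
    have e3 : 1 / O ^ 2 - (1 - 2 * W) =
      (-(1 - 2 * W) * (O - (1 + W)) * (O + (1 + W)) + W ^ 2 * (3 + 2 * W)) * (O⁻¹ ^ 2) := by
      field_simp
      ring
    rw [e3]
    have W0 := Dv_mono (p := p) (by norm_num : 0 ≤ 1) hW
    have O0 : Dv p 0 O := by
      have : O = (O - 1) + 1 := by ring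
      rw [this]; exact Dv_add hp (Dv_mono (by norm_num) a5) (Dv_one hp)
    refine Dv_mul_int hp (Dv_add hp ?_ ?_) (Dv_pow hp a3 2)
    · refine Dv_mul_int hp (Dv_int_mul hp (Dv_neg (Dv_sub hp (Dv_one hp)
        (Dv_int_mul hp (Dv_ofNat hp 2) W0))) a4) (Dv_add hp O0 (Dv_add hp (Dv_one hp) W0))
    · exact Dv_mul_int hp (Dv_pow' hp hW 2) (Dv_add hp (Dv_ofNat hp 3)
        (Dv_int_mul hp (Dv_ofNat hp 2) W0))
  have e4 : w ^ 2 / O ^ 2 - 1 / 4 * (z ^ 2 + z ^ 3 + z ^ 2 * (s - b)) =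
    w ^ 2 * (1 / O ^ 2 - (1 - 2 * W)) + (w ^ 2 - (z ^ 2 / 4 + z ^ 3 / 4)) * (1 - 2 * W) -
    (z ^ 2 * 2 * (1 / 2 * (1 / 2))) * (W + (s - b) / 2) -
    z ^ 3 * (W * 2 * (1 / 2 * (1 / 2))) := by
    field_simp
    ring
  rw [e4]
  have W0 := Dv_mono (p := p) (by norm_num : 0 ≤ 1) hW
  have c4 : Dv p 0 (1 / 2 * (1 / 2) : ℚ) := Dv_mul_int hp h h
  refine Dv_sub hp (Dv_sub hp (Dv_add hp ?_ ?_) ?_) ?_
  · exact Dv_mul hp (Dv_pow' hp a7 2) b1
  · exact Dv_mul_int hp a6 (Dv_sub hp (Dv_one hp) (Dv_int_mul hp (Dv_ofNat hp 2) W0))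
  · exact Dv_mul hp (Dv_mul_int hp (Dv_mul_int hp (Dv_pow' hp a8 2) (Dv_ofNat hp 2)) c4) a1
  · exact Dv_mul hp (Dv_pow' hp a8 3) (Dv_mul_int hp (Dv_mul_int hp hW (Dv_ofNat hp 2)) c4)

/-- `B^3/4^m ≡ 1 mod p`. -/
theorem B3_cong : Dv p 1 (pB (2 * m + 1) m ^ 3 / 4 ^ m - 1) := by
  have hB := pB_Ap hp h5 Hz
  have hC := pC_Ap hp h5 Hz
  have h4 := L4 m
  have hB4 := (((hB.mul hp hB).mul hp hB).mul hp hB).sub_one hp
  have hC1 := hC.sub_one hp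
  obtain ⟨c0, c1⟩ := hC.unit hp
  generalize pB (2 * m + 1) m = B at *
  generalize pC (2 * m + 1) m = C at *
  have hf : (4 : ℚ) ^ m ≠ 0 := by positivity
  have hB0 : B ≠ 0 := by
    intro h0; rw [h0, mul_zero] at h4; exact c0 h4.symm
  have e : B ^ 3 / 4 ^ m - 1 = ((B * B * B * B - 1) - (C - 1)) * C⁻¹ := by
    rw [← h4]
    field_simp
    ring
  rw [e]
  exact Dv_mul_int hp (Dv_sub hp hB4 hC1) c1

/-- The bracket in the evaluation of the `(42n+5)` series. -/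
theorem S42_cong : Dv p 4 ((pA (2 * m + 1) m * pB (2 * m + 1) m / 4 ^ m -
        1 / 2 * (pB (2 * m + 1) m ^ 2 / 4 ^ m) * PP (2 * m + 1) m) +
      (pB (2 * m + 1) m ^ 3 / 4 ^ m) *
        (∑ k ∈ range m, wq (2 * m + 1) k ^ 2 / pO (2 * m + 1) (k + 1) ^ 2) +
      1 / 4 * (pB (2 * m + 1) m ^ 3 / (4 ^ m) ^ 3) -
      (5 / 4 - 3 / 16 * S1 (2 * m + 1) (2 * m))) := by
  have h := Dv_half hp h5
  have h1 := S6_cong hp h5 Hz
  have h2 := V_cong hp h5 Hz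
  have h3 := BX_cong hp h5 Hz
  have h4 := B3_cong hp h5 Hz
  have h5' := S2_eq hp h5 Hz
  have h6 := S12_eq hp h5 Hz
  have h7 := S1_full hp Hz
  have s2 := S2_Dv3 hp h5 Hz
  have s3 := S3_Dv hp Hz m (by omega)
  have s12 := S12_Dv hp Hz m (by omega)
  generalize pA (2 * m + 1) m * pB (2 * m + 1) m / 4 ^ m -
        1 / 2 * (pB (2 * m + 1) m ^ 2 / 4 ^ m) * PP (2 * m + 1) m = X1 at *
  generalize ∑ k ∈ range m, wq (2 * m + 1) k ^ 2 / pO (2 * m + 1) (k + 1) ^ 2 = V at *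
  generalize pB (2 * m + 1) m ^ 3 / (4 ^ m) ^ 3 = X3 at *
  generalize pB (2 * m + 1) m ^ 3 / 4 ^ m = X4 at *
  generalize S1 (2 * m + 1) (2 * m) = s at *
  generalize S2 (2 * m + 1) m = t at *
  generalize S3 (2 * m + 1) m = u at *
  generalize S12 (2 * m + 1) m = v at *
  have c4 : Dv p 0 (1 / 2 * (1 / 2) : ℚ) := Dv_mul_int hp h h
  have hV : Dv p 3 ((t + u - v) * (1 / 2 * (1 / 2))) :=
    Dv_mul_int hp (Dv_sub hp (Dv_add hp s2 s3) s12) c4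
  have hX4 : Dv p 0 X4 := by
    have : X4 = (X4 - 1) + 1 := by ring
    rw [this]; exact Dv_add hp (Dv_mono (by norm_num) h4) (Dv_one hp)
  have e : X1 + X4 * V + 1 / 4 * X3 - (5 / 4 - 3 / 16 * s) =
    (X1 - (1 + (t / 2 + u / 4 - v / 4))) + X4 * (V - (t + u - v) / 4) +
    (X4 - 1) * ((t + u - v) * (1 / 2 * (1 / 2))) +
    (1 / 2 * (1 / 2)) * (X3 - (1 + 3 / 4 * (t + u))) +
    3 * (1 / 2 * (1 / 2)) * (t + 7 / 6 * u) - (1 / 2) * (v + 3 / 4 * u) +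
    3 * (1 / 2 * (1 / 2)) * (1 / 2 * (1 / 2)) * (s + t + u) := by ring
  rw [e]
  have c3 : Dv p 0 (3 * (1 / 2 * (1 / 2)) : ℚ) := Dv_mul_int hp (Dv_ofNat hp 3) c4
  refine Dv_add hp (Dv_sub hp (Dv_add hp (Dv_add hp (Dv_add hp (Dv_add hp ?_ ?_) ?_) ?_) ?_) ?_) ?_
  · exact h1
  · exact Dv_int_mul hp hX4 h2
  · exact Dv_mul hp h4 hV
  · exact Dv_int_mul hp c4 h3
  · exact Dv_int_mul hp c3 h5'
  · exact Dv_int_mul hp h h6
  · exact Dv_int_mul hp (Dv_mul_int hp c3 c4) h7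

end

/-- The exact evaluation of the truncated `(42n+5)` series. -/
theorem S42_eval (m : ℕ) :
    ∑ l ∈ range (m + 1), (42 * (l : ℚ) + 5) * (Nat.centralBinom l : ℚ) ^ 3 / 4096 ^ l =
      4 * ((-1) ^ m * ((2 * m + 1 : ℕ) : ℚ)) *
      ((pA (2 * m + 1) m * pB (2 * m + 1) m / 4 ^ m -
        1 / 2 * (pB (2 * m + 1) m ^ 2 / 4 ^ m) * PP (2 * m + 1) m) +
      (pB (2 * m + 1) m ^ 3 / 4 ^ m) *
        (∑ k ∈ range m, wq (2 * m + 1) k ^ 2 / pO (2 * m + 1) (k + 1) ^ 2) +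
      1 / 4 * (pB (2 * m + 1) m ^ 3 / (4 ^ m) ^ 3)) := by
  have h1 := sumB_diag (m + 1)
  have h2 : ∑ l ∈ range (m + 1), (FB l l + VB (l + 1) l) =
      1 / 4 * ∑ l ∈ range (m + 1), (42 * (l : ℚ) + 5) * (Nat.centralBinom l : ℚ) ^ 3 / 4096 ^ l := by
    rw [mul_sum]
    apply sum_congr rfl
    intro l _
    rw [FB_diag]
    ring
  have h3 : ∑ n ∈ range (m + 1), FB n 0 = ∑ n ∈ range (m + 1), FA n 0 :=
    sum_congr rfl (fun n _ => FB_zero_eq_FA n)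
  have h4 : VB (m + 1) m = (-1) ^ m * ((2 * m + 1 : ℕ) : ℚ) *
      (1 / 4 * (pB (2 * m + 1) m ^ 3 / (4 ^ m) ^ 3)) := by
    rw [VB_m, pO, prod_range_succ, ← pO, L5]
    have hw : wq (2 * m + 1) m = 1 := by
      unfold wq
      push_cast
      exact div_self (by positivity)
    rw [hw]
    have hf : (4 : ℚ) ^ m ≠ 0 := by positivity
    field_simp
    norm_num
  rw [h2, h3, S6_eval, sum_range_succ (fun k => VB (m + 1) k), h4] at h1
  have h5 : ∑ k ∈ range m, VB (m + 1) k = (-1) ^ m * ((2 * m + 1 : ℕ) : ℚ) *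
      ((pB (2 * m + 1) m ^ 3 / 4 ^ m) *
        (∑ k ∈ range m, wq (2 * m + 1) k ^ 2 / pO (2 * m + 1) (k + 1) ^ 2)) := by
    rw [mul_sum, mul_sum]
    apply sum_congr rfl
    intro k _
    rw [VB_m]
    ring
  rw [h5] at h1
  linear_combination 4 * h1

/-! ### Prime powers -/

theorem Dv_pow_div {p : ℕ} (hp : p.Prime) {a x : ℕ} (hx : 0 < x) (hxa : x < p ^ a) :
    Dv p 1 ((p : ℚ) ^ a / x) := by
  obtain ⟨v, y, hy, hxy⟩ := Nat.exists_eq_pow_mul_and_not_dvd (n := x) hx.ne' p hp.ne_one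
  have hv : v < a := by
    by_contra hv
    have h1 : p ^ a ≤ p ^ v := Nat.pow_le_pow_right hp.pos (by omega)
    have h2 : p ^ v ≤ x := by
      rw [hxy]
      exact Nat.le_mul_of_pos_right _ (Nat.pos_of_ne_zero (fun h => hy (h ▸ dvd_zero _)))
    omega
  have hy0 : (y : ℚ) ≠ 0 := by
    intro h
    have : y = 0 := by exact_mod_cast h
    exact hy (this ▸ dvd_zero _)
  have hp0 := p_ne hp
  have e : (p : ℚ) ^ a / x = (p : ℚ) ^ (a - v) * (y : ℚ)⁻¹ := by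
    have e1 : (p : ℚ) ^ a = (p : ℚ) ^ v * (p : ℚ) ^ (a - v) := by
      rw [← pow_add]; congr 1; omega
    rw [e1, hxy]
    push_cast
    field_simp
  rw [e]
  exact Dv_mono (by omega) (Dv_mul_int hp (Dv_ppow hp (a - v)) (Dv_inv_nat hp hy))

theorem Hz_of_pow {p : ℕ} (hp : p.Prime) {a m : ℕ} (hm : p ^ a = 2 * m + 1) :
    ∀ l, l < 2 * m → Dv p 1 (zq (2 * m + 1) l) := by
  intro l hl
  have h := Dv_pow_div hp (a := a) (x := l + 1) (by omega) (by omega)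
  unfold zq
  rw [← hm]
  push_cast at h ⊢
  exact h

theorem sum_blocks (f : ℕ → ℚ) (n r : ℕ) :
    ∑ l ∈ range (n * (r + 1)), f l =
      ∑ i ∈ range n, (∑ j ∈ range r, f (i * (r + 1) + j) + f (i * (r + 1) + r)) := by
  induction n with
  | zero => simp
  | succ n ih =>
    rw [sum_range_succ, ← ih, add_mul, one_mul, sum_range_add, sum_range_succ _ r]

/-- passing from `p^(a+1)` to `p^a`. -/
theorem S1_pow_succ {p : ℕ} (hp : p.Prime) (h5 : 5 ≤ p) {a : ℕ} (ha : 1 ≤ a) :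
    Dv p 4 (S1 (p ^ (a + 1)) (p ^ (a + 1)) - S1 (p ^ a) (p ^ a)) := by
  obtain ⟨r, hr⟩ : ∃ r, p = r + 1 := ⟨p - 1, by omega⟩
  have h := Dv_half hp h5
  have hp0 := p_ne hp
  set n := p ^ a with hn
  have hq : p ^ (a + 1) = n * (r + 1) := by rw [pow_succ, ← hn, ← hr]
  have e1 : S1 (p ^ (a + 1)) (p ^ (a + 1)) = ∑ i ∈ range n, ∑ j ∈ range r,
      zq (p ^ (a + 1)) (i * (r + 1) + j) + S1 n n := by
    rw [S1, S1, hq, sum_blocks, sum_add_distrib]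
    congr 1
    apply sum_congr rfl
    intro i _
    unfold zq
    have h1 : ((i : ℚ) + 1) ≠ 0 := by positivity
    have h2 : ((r : ℚ) + 1) ≠ 0 := by positivity
    push_cast
    field_simp
    ring
  rw [e1, add_sub_cancel_right]
  -- the double sum
  have e2 : ∑ i ∈ range n, ∑ j ∈ range r, zq (p ^ (a + 1)) (i * (r + 1) + j) =
      ∑ i ∈ range n, ∑ j ∈ range r, (1 / 2) * (zq (p ^ (a + 1)) (i * (r + 1) + j) *
        zq (p ^ (a + 1)) ((n - 1 - i) * (r + 1) + (r - 1 - j))) := by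
    have e3 : ∑ i ∈ range n, ∑ j ∈ range r, zq (p ^ (a + 1)) (i * (r + 1) + j) =
        ∑ i ∈ range n, ∑ j ∈ range r,
          zq (p ^ (a + 1)) ((n - 1 - i) * (r + 1) + (r - 1 - j)) := by
      rw [← sum_range_reflect]
      apply sum_congr rfl
      intro i _
      rw [← sum_range_reflect]
    have e4 : ∑ i ∈ range n, ∑ j ∈ range r, zq (p ^ (a + 1)) (i * (r + 1) + j) =
        1 / 2 * (∑ i ∈ range n, ∑ j ∈ range r, zq (p ^ (a + 1)) (i * (r + 1) + j) +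
        ∑ i ∈ range n, ∑ j ∈ range r,
          zq (p ^ (a + 1)) ((n - 1 - i) * (r + 1) + (r - 1 - j))) := by
      rw [← e3]; ring
    rw [e4, ← sum_add_distrib, mul_sum]
    apply sum_congr rfl
    intro i hi
    rw [← sum_add_distrib, mul_sum]
    apply sum_congr rfl
    intro j hj
    have hi := mem_range.mp hi
    have hj := mem_range.mp hj
    congr 1
    unfold zq
    rw [hq]
    obtain ⟨i', hi'⟩ : ∃ i', n = i + 1 + i' := ⟨n - 1 - i, by omega⟩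
    obtain ⟨j', hj'⟩ : ∃ j', r = j + 1 + j' := ⟨r - 1 - j, by omega⟩
    have e5 : n - 1 - i = i' := by omega
    have e6 : r - 1 - j = j' := by omega
    rw [e5, e6, hi', hj']
    have h1 : (((i * (j + 1 + j' + 1) + j : ℕ) : ℚ) + 1) ≠ 0 := by positivity
    have h2 : (((i' * (j + 1 + j' + 1) + j' : ℕ) : ℚ) + 1) ≠ 0 := by positivity
    push_cast at h1 h2 ⊢
    field_simp
    ring
  rw [e2]
  apply Dv_sum hp
  intro i hi
  apply Dv_sum hp
  intro j hj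
  have hi := mem_range.mp hi
  have hj := mem_range.mp hj
  have key : ∀ i j : ℕ, j < r → Dv p 2 (zq (p ^ (a + 1)) (i * (r + 1) + j)) := by
    intro i j hj
    have hnd : ¬ (p ∣ (i * (r + 1) + j + 1)) := by
      intro hd
      rw [← hr] at hd
      have h1 : p ∣ (j + 1) := by
        rw [add_assoc] at hd
        exact (Nat.dvd_add_right (Dvd.intro_left i rfl)).mp hd
      have := Nat.le_of_dvd (by omega) h1
      omega
    unfold zq
    have e : ((p ^ (a + 1) : ℕ) : ℚ) / (((i * (r + 1) + j : ℕ) : ℚ) + 1) =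
      (p : ℚ) ^ (a + 1) * (((i * (r + 1) + j + 1 : ℕ) : ℚ))⁻¹ := by
      push_cast
      rw [div_eq_mul_inv]
    rw [e]
    exact Dv_mono (by omega) (Dv_mul_int hp (Dv_ppow hp (a + 1)) (Dv_inv_nat hp hnd))
  exact Dv_int_mul hp h (Dv_mul hp (key i j hj) (key (n - 1 - i) (r - 1 - j) (by omega)))

theorem S1_pow {p : ℕ} (hp : p.Prime) (h5 : 5 ≤ p) {a : ℕ} (ha : 1 ≤ a) :
    Dv p 4 (S1 (p ^ a) (p ^ a) - S1 p p) := by
  induction a, ha using Nat.le_induction with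
  | base => rw [pow_one, sub_self]; exact Dv_zero_mem hp 4
  | succ a ha ih =>
    have h1 := S1_pow_succ hp h5 ha
    have e : S1 (p ^ (a + 1)) (p ^ (a + 1)) - S1 p p =
      (S1 (p ^ (a + 1)) (p ^ (a + 1)) - S1 (p ^ a) (p ^ a)) + (S1 (p ^ a) (p ^ a) - S1 p p) := by
      ring
    rw [e]
    exact Dv_add hp h1 ih

theorem S1_pow' {p : ℕ} (hp : p.Prime) (h5 : 5 ≤ p) {a : ℕ} (ha : 1 ≤ a) :
    Dv p 4 (S1 (p ^ a) (p ^ a - 1) - S1 p (p - 1)) := by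
  have h1 := S1_pow hp h5 ha
  have key : ∀ q : ℕ, 0 < q → S1 q q = S1 q (q - 1) + 1 := by
    intro q hq
    obtain ⟨n, rfl⟩ : ∃ n, q = n + 1 := ⟨q - 1, by omega⟩
    rw [S1_succ, Nat.add_sub_cancel]
    congr 1
    unfold zq
    push_cast
    exact div_self (by positivity)
  rw [key _ (pow_pos hp.pos a), key p hp.pos] at h1
  have e : S1 (p ^ a) (p ^ a - 1) - S1 p (p - 1) =
    S1 (p ^ a) (p ^ a - 1) + 1 - (S1 p (p - 1) + 1) := by ring
  rw [e]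
  exact h1

end Pool.Agent.Helper91
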