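import Pool.Agent.Helper91.Main2

/-!
The congruence modulo `p^4` for the truncated `(42k+5)` series at a prime power `p^a`.
-/

set_option autoImplicit false

namespace Pool.Agent.Helper91

open Finset

theorem jacobi_neg_one (m : ℕ) : jacobiSym (-1) (2 * m + 1) = (-1) ^ m := by
  rw [jacobiSym.at_neg_one (by exact ⟨m, rfl⟩)]
  rw [ZMod.χ₄_eq_neg_one_pow (by omega)]
  congr 1
  omega

theorem den_of_Dv {p k : ℕ} (hp : p.Prime) {x : ℚ} (h : Dv p k x) :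
    ¬ p ∣ (x / (p : ℚ) ^ k).den := by
  obtain ⟨z, h1, h2⟩ := (Dv_iff_exists_den hp).mp h
  have hp0 := p_ne hp
  rw [h1, mul_div_cancel_left₀ _ (pow_ne_zero k hp0)]
  exact h2

theorem S1_harm (p : ℕ) : S1 p (p - 1) = p * ∑ j ∈ Icc 1 (p - 1), 1 / (j : ℚ) := by
  rw [S1, mul_sum, range_eq_Ico, sum_Ico_eq_sum_range]
  rw [show Icc 1 (p - 1) = Ico 1 (p - 1 + 1) from by ext; simp, sum_Ico_eq_sum_range]
  simp only [Nat.sub_zero, Nat.add_sub_cancel]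
  apply sum_congr rfl
  intro l _
  unfold zq
  push_cast
  rw [zero_add, add_comm (1 : ℚ), mul_one_div]

theorem Q1_main (p : ℕ) (hp : p.Prime) (h3 : 3 < p) (a : ℕ) (ha : 1 ≤ a) :
    Dv p 4 ((∑ k ∈ range ((p ^ a - 1) / 2 + 1),
        (42 * (k : ℚ) + 5) * ((2 * k).choose k : ℚ) ^ 3 / 4096 ^ k) / (p : ℚ) ^ a -
      (jacobiSym (-1) (p ^ a) : ℚ) *
        (5 - 3 * (p : ℚ) / 4 * ∑ j ∈ Icc 1 (p - 1), 1 / (j : ℚ))) := by
  have h5 : 5 ≤ p := by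
    rcases Nat.lt_or_ge p 5 with h | h
    · have : p = 4 := by omega
      subst this
      exact absurd hp (by norm_num)
    · exact h
  have hodd : Odd (p ^ a) := (hp.odd_of_ne_two (by omega)).pow
  obtain ⟨m, hm⟩ := hodd
  have hhalf : (p ^ a - 1) / 2 = m := by omega
  have hq : (p : ℚ) ^ a = ((2 * m + 1 : ℕ) : ℚ) := by rw [← hm]; push_cast; rfl
  have Hz := Hz_of_pow hp hm
  have h1 := S42_cong hp h5 Hz
  have h2 := S1_pow' hp h5 ha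
  rw [hm, Nat.add_sub_cancel] at h2
  rw [hhalf, hq, hm, jacobi_neg_one]
  have e0 : ∑ k ∈ range (m + 1), (42 * (k : ℚ) + 5) * ((2 * k).choose k : ℚ) ^ 3 / 4096 ^ k =
      ∑ l ∈ range (m + 1), (42 * (l : ℚ) + 5) * (Nat.centralBinom l : ℚ) ^ 3 / 4096 ^ l := by
    apply sum_congr rfl
    intro k _
    rw [Nat.centralBinom_eq_two_mul_choose]
  rw [e0, S42_eval]
  have hq0 : ((2 * m + 1 : ℕ) : ℚ) ≠ 0 := by positivity
  have e1 := S1_harm p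
  have h := Dv_half hp h5
  generalize (pA (2 * m + 1) m * pB (2 * m + 1) m / 4 ^ m -
        1 / 2 * (pB (2 * m + 1) m ^ 2 / 4 ^ m) * PP (2 * m + 1) m) +
      (pB (2 * m + 1) m ^ 3 / 4 ^ m) *
        (∑ k ∈ range m, wq (2 * m + 1) k ^ 2 / pO (2 * m + 1) (k + 1) ^ 2) +
      1 / 4 * (pB (2 * m + 1) m ^ 3 / (4 ^ m) ^ 3) = X at *
  have e2 : 4 * ((-1 : ℚ) ^ m * ((2 * m + 1 : ℕ) : ℚ)) * X / ((2 * m + 1 : ℕ) : ℚ) -
      (((-1) ^ m : ℤ) : ℚ) * (5 - 3 * (p : ℚ) / 4 * ∑ j ∈ Icc 1 (p - 1), 1 / (j : ℚ)) =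
      (4 * (-1) ^ m) * (X - (5 / 4 - 3 / 16 * S1 (2 * m + 1) (2 * m))) -
      ((-1) ^ m * 3 * (1 / 2 * (1 / 2))) *
        (S1 (2 * m + 1) (2 * m) - p * ∑ j ∈ Icc 1 (p - 1), 1 / (j : ℚ)) := by
    push_cast
    have hq1 : (2 * (m : ℚ) + 1) ≠ 0 := by positivity
    field_simp
    ring
  rw [e2]
  rw [e1] at h2
  have hs : Dv p 0 ((-1 : ℚ) ^ m) := by
    have := Dv_int hp ((-1) ^ m)
    push_cast at this
    exact this
  refine Dv_sub hp (Dv_int_mul hp (Dv_mul_int hp (Dv_ofNat hp 4) hs) h1)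
    (Dv_int_mul hp (Dv_mul_int hp (Dv_mul_int hp hs (Dv_ofNat hp 3)) (Dv_mul_int hp h h)) h2)

end Pool.Agent.Helper91
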