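import Pool.Agent.Helper91.Second
import Pool.Agent.Helper91.Q1

/-!
The three congruences of the second question, in the final form.
-/

set_option autoImplicit false

namespace Pool.Agent.Helper91

open Finset

section
variable (p : ℕ) (hp : p.Prime) (h3 : 3 < p)
include hp h3

theorem prime_shape : 5 ≤ p ∧ ∃ m, p = 2 * m + 1 := by
  refine ⟨?_, ?_⟩
  · rcases Nat.lt_or_ge p 5 with h | h
    · have : p = 4 := by omega
      subst this
      exact absurd hp (by norm_num)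
    · exact h
  · obtain ⟨m, hm⟩ := hp.odd_of_ne_two (by omega)
    exact ⟨m, hm⟩

theorem Q2_first : Dv p 4 ((∑ k ∈ range p,
      (6 * (k : ℚ) + 1) * ((2 * k).choose k : ℚ) ^ 3 / 256 ^ k) -
    ((jacobiSym (-1) p : ℚ) * p - eulerNum (p - 3) * (p : ℚ) ^ 3)) := by
  obtain ⟨h5, m, hm⟩ := prime_shape p hp h3
  have h1 := first_cong hp h5 hm
  have e : ∑ k ∈ range p, (6 * (k : ℚ) + 1) * ((2 * k).choose k : ℚ) ^ 3 / 256 ^ k =
      ∑ n ∈ range p, FA n 0 := by
    apply sum_congr rfl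
    intro k _
    rw [FA_eq_binom, Nat.centralBinom_eq_two_mul_choose]
  have hj : (jacobiSym (-1) p : ℚ) = (-1) ^ m := by
    rw [hm, jacobi_neg_one]; push_cast; rfl
  rw [e, hj]
  exact h1

theorem Q2_second : Dv p 4 ((∑ k ∈ range ((p - 1) / 2 + 1),
      (6 * (k : ℚ) + 1) * ((2 * k).choose k : ℚ) ^ 3 / (-512) ^ k) -
    ((jacobiSym (-2) p : ℚ) * p + (jacobiSym 2 p : ℚ) * (eulerNum (p - 3) / 4) * (p : ℚ) ^ 3)) := by
  obtain ⟨h5, m, hm⟩ := prime_shape p hp h3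
  have h1 := second_cong hp h5 hm
  have hhalf : (p - 1) / 2 = m := by omega
  have e : ∑ k ∈ range ((p - 1) / 2 + 1),
      (6 * (k : ℚ) + 1) * ((2 * k).choose k : ℚ) ^ 3 / (-512) ^ k =
      ∑ n ∈ range (m + 1), FE n 0 := by
    rw [hhalf]
    apply sum_congr rfl
    intro k _
    rw [FE_eq_binom, Nat.centralBinom_eq_two_mul_choose]
  have hj : (jacobiSym (-2) p : ℚ) = (-1) ^ m * (jacobiSym 2 p : ℚ) := by
    have e2 : (-2 : ℤ) = (-1) * 2 := by norm_num
    have e3 : jacobiSym (-1) p = (-1) ^ m := by rw [hm, jacobi_neg_one]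
    rw [e2, jacobiSym.mul_left, e3]
    push_cast
    rfl
  rw [e, hj]
  exact h1

theorem Q2_third : Dv p 4 ((∑ k ∈ range p,
      (42 * (k : ℚ) + 5) * ((2 * k).choose k : ℚ) ^ 3 / 4096 ^ k) -
    (5 * (jacobiSym (-1) p : ℚ) * p - eulerNum (p - 3) * (p : ℚ) ^ 3)) := by
  obtain ⟨h5, m, hm⟩ := prime_shape p hp h3
  have h1 := third_cong hp h5 hm
  have e : ∑ k ∈ range p, (42 * (k : ℚ) + 5) * ((2 * k).choose k : ℚ) ^ 3 / 4096 ^ k =
      ∑ l ∈ range p, (42 * (l : ℚ) + 5) * (Nat.centralBinom l : ℚ) ^ 3 / 4096 ^ l := by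
    apply sum_congr rfl
    intro k _
    rw [Nat.centralBinom_eq_two_mul_choose]
  have hj : (jacobiSym (-1) p : ℚ) = (-1) ^ m := by
    rw [hm, jacobi_neg_one]; push_cast; rfl
  rw [e, hj]
  exact h1

end

end Pool.Agent.Helper91
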