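import Pool.Agent.Helper91.Third

/-!
The series with ratio `-512`.
-/

set_option autoImplicit false

namespace Pool.Agent.Helper91

open Finset

/-! ### Alternating binomial sums -/

/-- `∑_{1 ≤ j ≤ n} (-1)^j binom(n,j) (q/j) f(j-1)`. -/
def Mb (q n : ℕ) (f : ℕ → ℚ) : ℚ :=
  ∑ j ∈ range n, (-1) ^ (j + 1) * (Nat.choose n (j + 1) : ℚ) * zq q j * f j

/-- `∑_{1 ≤ j ≤ n} (-1)^j binom(n,j) f(j-1)`. -/
def Wb (n : ℕ) (f : ℕ → ℚ) : ℚ :=
  ∑ j ∈ range n, (-1) ^ (j + 1) * (Nat.choose n (j + 1) : ℚ) * f j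

theorem choose_zq (q n j : ℕ) :
    (Nat.choose n j : ℚ) * zq q j = zq q n * (Nat.choose (n + 1) (j + 1) : ℚ) := by
  have h := Nat.add_one_mul_choose_eq n j
  have h' : ((n : ℚ) + 1) * (Nat.choose n j : ℚ) = (Nat.choose (n + 1) (j + 1) : ℚ) * (j + 1) := by
    exact_mod_cast h
  unfold zq
  have h1 : ((j : ℚ) + 1) ≠ 0 := by positivity
  have h2 : ((n : ℚ) + 1) ≠ 0 := by positivity
  field_simp
  linear_combination (q : ℚ) * h'

theorem Mb_step (q n : ℕ) (f : ℕ → ℚ) : Mb q (n + 1) f = Mb q n f + zq q n * Wb (n + 1) f := by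
  have h1 : Mb q n f = ∑ j ∈ range (n + 1),
      (-1) ^ (j + 1) * (Nat.choose n (j + 1) : ℚ) * zq q j * f j := by
    rw [sum_range_succ, ← Mb, Nat.choose_succ_self]; simp
  rw [h1, Mb, Wb, mul_sum, ← sum_add_distrib]
  apply sum_congr rfl
  intro j _
  have h := choose_zq q n j
  rw [Nat.choose_succ_succ n j] at h ⊢
  push_cast at h ⊢
  linear_combination (-1 : ℚ) ^ (j + 1) * f j * h

theorem Wb_step (n : ℕ) (f : ℕ → ℚ) :
    Wb (n + 1) f = -f 0 - ∑ j ∈ range n, (-1) ^ (j + 1) * (Nat.choose n (j + 1) : ℚ) *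
      (f (j + 1) - f j) := by
  have h1 : ∑ j ∈ range n, (-1) ^ (j + 1) * (Nat.choose n (j + 1) : ℚ) * f j =
      ∑ j ∈ range (n + 1), (-1) ^ (j + 1) * (Nat.choose n (j + 1) : ℚ) * f j := by
    rw [sum_range_succ, Nat.choose_succ_self]; simp
  have h2 : Wb (n + 1) f = ∑ j ∈ range (n + 1), (-1) ^ (j + 1) * (Nat.choose n j : ℚ) * f j +
      ∑ j ∈ range (n + 1), (-1) ^ (j + 1) * (Nat.choose n (j + 1) : ℚ) * f j := by
    rw [Wb, ← sum_add_distrib]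
    apply sum_congr rfl
    intro j _
    rw [Nat.choose_succ_succ n j]
    push_cast
    ring
  have h3 : ∑ j ∈ range n, (-1) ^ (j + 1) * (Nat.choose n (j + 1) : ℚ) * (f (j + 1) - f j) =
      ∑ j ∈ range n, (-1) ^ (j + 1) * (Nat.choose n (j + 1) : ℚ) * f (j + 1) -
      ∑ j ∈ range n, (-1) ^ (j + 1) * (Nat.choose n (j + 1) : ℚ) * f j := by
    rw [← sum_sub_distrib]
    apply sum_congr rfl
    intro j _
    ring
  rw [h2, h3, ← h1, sum_range_succ']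
  have h4 : ∑ k ∈ range n, (-1) ^ (k + 1 + 1) * (Nat.choose n (k + 1) : ℚ) * f (k + 1) =
      -∑ k ∈ range n, (-1) ^ (k + 1) * (Nat.choose n (k + 1) : ℚ) * f (k + 1) := by
    rw [← sum_neg_distrib]
    apply sum_congr rfl
    intro k _
    rw [pow_succ _ (k + 1)]; ring
  rw [h4]
  simp
  ring

theorem Wb_one (n : ℕ) : Wb (n + 1) (fun _ => 1) = -1 := by
  rw [Wb_step]; simp

theorem Mb_one (q n : ℕ) : Mb q n (fun _ => 1) = -S1 q n := by
  induction n with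
  | zero => simp [Mb, S1]
  | succ n ih => rw [Mb_step, ih, Wb_one, S1_succ]; ring

theorem Wb_S1 (q n : ℕ) : Wb (n + 1) (S1 q) = S1 q n := by
  rw [Wb_step]
  have h1 : ∑ j ∈ range n, (-1) ^ (j + 1) * (Nat.choose n (j + 1) : ℚ) *
      (S1 q (j + 1) - S1 q j) = Mb q n (fun _ => 1) := by
    rw [Mb]
    apply sum_congr rfl
    intro j _
    rw [S1_succ]; ring
  rw [h1, Mb_one]
  simp [S1]

theorem Mb_S1 (q n : ℕ) : Mb q n (S1 q) = (S1 q n ^ 2 - S2 q n) / 2 := by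
  induction n with
  | zero => simp [Mb, S1, S2]
  | succ n ih => rw [Mb_step, ih, Wb_S1, S1_succ, S2_succ]; ring

/-- auxiliary sum. -/
theorem Nb_eval (q n : ℕ) : ∑ j ∈ range n, (-1) ^ (j + 1) * (Nat.choose n (j + 1) : ℚ) *
    zq q (n - 1 - j) = zq q n * (-1 + (-1) ^ n) := by
  have h1 : ∀ j ∈ range n, (-1) ^ (j + 1) * (Nat.choose n (j + 1) : ℚ) * zq q (n - 1 - j) =
      zq q n * ((-1) ^ (j + 1) * (Nat.choose (n + 1) (j + 1) : ℚ) * 1) := by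
    intro j hj
    have hj := mem_range.mp hj
    obtain ⟨d, hd⟩ : ∃ d, n = j + 1 + d := ⟨n - (j + 1), by omega⟩
    have e : n - 1 - j = d := by omega
    have h := Nat.choose_mul_succ_eq n (j + 1)
    have e2 : n + 1 - (j + 1) = d + 1 := by omega
    rw [e2] at h
    have h' : (Nat.choose n (j + 1) : ℚ) * (n + 1) = (Nat.choose (n + 1) (j + 1) : ℚ) * (d + 1) := by
      exact_mod_cast h
    rw [e]
    unfold zq
    have h1 : ((d : ℚ) + 1) ≠ 0 := by positivity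
    have h2 : ((n : ℚ) + 1) ≠ 0 := by positivity
    field_simp
    linear_combination (q : ℚ) * h'
  rw [sum_congr rfl h1, ← mul_sum]
  congr 1
  have h2 := Wb_one n
  rw [Wb, sum_range_succ, Nat.choose_self, pow_succ _ n] at h2
  push_cast at h2
  linear_combination h2

theorem Cb_eval (q n : ℕ) : Mb q n (fun j => S1 q (n - 1 - j)) =
    -S1 q n ^ 2 - S2 q n + 2 * ∑ k ∈ range n, (-1) ^ k * zq q k ^ 2 := by
  induction n with
  | zero => simp [Mb, S1, S2]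
  | succ n ih =>
    rw [Mb_step]
    have h1 : Mb q n (fun j => S1 q (n + 1 - 1 - j)) = Mb q n (fun j => S1 q (n - 1 - j)) +
        zq q n * (Mb q n (fun _ => 1) + zq q n * (-1 + (-1) ^ n)) := by
      rw [← Nb_eval, Mb, Mb, Mb, ← sum_add_distrib, mul_sum, ← sum_add_distrib]
      apply sum_congr rfl
      intro j hj
      have hj := mem_range.mp hj
      have e : n + 1 - 1 - j = n - j := by omega
      rw [e, S1_sub q n j hj]
      linear_combination ((-1 : ℚ) ^ (j + 1) * (Nat.choose n (j + 1) : ℚ)) * zq_mul q n j hj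
    have h2 : Wb (n + 1) (fun j => S1 q (n + 1 - 1 - j)) = -S1 q n + zq q n * (-1 + (-1) ^ n) := by
      rw [Wb_step, ← Nb_eval]
      have e0 : n + 1 - 1 - 0 = n := by omega
      rw [e0, sub_eq_add_neg, ← sum_neg_distrib]
      congr 1
      apply sum_congr rfl
      intro j hj
      have hj := mem_range.mp hj
      have e : n + 1 - 1 - j = n - j := by omega
      have e' : n + 1 - 1 - (j + 1) = n - 1 - j := by omega
      simp only [e, e']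
      rw [S1_sub q n j hj]
      ring
    rw [h1, h2, ih, Mb_one, S1_succ, S2_succ, sum_range_succ]
    ring

/-! ### Exact evaluation -/

theorem hz_neg (m : ℕ) : hz (-(m : ℤ)) * hf m = (-1) ^ m := by
  induction m with
  | zero =>
    have : (-((0 : ℕ) : ℤ)) = ((0 : ℕ) : ℤ) := by simp
    rw [this, hz_nat, hf_zero]; simp
  | succ m ih =>
    have h1 := hz_add_one (-((m + 1 : ℕ) : ℤ))
    have e : -((m + 1 : ℕ) : ℤ) + 1 = -(m : ℤ) := by push_cast; ring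
    rw [e] at h1
    rw [h1] at ih
    rw [hf_succ, pow_succ, ← ih]
    push_cast
    ring

theorem hz_sub (m i : ℕ) : hz ((i : ℤ) - m) * hf m =
    (-1) ^ m * (Nat.factorial i : ℚ) * pB (2 * m + 1) i := by
  induction i with
  | zero =>
    have e : ((0 : ℕ) : ℤ) - m = -(m : ℤ) := by push_cast; ring
    rw [e, hz_neg]
    simp [pB]
  | succ i ih =>
    have h1 := hz_add_one ((i : ℤ) - m)
    have e : (i : ℤ) - m + 1 = ((i + 1 : ℕ) : ℤ) - m := by push_cast; ring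
    rw [e] at h1
    rw [h1, mul_assoc, ih, pB, pB, prod_range_succ, Nat.factorial_succ]
    have h2 : ((i : ℚ) + 1) ≠ 0 := by positivity
    unfold zq
    push_cast
    field_simp
    ring

theorem FE_mm (m : ℕ) : FE m m = ((2 * m + 1 : ℕ) : ℚ) * (hf m / ((Nat.factorial m : ℚ) * 2 ^ m)) := by
  unfold FE
  have e1 : (m : ℤ) - 2 * m = -(m : ℤ) := by ring
  have e2 : (m : ℤ) - m = ((0 : ℕ) : ℤ) := by push_cast; ring
  rw [e1, e2, rf_nat, rf_nat, hz_nat]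
  have h1 := hz_neg m
  have h2 := hf_ne m
  have h3 : hz (-(m : ℤ)) = (-1) ^ m / hf m := by rw [eq_div_iff h2]; exact h1
  rw [h3]
  have h4 := fact_ne m
  have h5 := neg_one_sq m
  have h6 : (8 : ℚ) ^ m = 4 ^ m * 2 ^ m := by rw [← mul_pow]; norm_num
  have h7 : (4 : ℚ) ^ m ≠ 0 := by positivity
  have h8 : (2 : ℚ) ^ m ≠ 0 := by positivity
  rw [h6, Nat.factorial_zero]
  push_cast
  field_simp
  linear_combination (2 * (m : ℚ) + 1) * h5

theorem GE_m (m k d : ℕ) (h : m = k + 1 + d) :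
    GE (m + 1) (k + 1) = ((2 * m + 1 : ℕ) : ℚ) * (hf m / ((Nat.factorial m : ℚ) * 2 ^ m)) *
      (-(1 / 4 * (zq (2 * m + 1) d * (hf (d + 1) / (Nat.factorial (d + 1) : ℚ)) *
        pB (2 * m + 1) (2 * d + 1)))) := by
  unfold GE
  have e1 : ((m + 1 : ℕ) : ℤ) - 2 * ((k + 1 : ℕ) : ℤ) = ((2 * d + 1 : ℕ) : ℤ) - m := by
    rw [h]; push_cast; ring
  have e2 : ((m + 1 : ℕ) : ℤ) - ((k + 1 : ℕ) : ℤ) = ((d + 1 : ℕ) : ℤ) := by
    rw [h]; push_cast; ring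
  have e3 : ((m + 1 : ℕ) : ℤ) - 1 = (m : ℤ) := by push_cast; ring
  rw [e1, e2, e3, rf_nat, rf_nat, hz_nat]
  have h1 := hz_sub m (2 * d + 1)
  have h2 := hf_ne m
  have h3 : hz (((2 * d + 1 : ℕ) : ℤ) - m) =
      ((-1) ^ m * (Nat.factorial (2 * d + 1) : ℚ) * pB (2 * m + 1) (2 * d + 1)) / hf m := by
    rw [eq_div_iff h2]; exact h1
  rw [h3]
  have h0 := L3 m 0
  rw [add_zero] at h0
  have g0 : hf (m + 1) = hf m * (((2 * m + 1 : ℕ) : ℚ) / 2) := by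
    rw [h0]; simp [pA]
  rw [g0]
  -- the double factorial
  have h4 := hf_mul_four_pow (d + 1)
  have h5 : (Nat.centralBinom (d + 1) : ℚ) * ((Nat.factorial (d + 1) : ℕ) *
      (Nat.factorial (d + 1) : ℕ)) = (2 * d + 2) * (Nat.factorial (2 * d + 1) : ℕ) := by
    have := Nat.choose_mul_factorial_mul_factorial (n := 2 * (d + 1)) (k := d + 1) (by omega)
    have e : 2 * (d + 1) - (d + 1) = d + 1 := by omega
    rw [e] at this
    have e' : 2 * (d + 1) = 2 * d + 1 + 1 := by ring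
    unfold Nat.centralBinom
    rw [e'] at this ⊢
    rw [Nat.factorial_succ (2 * d + 1), mul_assoc] at this
    have h' : (((2 * d + 1 + 1).choose (d + 1) : ℕ) : ℚ) * ((Nat.factorial (d + 1) : ℕ) *
      (Nat.factorial (d + 1) : ℕ)) = ((2 * d + 1 + 1 : ℕ) : ℚ) * (Nat.factorial (2 * d + 1) : ℕ) := by
      exact_mod_cast this
    rw [h']
    push_cast
    ring
  have h6 : hf (d + 1) * (4 ^ (d + 1) * (Nat.factorial (d + 1) : ℚ)) =
      (2 * d + 2) * (Nat.factorial (2 * d + 1) : ℕ) := by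
    linear_combination h5 + (Nat.factorial (d + 1) : ℚ) * h4
  have f1 := fact_ne m
  have f2 := fact_ne (d + 1)
  have f3 : (4 : ℚ) ^ (d + 1) ≠ 0 := by positivity
  have f4 : (2 * (d : ℚ) + 2) ≠ 0 := by positivity
  have h7 : hf (d + 1) = (2 * d + 2) * (Nat.factorial (2 * d + 1) : ℕ) /
      (4 ^ (d + 1) * (Nat.factorial (d + 1) : ℚ)) := by
    rw [eq_div_iff (mul_ne_zero f3 f2)]; exact h6
  rw [h7]
  have h8 : (8 : ℚ) ^ (m + 1) = 8 * (4 ^ m * 2 ^ m) := by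
    rw [pow_succ, ← mul_pow]; norm_num [mul_comm]
  have h9 : (4 : ℚ) ^ m = 4 ^ (k + 1) * 4 ^ d := by rw [h, pow_add]
  have f5 : (2 : ℚ) ^ m ≠ 0 := by positivity
  have f6 : (4 : ℚ) ^ (k + 1) ≠ 0 := by positivity
  have f7 : (4 : ℚ) ^ d ≠ 0 := by positivity
  have f8 : ((d : ℚ) + 1) ≠ 0 := by positivity
  have h10 := neg_one_sq m
  rw [h8, h9, pow_succ (-1 : ℚ) m, pow_succ (4 : ℚ) d]
  unfold zq
  generalize (4 : ℚ) ^ (k + 1) = X1 at *
  generalize (4 : ℚ) ^ d = X2 at *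
  generalize (2 : ℚ) ^ m = Y at *
  generalize (-1 : ℚ) ^ m = sm at *
  generalize pB (2 * m + 1) (2 * d + 1) = B at *
  generalize ((2 * m + 1 : ℕ) : ℚ) = q at *
  field_simp
  linear_combination (-(64 * B * q ^ 2)) * h10

/-- The sum in the evaluation of the third series. -/
def YY (m : ℕ) : ℚ :=
  ∑ d ∈ range m, zq (2 * m + 1) d * (hf (d + 1) / (Nat.factorial (d + 1) : ℚ)) *
    pB (2 * m + 1) (2 * d + 1)

theorem E_eval (m : ℕ) : ∑ n ∈ range (m + 1), FE n 0 =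
    ((2 * m + 1 : ℕ) : ℚ) * ((-1) ^ m * (pB (2 * m + 1) m / 2 ^ m)) * (1 - 1 / 4 * YY m) := by
  rw [sumE_main, FE_mm]
  have h1 : ∑ k ∈ range m, GE (m + 1) (k + 1) =
      ∑ k ∈ range m, ((2 * m + 1 : ℕ) : ℚ) * (hf m / ((Nat.factorial m : ℚ) * 2 ^ m)) *
      (-(1 / 4)) * (zq (2 * m + 1) (m - 1 - k) * (hf (m - 1 - k + 1) /
        (Nat.factorial (m - 1 - k + 1) : ℚ)) * pB (2 * m + 1) (2 * (m - 1 - k) + 1)) := by
    apply sum_congr rfl
    intro k hk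
    have hk := mem_range.mp hk
    rw [GE_m m k (m - 1 - k) (by omega)]
    ring
  rw [h1, ← mul_sum, sum_range_reflect (fun d => zq (2 * m + 1) d * (hf (d + 1) /
        (Nat.factorial (d + 1) : ℚ)) * pB (2 * m + 1) (2 * d + 1)) m, ← YY, hf_eq]
  have f1 := fact_ne m
  have f2 : (2 : ℚ) ^ m ≠ 0 := by positivity
  field_simp
  ring

theorem beta_eq (m d : ℕ) (h : d < m) : hf (d + 1) / (Nat.factorial (d + 1) : ℚ) =
    (-1) ^ (d + 1) * (Nat.choose m (d + 1) : ℚ) * (pB (2 * m + 1) m /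
      pB (2 * m + 1) (m - 1 - d)) := by
  have h1 := L1 m (d + 1) (by omega)
  have e : m - (d + 1) = m - 1 - d := by omega
  have h2 := Nat.choose_mul_factorial_mul_factorial (n := m) (k := d + 1) (by omega)
  rw [e] at h1 h2
  have h3 : (Nat.choose m (d + 1) : ℚ) * (Nat.factorial (d + 1)) * (Nat.factorial (m - 1 - d)) =
      Nat.factorial m := by exact_mod_cast h2
  have f1 := fact_ne (d + 1)
  have f2 := fact_ne (m - 1 - d)
  have f3 := pB_ne m (m - 1 - d) (by omega)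
  rw [← h3] at h1
  have h4 : hf (d + 1) * pB (2 * m + 1) (m - 1 - d) = (-1) ^ (d + 1) *
      (Nat.choose m (d + 1) : ℚ) * (Nat.factorial (d + 1)) * pB (2 * m + 1) m := by
    apply mul_left_cancel₀ f2
    linear_combination h1
  field_simp
  linear_combination h4

theorem YY_eq (m : ℕ) : YY m = Mb (2 * m + 1) m (fun d =>
    pB (2 * m + 1) m * pB (2 * m + 1) (2 * d + 1) / pB (2 * m + 1) (m - 1 - d)) := by
  unfold YY Mb
  apply sum_congr rfl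
  intro d hd
  rw [beta_eq m d (mem_range.mp hd)]
  ring

section
variable {p m : ℕ} (hp : p.Prime) (h5 : 5 ≤ p) (hm : p = 2 * m + 1)
include hp h5 hm

theorem pB_exp1 (n : ℕ) (hn : n ≤ 2 * m) :
    Dv p 2 (pB (2 * m + 1) n - (1 - S1 (2 * m + 1) n * (1 / 2))) := by
  have h := Dv_half hp h5
  have Hz := Hzp hp h5 hm
  have h1 := prod_exp1 hp (fun l => -(zq (2 * m + 1) l / 2)) n (fun i hi => by
    have := Dv_mul_int hp (Hz i (by omega)) h
    have e : -(zq (2 * m + 1) i / 2) = -(zq (2 * m + 1) i * (1 / 2)) := by ring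
    rw [e]; exact Dv_neg this)
  have r1 : ∑ i ∈ range n, -(zq (2 * m + 1) i / 2) = -(S1 (2 * m + 1) n * (1 / 2)) := by
    rw [S1, sum_mul, ← sum_neg_distrib]
    apply sum_congr rfl
    intro i _
    ring
  rw [← pB, r1] at h1
  rw [sub_eq_add_neg (1 : ℚ)]
  exact h1

/-- the ratio of products. -/
theorem ratio_cong (d : ℕ) (hd : d < m) :
    Dv p 2 (pB (2 * m + 1) m * pB (2 * m + 1) (2 * d + 1) / pB (2 * m + 1) (m - 1 - d) -
      (1 - 1 / 4 * (S1 (2 * m + 1) m + S1 (2 * m + 1) d - S1 (2 * m + 1) (m - 1 - d)))) := by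
  have h := Dv_half hp h5
  have Hz := Hzp hp h5 hm
  have b1 := pB_exp1 hp h5 hm m (by omega)
  have b2 := pB_exp1 hp h5 hm (2 * d + 1) (by omega)
  have b3 := pB_exp1 hp h5 hm (m - 1 - d) (by omega)
  obtain ⟨u1, u2, u3⟩ := pB_unit hp h5 Hz (m - 1 - d) (by omega)
  obtain ⟨_, _, u4⟩ := pB_unit hp h5 Hz (2 * d + 1) (by omega)
  have s1 := S1_Dv hp Hz m (by omega)
  have s2 := S1_Dv hp Hz (2 * d + 1) (by omega)
  have s3 := S1_Dv hp Hz (m - 1 - d) (by omega)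
  have s4 := S1_Dv hp Hz d (by omega)
  have h1 := S1_double hp h5 Hz (d + 1) (by omega)
  have e1 : 2 * (d + 1) = 2 * d + 1 + 1 := by ring
  have e2 : m - (d + 1) = m - 1 - d := by omega
  rw [e1, e2, S1_succ _ (2 * d + 1), S1_succ _ d, zq_odd] at h1
  generalize pB (2 * m + 1) m = B1 at *
  generalize pB (2 * m + 1) (2 * d + 1) = B2 at *
  generalize pB (2 * m + 1) (m - 1 - d) = B3 at *
  generalize S1 (2 * m + 1) m = a1 at *
  generalize S1 (2 * m + 1) (2 * d + 1) = a2 at *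
  generalize S1 (2 * m + 1) (m - 1 - d) = a3 at *
  generalize S1 (2 * m + 1) d = a4 at *
  have e : B1 * B2 / B3 - (1 - 1 / 4 * (a1 + a4 - a3)) =
    ((B1 - (1 - a1 * (1 / 2))) * B2 + (1 - a1 * (1 / 2)) * (B2 - (1 - a2 * (1 / 2))) -
      (1 - 1 / 2 * (1 / 2) * (a1 + a4 - a3)) * (B3 - (1 - a3 * (1 / 2))) +
      (a1 * a2 * (1 / 2 * (1 / 2)) - 1 / 2 * (1 / 2) * (1 / 2) * ((a1 + a4 - a3) * a3)) -
      (a2 + zq (2 * m + 1) d / 2 - 1 / 2 * (a4 + zq (2 * m + 1) d + a3 - a1)) * (1 / 2)) *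
      B3⁻¹ := by
    field_simp
    ring
  rw [e]
  have c4 : Dv p 0 (1 / 2 * (1 / 2) : ℚ) := Dv_mul_int hp h h
  have t1 : Dv p 1 (a1 + a4 - a3) := Dv_sub hp (Dv_add hp s1 s4) s3
  have t0 := Dv_mono (p := p) (by norm_num : 0 ≤ 1) t1
  have s10 := Dv_mono (p := p) (by norm_num : 0 ≤ 1) s1
  refine Dv_mul_int hp (Dv_sub hp (Dv_add hp (Dv_sub hp (Dv_add hp ?_ ?_) ?_) (Dv_sub hp ?_ ?_)) ?_)
    u2
  · exact Dv_mul_int hp b1 u4
  · exact Dv_int_mul hp (Dv_sub hp (Dv_one hp) (Dv_mul_int hp s10 h)) b2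
  · exact Dv_int_mul hp (Dv_sub hp (Dv_one hp) (Dv_int_mul hp c4 t0)) b3
  · exact Dv_mul_int hp (Dv_mul hp s1 s2) c4
  · exact Dv_int_mul hp (Dv_mul_int hp c4 h) (Dv_mul hp t1 s3)
  · exact Dv_mul_int hp h1 h

theorem YY_cong : Dv p 3 (YY m - (-S1 (2 * m + 1) m - 1 / 8 * S1 (2 * m + 1) m ^ 2 -
    (-1) ^ m * ((p : ℚ) ^ 2 * eulerNum (p - 3)))) := by
  have h := Dv_half hp h5
  have Hz := Hzp hp h5 hm
  have s2 := S2_Dv3 hp h5 Hz
  have h1 : Dv p 3 (YY m - Mb (2 * m + 1) m (fun d => 1 - 1 / 4 * (S1 (2 * m + 1) m +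
      S1 (2 * m + 1) d - S1 (2 * m + 1) (m - 1 - d)))) := by
    rw [YY_eq, Mb, Mb, ← sum_sub_distrib]
    apply sum_Dv hp _ m 3
    intro d hd
    rw [← mul_sub]
    exact Dv_mul hp (k := 1) (l := 2) (Dv_int_mul hp (Dv_mul_int hp (sign_int hp _)
      (Dv_nat hp _)) (Hz d (by omega))) (ratio_cong hp h5 hm d hd)
  have h2 : Mb (2 * m + 1) m (fun d => 1 - 1 / 4 * (S1 (2 * m + 1) m +
      S1 (2 * m + 1) d - S1 (2 * m + 1) (m - 1 - d))) =
      (1 - 1 / 4 * S1 (2 * m + 1) m) * Mb (2 * m + 1) m (fun _ => 1) -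
      1 / 4 * Mb (2 * m + 1) m (S1 (2 * m + 1)) +
      1 / 4 * Mb (2 * m + 1) m (fun j => S1 (2 * m + 1) (m - 1 - j)) := by
    unfold Mb
    rw [mul_sum, mul_sum, mul_sum, ← sum_sub_distrib, ← sum_add_distrib]
    apply sum_congr rfl
    intro d _
    ring
  rw [h2, Mb_one, Mb_S1, Cb_eval] at h1
  have h3 := alt_cong3 hp h5 hm
  generalize ∑ k ∈ range m, (-1 : ℚ) ^ k * zq (2 * m + 1) k ^ 2 = Q at *
  generalize S1 (2 * m + 1) m = a at *
  generalize S2 (2 * m + 1) m = b at *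
  generalize (p : ℚ) ^ 2 * eulerNum (p - 3) = E at *
  have e : YY m - (-a - 1 / 8 * a ^ 2 - (-1) ^ m * E) =
    (YY m - ((1 - 1 / 4 * a) * -a - 1 / 4 * ((a ^ 2 - b) / 2) + 1 / 4 * (-a ^ 2 - b + 2 * Q))) +
    (1 / 2) * (Q + 2 * (-1) ^ m * E) - (1 / 2) ^ 3 * b := by ring
  rw [e]
  exact Dv_sub hp (Dv_add hp h1 (Dv_int_mul hp h h3)) (Dv_int_mul hp (Dv_pow hp h 3) s2)

/-- Euler's criterion for `2`. -/
theorem two_pow_cong : Dv p 1 ((2 : ℚ) ^ m - (jacobiSym 2 p : ℚ)) := by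
  have : Fact p.Prime := ⟨hp⟩
  have h1 := legendreSym.eq_pow p 2
  rw [jacobiSym.legendreSym.to_jacobiSym] at h1
  have e : p / 2 = m := by omega
  rw [e] at h1
  have h2 : ((jacobiSym 2 p : ℤ) : ZMod p) = ((2 ^ m : ℤ) : ZMod p) := by
    rw [h1]; push_cast; rfl
  rw [ZMod.intCast_eq_intCast_iff] at h2
  obtain ⟨c, hc⟩ := h2.dvd
  have hc' : (2 : ℚ) ^ m - (jacobiSym 2 p : ℚ) = p * c := by exact_mod_cast hc
  rw [hc']
  exact Dv_mul_int hp (Dv_p hp) (Dv_int hp c)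

theorem jac_sq : (jacobiSym 2 p : ℚ) * (jacobiSym 2 p : ℚ) = 1 := by
  have h : jacobiSym 2 p ^ 2 = 1 := by
    apply jacobiSym.sq_one
    rw [hm]
    have : (Int.gcd 2 ((2 * m + 1 : ℕ) : ℤ)) = Nat.gcd 2 (2 * m + 1) := rfl
    rw [this]
    simp
  have h' : ((jacobiSym 2 p ^ 2 : ℤ) : ℚ) = 1 := by rw [h]; norm_num
  push_cast at h'
  rw [← sq]; exact h'

/-- the unit `ρ = (2/p) B / 2^m`. -/
theorem rho_cong : Dv p 3 ((jacobiSym 2 p : ℚ) * (pB (2 * m + 1) m / 2 ^ m) -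
    (1 - 1 / 4 * S1 (2 * m + 1) m + 1 / 32 * S1 (2 * m + 1) m ^ 2)) := by
  have h := Dv_half hp h5
  have Hz := Hzp hp h5 hm
  have s1 := S1_Dv hp Hz m (by omega)
  have s2 := S2_Dv3 hp h5 Hz
  have hj := jac_sq hp h5 hm
  have h2 := two_pow_cong hp h5 hm
  have hb1 := pB_one hp h5 hm m (by omega)
  have hB := pB_exp2 hp h5 Hz m (by omega)
  have hC : Dv p 3 (pC (2 * m + 1) m - (1 - S1 (2 * m + 1) m + (S1 (2 * m + 1) m ^ 2 -
      S2 (2 * m + 1) m) / 2)) := by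
    have h1 := prod_exp2 hp h5 (fun l => -(zq (2 * m + 1) l)) m
      (fun i hi => Dv_neg (Hz i (by omega)))
    have r1 : ∑ i ∈ range m, -(zq (2 * m + 1) i) = -(S1 (2 * m + 1) m) := by
      rw [S1, ← sum_neg_distrib]
    have r2 : ∑ i ∈ range m, (-(zq (2 * m + 1) i)) ^ 2 = S2 (2 * m + 1) m := by
      rw [S2]
      apply sum_congr rfl
      intro i _
      ring
    rw [← pC, r1, r2, neg_sq] at h1
    rw [sub_eq_add_neg (1 : ℚ)]
    exact h1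
  have h4 := L4 m
  have h44 : (4 : ℚ) ^ m = 2 ^ m * 2 ^ m := by rw [← mul_pow]; norm_num
  have f2 : (2 : ℚ) ^ m ≠ 0 := by positivity
  have hj0 : Dv p 0 (jacobiSym 2 p : ℚ) := Dv_int hp _
  have hB0 := int_of_one hp hb1
  obtain ⟨v1, v2⟩ := Dv_inv_of_sub_one hp hb1
  have hu2 : Dv p 0 ((2 : ℚ) ^ m)⁻¹ := by
    rw [← inv_pow]
    exact Dv_pow hp (by simpa using h) m
  generalize pB (2 * m + 1) m = B at *
  generalize pC (2 * m + 1) m = C at *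
  generalize S1 (2 * m + 1) m = s at *
  generalize S2 (2 * m + 1) m = t at *
  generalize (jacobiSym 2 p : ℚ) = σ at *
  generalize (4 : ℚ) ^ m = X at *
  generalize (2 : ℚ) ^ m = T at *
  set ρ : ℚ := σ * (B / T) with hρ
  have hsq : ρ ^ 2 * C = B ^ 3 := by
    rw [hρ, ← h4, h44]
    field_simp
    linear_combination hj
  have hC1 : Dv p 1 (C - 1) := by
    have e : C - 1 = (C - (1 - s + (s ^ 2 - t) / 2)) - s + (1 / 2) * (s * s) - (1 / 2) * t := by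
      ring
    rw [e]
    have s0 := Dv_mono (p := p) (by norm_num : 0 ≤ 1) s1
    exact Dv_sub hp (Dv_add hp (Dv_sub hp (Dv_mono (by norm_num) hC) s1)
      (Dv_int_mul hp h (Dv_int_mul hp s0 s1))) (Dv_int_mul hp h (Dv_mono (by norm_num) s2))
  obtain ⟨w1, w2⟩ := Dv_inv_of_sub_one hp hC1
  have s0 := Dv_mono (p := p) (by norm_num : 0 ≤ 1) s1
  have s3 := Dv_pow' hp s1 3
  have c4 : Dv p 0 (1 / 2 * (1 / 2) : ℚ) := Dv_mul_int hp h h
  -- approximate B and C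
  have hB' : Dv p 3 (B - (1 - s / 2 + s ^ 2 / 8)) := by
    have e : B - (1 - s / 2 + s ^ 2 / 8) = (B - (1 - s / 2 + (s ^ 2 - t) / 8)) -
      (1 / 2) ^ 3 * t := by ring
    rw [e]; exact Dv_sub hp hB (Dv_int_mul hp (Dv_pow hp h 3) s2)
  have hC' : Dv p 3 (C - (1 - s + s ^ 2 / 2)) := by
    have e : C - (1 - s + s ^ 2 / 2) = (C - (1 - s + (s ^ 2 - t) / 2)) -
      (1 / 2) * t := by ring
    rw [e]; exact Dv_sub hp hC (Dv_int_mul hp h s2)
  have B00 : Dv p 0 (1 - s / 2 + s ^ 2 / 8) := by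
    have e : 1 - s / 2 + s ^ 2 / 8 = 1 - s * (1 / 2) + s ^ 2 * (1 / 2) ^ 3 := by ring
    rw [e]
    exact Dv_add hp (Dv_sub hp (Dv_one hp) (Dv_mul_int hp s0 h))
      (Dv_mul_int hp (Dv_pow hp s0 2) (Dv_pow hp h 3))
  have R0 : Dv p 0 (1 - 1 / 4 * s + 1 / 32 * s ^ 2) := by
    have e : 1 - 1 / 4 * s + 1 / 32 * s ^ 2 = 1 - s * (1 / 2 * (1 / 2)) + s ^ 2 * (1 / 2) ^ 5 := by
      ring
    rw [e]
    exact Dv_add hp (Dv_sub hp (Dv_one hp) (Dv_mul_int hp s0 c4))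
      (Dv_mul_int hp (Dv_pow hp s0 2) (Dv_pow hp h 5))
  have key : Dv p 3 (ρ ^ 2 - (1 - 1 / 4 * s + 1 / 32 * s ^ 2) ^ 2) := by
    have e : ρ ^ 2 - (1 - 1 / 4 * s + 1 / 32 * s ^ 2) ^ 2 =
      ((B - (1 - s / 2 + s ^ 2 / 8)) * (B ^ 2 + B * (1 - s / 2 + s ^ 2 / 8) +
        (1 - s / 2 + s ^ 2 / 8) ^ 2) -
        (1 - 1 / 4 * s + 1 / 32 * s ^ 2) ^ 2 * (C - (1 - s + s ^ 2 / 2)) +
        s ^ 3 * ((-224 + s * (126 + s * (-30 + s * 3))) * (1 / 2) ^ 11)) * C⁻¹ := by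
      rw [eq_mul_inv_iff_mul_eq₀ w1]
      linear_combination hsq
    rw [e]
    refine Dv_mul_int hp (Dv_add hp (Dv_sub hp ?_ ?_) ?_) w2
    · exact Dv_mul_int hp hB' (Dv_add hp (Dv_add hp (Dv_pow hp hB0 2) (Dv_mul_int hp hB0 B00))
        (Dv_pow hp B00 2))
    · exact Dv_int_mul hp (Dv_pow hp R0 2) hC'
    · have hpoly := Dv_poly hp [-224, 126, -30, 3] s0
      simp only [List.foldr_cons, List.foldr_nil, mul_zero, add_zero] at hpoly
      push_cast at hpoly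
      exact Dv_mul_int hp s3 (Dv_mul_int hp hpoly (Dv_pow hp h 11))
  have hρ1 : Dv p 1 (ρ - 1) := by
    have e : ρ - 1 = (σ * (B - 1) - (T - σ)) * T⁻¹ := by
      rw [hρ]; field_simp; ring
    rw [e]
    exact Dv_mul_int hp (Dv_sub hp (Dv_int_mul hp hj0 hb1) h2) hu2
  have hsum : Dv p 1 ((ρ + (1 - 1 / 4 * s + 1 / 32 * s ^ 2)) - 2) := by
    have e : (ρ + (1 - 1 / 4 * s + 1 / 32 * s ^ 2)) - 2 = (ρ - 1) - s * (1 / 2 * (1 / 2)) +
      s * (s * (1 / 2) ^ 5) := by ring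
    rw [e]
    exact Dv_add hp (Dv_sub hp hρ1 (Dv_mul_int hp s1 c4)) (Dv_mul_int hp s1
      (Dv_mul_int hp s0 (Dv_pow hp h 5)))
  obtain ⟨y1, y2⟩ := Dv_inv_of_sub hp (by simpa using h) two_ne_zero hsum
  have e : ρ - (1 - 1 / 4 * s + 1 / 32 * s ^ 2) = (ρ ^ 2 - (1 - 1 / 4 * s + 1 / 32 * s ^ 2) ^ 2) *
      (ρ + (1 - 1 / 4 * s + 1 / 32 * s ^ 2))⁻¹ := by
    rw [eq_mul_inv_iff_mul_eq₀ y1]; ring
  rw [e]
  exact Dv_mul_int hp key y2

/-- The second congruence of the second question. -/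
theorem second_cong : Dv p 4 (∑ n ∈ range (m + 1), FE n 0 -
    ((-1) ^ m * (jacobiSym 2 p : ℚ) * (p : ℚ) +
      (jacobiSym 2 p : ℚ) * (eulerNum (p - 3) / 4) * (p : ℚ) ^ 3)) := by
  have h := Dv_half hp h5
  have Hz := Hzp hp h5 hm
  have s1 := S1_Dv hp Hz m (by omega)
  have h1 := rho_cong hp h5 hm
  have h2 := YY_cong hp h5 hm
  have hj := jac_sq hp h5 hm
  have hE := euler_Dv hp h5 (p - 3)
  have hp2 : Dv p 2 ((p : ℚ) ^ 2 * eulerNum (p - 3)) := Dv_mul_int hp (Dv_ppow hp 2) hE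
  have hs := sign_int hp m
  have hsq := neg_one_sq m
  have hj0 : Dv p 0 (jacobiSym 2 p : ℚ) := Dv_int hp _
  rw [E_eval]
  have hρY : (2 : ℚ) ^ m ≠ 0 := by positivity
  have hB0 := int_of_one hp (pB_one hp h5 hm m (by omega))
  have hu2 : Dv p 0 ((2 : ℚ) ^ m)⁻¹ := by
    rw [← inv_pow]
    exact Dv_pow hp (by simpa using h) m
  have hYint : Dv p 0 (YY m) := by
    have e : YY m = (YY m - (-S1 (2 * m + 1) m - 1 / 8 * S1 (2 * m + 1) m ^ 2 -
      (-1) ^ m * ((p : ℚ) ^ 2 * eulerNum (p - 3)))) - S1 (2 * m + 1) m -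
      (1 / 2) ^ 3 * S1 (2 * m + 1) m ^ 2 - (-1) ^ m * ((p : ℚ) ^ 2 * eulerNum (p - 3)) := by ring
    rw [e]
    have s0 := Dv_mono (p := p) (by norm_num : 0 ≤ 1) s1
    exact Dv_sub hp (Dv_sub hp (Dv_sub hp (Dv_mono (by norm_num) h2) s0)
      (Dv_int_mul hp (Dv_pow hp h 3) (Dv_pow hp s0 2)))
      (Dv_int_mul hp hs (Dv_mono (by norm_num) hp2))
  have hρ0 : (pB (2 * m + 1) m / 2 ^ m) = (jacobiSym 2 p : ℚ) *
      ((jacobiSym 2 p : ℚ) * (pB (2 * m + 1) m / 2 ^ m)) := by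
    linear_combination (-(pB (2 * m + 1) m / 2 ^ m)) * hj
  rw [hρ0, ← hm]
  rw [← hm] at h1 h2 s1
  generalize (jacobiSym 2 p : ℚ) * (pB p m / 2 ^ m) = ρ at *
  have e0 : (p : ℚ) ^ 3 = p * (p : ℚ) ^ 2 := by ring
  generalize (jacobiSym 2 p : ℚ) = σ at *
  generalize S1 p m = s at *
  generalize YY m = Y at *
  have e : (p : ℚ) * ((-1) ^ m * (σ * ρ)) * (1 - 1 / 4 * Y) -
      ((-1) ^ m * σ * (p : ℚ) + σ * (eulerNum (p - 3) / 4) * (p : ℚ) ^ 3) =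
      (p : ℚ) * ((-1) ^ m * σ * ((ρ - (1 - 1 / 4 * s + 1 / 32 * s ^ 2)) *
        (1 - 1 / 2 * (1 / 2) * Y) - (1 - 1 / 2 * (1 / 2) * s + (1 / 2) ^ 5 * s ^ 2) *
        (1 / 2 * (1 / 2)) * (Y - (-s - 1 / 8 * s ^ 2 -
          (-1) ^ m * ((p : ℚ) ^ 2 * eulerNum (p - 3)))) + s ^ 3 * (s * (1 / 2) ^ 10) +
        (1 / 2 * (1 / 2) * (-1) ^ m) * (((p : ℚ) ^ 2 * eulerNum (p - 3)) *
          (s * (-(1 / 2 * (1 / 2)) + s * (1 / 2) ^ 5))))) := by
    linear_combination (p : ℚ) * (σ * ((p : ℚ) ^ 2 * eulerNum (p - 3) / 4)) * hsq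
  rw [e]
  have s0 := Dv_mono (p := p) (by norm_num : 0 ≤ 1) s1
  have s3 := Dv_pow' hp s1 3
  have c4 : Dv p 0 (1 / 2 * (1 / 2) : ℚ) := Dv_mul_int hp h h
  refine Dv_mul hp (k := 1) (l := 3) (Dv_p hp) (Dv_int_mul hp (Dv_mul_int hp hs hj0)
    (Dv_add hp (Dv_add hp (Dv_sub hp ?_ ?_) ?_) ?_))
  · exact Dv_mul_int hp h1 (Dv_sub hp (Dv_one hp) (Dv_int_mul hp c4 hYint))
  · refine Dv_int_mul hp (Dv_mul_int hp (Dv_add hp (Dv_sub hp (Dv_one hp)
      (Dv_int_mul hp c4 s0)) (Dv_int_mul hp (Dv_pow hp h 5) (Dv_pow hp s0 2))) c4) h2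
  · exact Dv_mul_int hp s3 (Dv_mul_int hp s0 (Dv_pow hp h 10))
  · exact Dv_int_mul hp (Dv_mul_int hp c4 hs) (Dv_mul hp (k := 2) (l := 1) hp2
      (Dv_mul_int hp s1 (Dv_add hp (Dv_neg c4) (Dv_mul_int hp s0 (Dv_pow hp h 5)))))

end

end Pool.Agent.Helper91
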