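import Pool.Agent.Helper91.Euler

/-!
The tail of the first series.
-/

set_option autoImplicit false

namespace Pool.Agent.Helper91

open Finset

/-! ### Two exact identities for inverse binomial coefficients -/

theorem alt_fact_aux (n N : ℕ) (h : N ≤ n) :
    ∑ k ∈ range N, (-1 : ℚ) ^ k * ((Nat.factorial k * Nat.factorial (n - k) : ℕ) +
      (Nat.factorial (k + 1) * Nat.factorial (n - (k + 1)) : ℕ)) =
      (Nat.factorial n : ℚ) - (-1) ^ N * (Nat.factorial N * Nat.factorial (n - N) : ℕ) := by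
  induction N with
  | zero => simp
  | succ N ih =>
    rw [sum_range_succ, ih (by omega), pow_succ]
    ring

theorem alt_fact (n : ℕ) :
    ∑ k ∈ range n, (-1 : ℚ) ^ k * ((Nat.factorial k : ℚ) * (Nat.factorial (n - 1 - k) : ℚ)) =
      (1 - (-1) ^ n) * (Nat.factorial n : ℚ) / (n + 1) := by
  have h := alt_fact_aux n n le_rfl
  have h1 : ∀ k ∈ range n, (-1 : ℚ) ^ k * ((Nat.factorial k * Nat.factorial (n - k) : ℕ) +
      (Nat.factorial (k + 1) * Nat.factorial (n - (k + 1)) : ℕ)) =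
      ((n : ℚ) + 1) * ((-1 : ℚ) ^ k * ((Nat.factorial k : ℚ) * (Nat.factorial (n - 1 - k) : ℚ))) := by
    intro k hk
    have hk := mem_range.mp hk
    obtain ⟨d, hd⟩ : ∃ d, n = k + 1 + d := ⟨n - (k + 1), by omega⟩
    have e1 : n - k = d + 1 := by omega
    have e2 : n - (k + 1) = d := by omega
    have e3 : n - 1 - k = d := by omega
    rw [e1, e2, e3, Nat.factorial_succ, Nat.factorial_succ, hd]
    push_cast
    ring
  rw [sum_congr rfl h1, ← mul_sum, Nat.sub_self, Nat.factorial_zero] at h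
  have hn : ((n : ℚ) + 1) ≠ 0 := by positivity
  rw [eq_div_iff hn, mul_comm, h]
  push_cast
  ring

/-- `∑ (-1)^k / ((k+1)^2 binom(n,k+1))`. -/
theorem inv_choose_sum (n : ℕ) :
    ∑ k ∈ range n, (-1 : ℚ) ^ k * ((Nat.factorial k : ℚ) * (Nat.factorial (n - 1 - k) : ℚ) /
      ((Nat.factorial n : ℚ) * (k + 1))) =
      ∑ j ∈ range n, (2 * (-1) ^ j - 1) / ((j : ℚ) + 1) ^ 2 := by
  induction n with
  | zero => simp
  | succ n ih =>
    rw [sum_range_succ, sum_range_succ, ← ih]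
    have e0 : n + 1 - 1 - n = 0 := by omega
    rw [e0, Nat.factorial_zero]
    have h1 : ∀ k ∈ range n, (-1 : ℚ) ^ k * ((Nat.factorial k : ℚ) *
      (Nat.factorial (n + 1 - 1 - k) : ℚ) / ((Nat.factorial (n + 1) : ℚ) * (k + 1))) =
      (-1 : ℚ) ^ k * ((Nat.factorial k : ℚ) * (Nat.factorial (n - 1 - k) : ℚ) /
      ((Nat.factorial n : ℚ) * (k + 1))) - (1 / (Nat.factorial (n + 1) : ℚ)) *
      ((-1 : ℚ) ^ k * ((Nat.factorial k : ℚ) * (Nat.factorial (n - 1 - k) : ℚ))) := by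
      intro k hk
      have hk := mem_range.mp hk
      obtain ⟨d, hd⟩ : ∃ d, n = k + 1 + d := ⟨n - (k + 1), by omega⟩
      have e1 : n + 1 - 1 - k = d + 1 := by omega
      have e2 : n - 1 - k = d := by omega
      have f1 := fact_ne n
      have f2 : ((k : ℚ) + 1) ≠ 0 := by positivity
      have f3 : ((n : ℚ) + 1) ≠ 0 := by positivity
      have hd' : (n : ℚ) = k + 1 + d := by rw [hd]; push_cast; ring
      rw [e1, e2, Nat.factorial_succ, Nat.factorial_succ]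
      push_cast
      field_simp
      rw [hd']
      ring
    rw [sum_congr rfl h1, sum_sub_distrib, ← mul_sum, alt_fact, Nat.factorial_succ]
    have f1 := fact_ne n
    have f3 : ((n : ℚ) + 1) ≠ 0 := by positivity
    push_cast
    field_simp
    ring

/-! ### Exact factorizations -/

theorem pow_4_ne (m : ℕ) : (4 : ℚ) ^ m ≠ 0 := by positivity

theorem GA_p (k d : ℕ) :
    GA (2 * (k + 1 + d) + 1) (k + 1) = ((2 * (k + 1 + d) + 1 : ℕ) : ℚ) ^ 3 *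
      ((-1) ^ k * (1 / 2) * ((Nat.factorial k : ℚ) * (Nat.factorial d : ℚ) /
        ((Nat.factorial (k + 1 + d) : ℚ) * (2 * k + 1)))) *
      (pO (2 * (k + 1 + d) + 1) k * pA (2 * (k + 1 + d) + 1) (k + 1 + d) *
        pA (2 * (k + 1 + d) + 1) (k + 1 + d + k) * pA (2 * (k + 1 + d) + 1) d *
        pB (2 * (k + 1 + d) + 1) k / (pO (2 * (k + 1 + d) + 1) (d + 1) * (4 ^ (k + 1 + d)) ^ 4)) := by
  obtain ⟨m, hm⟩ : ∃ m, m = k + 1 + d := ⟨_, rfl⟩
  rw [← hm]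
  unfold GA
  have e1 : ((2 * m + 1 : ℕ) : ℤ) + ((k + 1 : ℕ) : ℤ) - 1 = ((m + 1 + (m + k) : ℕ) : ℤ) := by
    push_cast; ring
  have e2 : ((2 * m + 1 : ℕ) : ℤ) - ((k + 1 : ℕ) : ℤ) = ((m + 1 + d : ℕ) : ℤ) := by
    rw [hm]; push_cast; ring
  have e3 : ((2 * m + 1 : ℕ) : ℤ) - 1 = ((m + m : ℕ) : ℤ) := by push_cast; ring
  have e4 : ((2 * m + 1 : ℕ) : ℤ) = ((m + 1 + m : ℕ) : ℤ) := by push_cast; ring
  have e5 : ((2 * m + 1 : ℕ) : ℤ) - ((k + 1 : ℕ) : ℤ) = ((m + (d + 1) : ℕ) : ℤ) := by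
    rw [hm]; push_cast; ring
  rw [e1, e3]
  have e6 : hz (((2 * m + 1 : ℕ) : ℤ) - ((k + 1 : ℕ) : ℤ)) = hf (m + 1 + d) := by
    rw [e2, hz_nat]
  have e7 : rf (((2 * m + 1 : ℕ) : ℤ) - ((k + 1 : ℕ) : ℤ)) =
      ((Nat.factorial (m + (d + 1)) : ℕ) : ℚ)⁻¹ := by
    rw [e5, rf_nat]
  have e8 : hz ((2 * m + 1 : ℕ) : ℤ) = hf (m + 1 + m) := by rw [e4, hz_nat]
  rw [e6, e7, e8, hz_nat, hz_nat, rf_nat, L3, L3, L3, L2 m k, L2 m (d + 1), L2 m m, L5]
  have h1 := L1 m (d + 1) (by omega)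
  have e9 : m - (d + 1) = k := by omega
  rw [e9] at h1
  have b1 := pB_ne m k (by omega)
  have b3 := pB_ne m m (by omega)
  have f1 := fact_ne m
  have f2 := fact_ne k
  have f3 := fact_ne d
  have f4 := pow_4_ne m
  have f5 := hf_ne k
  have f6 := (pO_pos (2 * m + 1) (d + 1)).ne'
  have f7 := hf_ne m
  have s1 : (-1 : ℚ) ^ (d + 1) = (-1) ^ m * (-1) ^ k := by
    rw [hm, ← pow_add]
    have : k + 1 + d + k = (d + 1) + 2 * k := by ring
    rw [this, pow_add _ (d + 1), pow_mul]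
    simp
  have s2 := neg_one_sq m
  have s3 := neg_one_sq k
  have hm1 : (-1 : ℚ) ^ m ≠ 0 := pow_ne_zero _ (by norm_num)
  have hk1 : (-1 : ℚ) ^ k ≠ 0 := pow_ne_zero _ (by norm_num)
  have g1 : hf (d + 1) = (-1) ^ m * (-1) ^ k * (Nat.factorial m : ℕ) * pB (2 * m + 1) m /
      ((Nat.factorial k : ℕ) * pB (2 * m + 1) k) := by
    rw [eq_div_iff (mul_ne_zero f2 b1), ← s1]
    linear_combination h1
  have h6 := hf_eq m
  have f8 : (2 * (k : ℚ) + 1) ≠ 0 := by positivity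
  have f9 : ((k : ℚ) + 1 / 2) ≠ 0 := by positivity
  rw [g1, hf_succ k, h6]
  have p4 : (4 : ℚ) ^ (2 * m + 1) = 4 * (4 ^ m) ^ 2 := by
    rw [pow_succ, ← pow_mul, mul_comm m 2]; ring
  rw [p4]
  generalize pA (2 * m + 1) m = A1
  generalize pA (2 * m + 1) (m + k) = A2
  generalize pA (2 * m + 1) d = A3
  generalize pO (2 * m + 1) (d + 1) = O1 at *
  generalize pO (2 * m + 1) k = O2
  generalize pB (2 * m + 1) m = B1 at *
  generalize pB (2 * m + 1) k = B2 at *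
  generalize (4 : ℚ) ^ m = X at *
  generalize (-1 : ℚ) ^ m = sm at *
  generalize (-1 : ℚ) ^ k = sk at *
  generalize ((2 * m + 1 : ℕ) : ℚ) = q at *
  field_simp
  linear_combination (-(8 * q ^ 3 * A1 * O2 * A2 * A3)) * s3

theorem D_exact (m l : ℕ) :
    FA (m + 1 + l) l - GA (m + 1 + l + 1) (l + 1) =
      -(((2 * m + 1 : ℕ) : ℚ) ^ 4 * ((((2 * m + 1 : ℕ) : ℚ) + 1) * (1 / 2) ^ 3 * hf m ^ 3 *
        ((Nat.factorial l : ℚ) * (Nat.factorial (2 * l) : ℚ) * pA (2 * m + 1) l *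
          pA (2 * m + 1) (2 * l))) *
        ((2 * (l : ℚ) + 1)⁻¹ * ((Nat.factorial (m + 1 + l) : ℚ))⁻¹ ^ 2 *
          ((Nat.factorial (m + 1) : ℚ))⁻¹ * (hf l)⁻¹ * ((4 : ℚ) ^ (m + 1 + l))⁻¹)) := by
  unfold FA GA
  have e1 : ((m + 1 + l : ℕ) : ℤ) + l = ((m + 1 + (2 * l) : ℕ) : ℤ) := by push_cast; ring
  have e2 : ((m + 1 + l : ℕ) : ℤ) - l = ((m + 1 : ℕ) : ℤ) := by push_cast; ring
  have e3 : ((m + 1 + l + 1 : ℕ) : ℤ) + ((l + 1 : ℕ) : ℤ) - 1 = ((m + 1 + (2 * l + 1) : ℕ) : ℤ) := by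
    push_cast; ring
  have e4 : ((m + 1 + l + 1 : ℕ) : ℤ) - ((l + 1 : ℕ) : ℤ) = ((m + 1 : ℕ) : ℤ) := by
    push_cast; ring
  have e5 : ((m + 1 + l + 1 : ℕ) : ℤ) - 1 = ((m + 1 + l : ℕ) : ℤ) := by push_cast; ring
  have e6 : ((m + 1 + l + 1 : ℕ) : ℤ) = ((m + 1 + (l + 1) : ℕ) : ℤ) := by push_cast; ring
  rw [e3, e5]
  have e7 : hz (((m + 1 + l + 1 : ℕ) : ℤ) - ((l + 1 : ℕ) : ℤ)) = hf (m + 1 + 0) := by
    rw [e4, hz_nat, add_zero]
  have e8 : rf (((m + 1 + l + 1 : ℕ) : ℤ) - ((l + 1 : ℕ) : ℤ)) =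
      ((Nat.factorial (m + 1) : ℕ) : ℚ)⁻¹ := by
    rw [e4, rf_nat]
  have e9 : hz (((m + 1 + l : ℕ) : ℤ) - l) = hf (m + 1 + 0) := by
    rw [e2, hz_nat, add_zero]
  have e10 : rf (((m + 1 + l : ℕ) : ℤ) - l) = ((Nat.factorial (m + 1) : ℕ) : ℚ)⁻¹ := by
    rw [e2, rf_nat]
  have e11 : hz ((m + 1 + l + 1 : ℕ) : ℤ) = hf (m + 1 + (l + 1)) := by rw [e6, hz_nat]
  have e12 : hz (((m + 1 + l : ℕ) : ℤ) + l) = hf (m + 1 + 2 * l) := by rw [e1, hz_nat]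
  rw [e7, e8, e9, e10, e11, e12, hz_nat, hz_nat, hz_nat, hz_nat, rf_nat,
    L3 m l, L3 m (2 * l), L3 m 0, L3 m (l + 1), L3 m (2 * l + 1), hf_succ l,
    Nat.factorial_succ l, Nat.factorial_succ (2 * l)]
  have a1 : pA (2 * m + 1) (l + 1) = pA (2 * m + 1) l * (1 + zq (2 * m + 1) l / 2) := by
    rw [pA, prod_range_succ, ← pA]
  have a2 : pA (2 * m + 1) (2 * l + 1) =
      pA (2 * m + 1) (2 * l) * (1 + zq (2 * m + 1) (2 * l) / 2) := by
    rw [pA, prod_range_succ, ← pA]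
  have a3 : pA (2 * m + 1) 0 = 1 := by simp [pA]
  rw [a1, a2, a3, Nat.factorial_zero]
  unfold zq
  have f1 := fact_ne (m + 1 + l)
  have f2 := fact_ne (m + 1)
  have f3 := hf_ne l
  have f4 : (2 * (l : ℚ) + 1) ≠ 0 := by positivity
  have f5 : ((l : ℚ) + 1) ≠ 0 := by positivity
  have f6 : ((l : ℚ) + 1 / 2) ≠ 0 := by positivity
  have f7 : (4 : ℚ) ^ (m + 1 + l) ≠ 0 := by positivity
  have f8 : (((2 * l : ℕ) : ℚ) + 1) ≠ 0 := by positivity
  rw [pow_succ (4 : ℚ) (m + 1 + l)]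
  push_cast at f8 ⊢
  field_simp
  ring

section
variable {p m : ℕ} (hp : p.Prime) (h5 : 5 ≤ p) (hm : p = 2 * m + 1)
include hp h5 hm

theorem Hzp : ∀ l, l < 2 * m → Dv p 1 (zq (2 * m + 1) l) :=
  Hz_of_pow hp (a := 1) (by rw [pow_one]; exact hm)

omit h5 in
theorem fact_unit (n : ℕ) (hn : n ≤ 2 * m) : Dv p 0 ((Nat.factorial n : ℚ)⁻¹) := by
  apply Dv_inv_nat hp
  rw [hp.dvd_factorial]
  omega

omit h5 in
theorem odd_unit (k : ℕ) (hk : k < m) : Dv p 0 ((2 * (k : ℚ) + 1)⁻¹) := by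
  have hnd : ¬ p ∣ (2 * k + 1) := by
    intro hd
    have := Nat.le_of_dvd (by omega) hd
    omega
  have := Dv_inv_nat hp hnd
  push_cast at this
  exact this

omit h5 in
theorem succ_unit (k : ℕ) (hk : k < 2 * m) : Dv p 0 (((k : ℚ) + 1)⁻¹) := by
  have hnd : ¬ p ∣ (k + 1) := by
    intro hd
    have := Nat.le_of_dvd (by omega) hd
    omega
  have := Dv_inv_nat hp hnd
  push_cast at this
  exact this

omit hm in
theorem four_unit (n : ℕ) : Dv p 0 (((4 : ℚ) ^ n)⁻¹) := by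
  have h := Dv_half hp h5
  have e : ((4 : ℚ) ^ n)⁻¹ = (1 / 2 * (1 / 2)) ^ n := by
    rw [← inv_pow]; congr 1; norm_num
  rw [e]
  exact Dv_pow hp (Dv_mul_int hp h h) n

theorem hf_int (n : ℕ) : Dv p 0 (hf n) := by
  have h := Dv_half hp h5
  unfold hf
  apply Dv_prod hp
  intro i _
  exact Dv_add hp (Dv_nat hp i) h

omit h5 in
theorem hf_unit (n : ℕ) (hn : n ≤ m) : Dv p 0 ((hf n)⁻¹) := by
  unfold hf
  rw [← prod_inv_distrib]
  apply Dv_prod hp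
  intro i hi
  have hi := mem_range.mp hi
  have h1 := odd_unit hp hm i (by omega)
  have e : ((i : ℚ) + 1 / 2)⁻¹ = 2 * (2 * (i : ℚ) + 1)⁻¹ := by
    have : (2 * (i : ℚ) + 1) ≠ 0 := by positivity
    have : ((i : ℚ) + 1 / 2) ≠ 0 := by positivity
    field_simp
  rw [e]
  exact Dv_mul_int hp (Dv_ofNat hp 2) h1

theorem pA_one (n : ℕ) (hn : n ≤ 2 * m) : Dv p 1 (pA (2 * m + 1) n - 1) := by
  have h := Dv_half hp h5
  have Hz := Hzp hp h5 hm
  exact prod_exp0 hp (fun l => zq (2 * m + 1) l / 2) n (fun i hi => by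
    have := Dv_mul_int hp (Hz i (by omega)) h
    have e : zq (2 * m + 1) i / 2 = zq (2 * m + 1) i * (1 / 2) := by ring
    rw [e]; exact this)

theorem pB_one (n : ℕ) (hn : n ≤ 2 * m) : Dv p 1 (pB (2 * m + 1) n - 1) := by
  have h := Dv_half hp h5
  have Hz := Hzp hp h5 hm
  exact prod_exp0 hp (fun l => -(zq (2 * m + 1) l / 2)) n (fun i hi => by
    have := Dv_mul_int hp (Hz i (by omega)) h
    have e : -(zq (2 * m + 1) i / 2) = -(zq (2 * m + 1) i * (1 / 2)) := by ring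
    rw [e]; exact Dv_neg this)

theorem pO_one (k : ℕ) (hk : k ≤ m) : Dv p 1 (pO (2 * m + 1) k - 1) :=
  (pO_unit hp (Hzp hp h5 hm) k hk).2.2.2

omit h5 hm in
theorem mul_one_cong {x y : ℚ} (hx : Dv p 1 (x - 1)) (hy : Dv p 1 (y - 1)) :
    Dv p 1 (x * y - 1) := by
  have hy0 : Dv p 0 y := by
    have : y = (y - 1) + 1 := by ring
    rw [this]; exact Dv_add hp (Dv_mono (by norm_num) hy) (Dv_one hp)
  have e : x * y - 1 = (x - 1) * y + (y - 1) := by ring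
  rw [e]
  exact Dv_add hp (Dv_mul_int hp hx hy0) hy

omit h5 hm in
theorem inv_one_cong {x : ℚ} (hx : Dv p 1 (x - 1)) : Dv p 1 (x⁻¹ - 1) := by
  obtain ⟨h0, h1⟩ := Dv_inv_of_sub_one hp hx
  have e : x⁻¹ - 1 = -(x - 1) * x⁻¹ := by field_simp; ring
  rw [e]
  exact Dv_mul_int hp (Dv_neg hx) h1

omit h5 hm in
theorem pow_one_cong {x : ℚ} (hx : Dv p 1 (x - 1)) (n : ℕ) : Dv p 1 (x ^ n - 1) := by
  induction n with
  | zero => simpa using Dv_zero_mem hp 1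
  | succ n ih => rw [pow_succ]; exact mul_one_cong hp ih hx

omit h5 hm in
theorem int_of_one {x : ℚ} (hx : Dv p 1 (x - 1)) : Dv p 0 x := by
  have : x = (x - 1) + 1 := by ring
  rw [this]; exact Dv_add hp (Dv_mono (by norm_num) hx) (Dv_one hp)

theorem four_one : Dv p 1 ((4 : ℚ) ^ m - 1) := by
  have := pO_one hp h5 hm m le_rfl
  rwa [L5] at this

omit h5 hm in
theorem sign_int (n : ℕ) : Dv p 0 ((-1 : ℚ) ^ n) := by
  have := Dv_int hp ((-1) ^ n)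
  push_cast at this
  exact this

theorem D_Dv (l : ℕ) (hl : l < m) :
    Dv p 4 (FA (m + 1 + l) l - GA (m + 1 + l + 1) (l + 1)) := by
  have h := Dv_half hp h5
  rw [D_exact, ← hm]
  have a1 := int_of_one hp (pA_one hp h5 hm l (by omega))
  have a2 := int_of_one hp (pA_one hp h5 hm (2 * l) (by omega))
  rw [← hm] at a1 a2
  refine Dv_neg (Dv_mul_int hp (Dv_mul_int hp (Dv_ppow hp 4) ?_) ?_)
  · refine Dv_mul_int hp (Dv_mul_int hp (Dv_mul_int hp (Dv_add hp (Dv_nat hp p) (Dv_one hp))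
      (Dv_pow hp h 3)) (Dv_pow hp (hf_int hp h5 hm m) 3)) ?_
    exact Dv_mul_int hp (Dv_mul_int hp (Dv_mul_int hp (Dv_nat hp _) (Dv_nat hp _)) a1) a2
  · exact Dv_mul_int hp (Dv_mul_int hp (Dv_mul_int hp (Dv_mul_int hp (odd_unit hp hm l hl)
      (Dv_pow hp (fact_unit hp hm _ (by omega)) 2)) (fact_unit hp hm _ (by omega)))
      (hf_unit hp hm l (by omega))) (four_unit hp h5 _)

/-- the boundary terms at `p`. -/
theorem GA_p_cong (k d : ℕ) (hkd : m = k + 1 + d) :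
    Dv p 4 (GA (2 * m + 1) (k + 1) + (p : ℚ) ^ 3 * (1 / 2 * (1 / 2)) *
      ((-1) ^ k * ((Nat.factorial k : ℚ) * (Nat.factorial d : ℚ) /
        ((Nat.factorial m : ℚ) * (d + 1))))) := by
  have h := Dv_half hp h5
  have h1 := GA_p k d
  rw [← hkd, ← hm] at h1
  rw [← hm, h1]
  have q1 := pO_one hp h5 hm k (by omega)
  have q2 := pA_one hp h5 hm m (by omega)
  have q3 := pA_one hp h5 hm (m + k) (by omega)
  have q4 := pA_one hp h5 hm d (by omega)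
  have q5 := pB_one hp h5 hm k (by omega)
  have q6 := pO_one hp h5 hm (d + 1) (by omega)
  have q7 := four_one hp h5 hm
  rw [← hm] at q1 q2 q3 q4 q5 q6
  have q8 := mul_one_cong hp (mul_one_cong hp (mul_one_cong hp (mul_one_cong hp
    (mul_one_cong hp q1 q2) q3) q4) q5)
    (inv_one_cong hp (mul_one_cong hp q6 (pow_one_cong hp q7 4)))
  rw [← div_eq_mul_inv] at q8
  generalize pO p k * pA p m * pA p (m + k) * pA p d * pB p k / (pO p (d + 1) * (4 ^ m) ^ 4) = U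
    at *
  have u1 := odd_unit hp hm k (by omega)
  have u2 := succ_unit hp hm d (by omega)
  have u3 := fact_unit hp hm m (by omega)
  have f1 := fact_ne m
  have f2 : (2 * (k : ℚ) + 1) ≠ 0 := by positivity
  have f3 : ((d : ℚ) + 1) ≠ 0 := by positivity
  have hp' : (p : ℚ) = 2 * (d + 1) + (2 * k + 1) := by rw [hm, hkd]; push_cast; ring
  have e : (p : ℚ) ^ 3 * ((-1) ^ k * (1 / 2) * ((Nat.factorial k : ℚ) * (Nat.factorial d : ℚ) /
        ((Nat.factorial m : ℚ) * (2 * k + 1)))) * U + (p : ℚ) ^ 3 * (1 / 2 * (1 / 2)) *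
      ((-1) ^ k * ((Nat.factorial k : ℚ) * (Nat.factorial d : ℚ) /
        ((Nat.factorial m : ℚ) * (d + 1)))) =
      (p : ℚ) ^ 3 * ((-1) ^ k * (1 / 2) * ((Nat.factorial k : ℚ) * (Nat.factorial d : ℚ) *
        (Nat.factorial m : ℚ)⁻¹)) * ((2 * (k : ℚ) + 1)⁻¹ * (U - 1) +
        p * (1 / 2) * (((d : ℚ) + 1)⁻¹ * (2 * (k : ℚ) + 1)⁻¹)) := by
    have e2 : (p : ℚ) * (1 / 2) * (((d : ℚ) + 1)⁻¹ * (2 * (k : ℚ) + 1)⁻¹) =
      (1 / 2) * ((d : ℚ) + 1)⁻¹ + (2 * (k : ℚ) + 1)⁻¹ := by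
      rw [hp']; field_simp; ring
    rw [e2]
    field_simp
    ring
  rw [e]
  refine Dv_mul hp (k := 3) (l := 1) (Dv_mul_int hp (Dv_ppow hp 3) ?_) (Dv_add hp ?_ ?_)
  · exact Dv_mul_int hp (Dv_mul_int hp (sign_int hp k) h)
      (Dv_mul_int hp (Dv_mul_int hp (Dv_nat hp _) (Dv_nat hp _)) u3)
  · exact Dv_int_mul hp u1 q8
  · exact Dv_mul_int hp (Dv_mul_int hp (Dv_p hp) h) (Dv_mul_int hp u2 u1)

/-- The tail of the first series. -/
theorem tail_cong : Dv p 4 (∑ n ∈ range m, FA (m + 1 + n) 0 +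
    (p : ℚ) ^ 3 * eulerNum (p - 3)) := by
  have h := Dv_half hp h5
  rw [sumA_tail]
  have e0 : m + 1 + m = 2 * m + 1 := by ring
  rw [e0]
  have h1 : Dv p 4 (∑ l ∈ range m, (FA (m + 1 + l) l - GA (m + 1 + l + 1) (l + 1))) :=
    sum_Dv hp _ m 4 (fun l hl => D_Dv hp h5 hm l hl)
  have h2 : Dv p 4 (∑ k ∈ range m, (GA (2 * m + 1) (k + 1) + (p : ℚ) ^ 3 * (1 / 2 * (1 / 2)) *
      ((-1) ^ k * ((Nat.factorial k : ℚ) * (Nat.factorial (m - 1 - k) : ℚ) /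
        ((Nat.factorial m : ℚ) * ((m - 1 - k : ℕ) + 1)))))) := by
    apply sum_Dv hp _ m 4
    intro k hk
    exact GA_p_cong hp h5 hm k (m - 1 - k) (by omega)
  rw [sum_add_distrib, ← mul_sum] at h2
  have e1 : ∑ k ∈ range m, (-1 : ℚ) ^ k * ((Nat.factorial k : ℚ) *
      (Nat.factorial (m - 1 - k) : ℚ) / ((Nat.factorial m : ℚ) * ((m - 1 - k : ℕ) + 1))) =
      -(-1) ^ m * ∑ k ∈ range m, (-1 : ℚ) ^ k * ((Nat.factorial k : ℚ) *
        (Nat.factorial (m - 1 - k) : ℚ) / ((Nat.factorial m : ℚ) * (k + 1))) := by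
    rw [← sum_range_reflect, mul_sum]
    apply sum_congr rfl
    intro k hk
    have hk := mem_range.mp hk
    obtain ⟨d, hd⟩ : ∃ d, m = k + 1 + d := ⟨m - (k + 1), by omega⟩
    have e2 : m - 1 - k = d := by omega
    have e3 : m - 1 - d = k := by omega
    rw [e2, e3]
    have e4 : (-1 : ℚ) ^ m * (-1) ^ k = -(-1) ^ d := by
      rw [hd, ← pow_add]
      have : k + 1 + d + k = 2 * k + (d + 1) := by ring
      rw [this, pow_add, pow_mul]
      simp [pow_succ]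
    have e5 : -(-1 : ℚ) ^ m * ((-1) ^ k * ((Nat.factorial k : ℚ) *
        (Nat.factorial d : ℚ) / ((Nat.factorial m : ℚ) * (k + 1)))) =
        -((-1 : ℚ) ^ m * (-1) ^ k) * ((Nat.factorial k : ℚ) *
        (Nat.factorial d : ℚ) / ((Nat.factorial m : ℚ) * (k + 1))) := by ring
    rw [e5, e4]
    ring
  rw [e1, inv_choose_sum] at h2
  have e6 : ∑ j ∈ range m, (2 * (-1 : ℚ) ^ j - 1) / ((j : ℚ) + 1) ^ 2 =
      2 * ∑ j ∈ range m, (-1 : ℚ) ^ j / ((j : ℚ) + 1) ^ 2 -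
      ∑ j ∈ range m, 1 / ((j : ℚ) + 1) ^ 2 := by
    rw [mul_sum, ← sum_sub_distrib]
    apply sum_congr rfl
    intro j _
    ring
  rw [e6] at h2
  have h3 := alt_cong hp h5 hm
  have h4 : Dv p 1 (∑ j ∈ range m, 1 / ((j : ℚ) + 1) ^ 2) := by
    have h4' := S2_Dv3 hp h5 (Hzp hp h5 hm)
    apply Dv_of_ppow_mul hp (l := 2)
    have : (p : ℚ) ^ 2 * ∑ j ∈ range m, 1 / ((j : ℚ) + 1) ^ 2 = S2 (2 * m + 1) m := by
      rw [S2, mul_sum]
      apply sum_congr rfl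
      intro j _
      unfold zq
      rw [← hm]
      field_simp
    rw [this]; exact h4'
  generalize ∑ j ∈ range m, (-1 : ℚ) ^ j / ((j : ℚ) + 1) ^ 2 = Q at *
  generalize ∑ j ∈ range m, 1 / ((j : ℚ) + 1) ^ 2 = H at *
  generalize ∑ k ∈ range m, GA (2 * m + 1) (k + 1) = G at *
  generalize ∑ l ∈ range m, (FA (m + 1 + l) l - GA (m + 1 + l + 1) (l + 1)) = D at *
  have hsq := neg_one_sq m
  have e : G + D + (p : ℚ) ^ 3 * eulerNum (p - 3) =
      (G + (p : ℚ) ^ 3 * (1 / 2 * (1 / 2)) * (-(-1) ^ m * (2 * Q - H))) + D +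
      ((p : ℚ) ^ 3 * (Q + 2 * (-1) ^ m * eulerNum (p - 3))) * (1 / 2 * (-1) ^ m) -
      ((p : ℚ) ^ 3 * H) * ((1 / 2 * (1 / 2)) * (-1) ^ m) := by
    linear_combination (-(p : ℚ) ^ 3 * eulerNum (p - 3)) * hsq
  rw [e]
  have hs := sign_int hp m
  refine Dv_sub hp (Dv_add hp (Dv_add hp h2 h1) ?_) ?_
  · exact Dv_mul_int hp (Dv_mul hp (Dv_ppow hp 3) h3) (Dv_mul_int hp h hs)
  · exact Dv_mul_int hp (Dv_mul hp (Dv_ppow hp 3) h4) (Dv_mul_int hp (Dv_mul_int hp h h) hs)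

/-- the main part. -/
theorem main_cong : Dv p 4 (∑ n ∈ range (m + 1), FA n 0 - (-1) ^ m * (p : ℚ)) := by
  have h := Dv_half hp h5
  have Hz := Hzp hp h5 hm
  have h1 := S6_cong hp h5 Hz
  have s2 := S2_Dv3 hp h5 Hz
  have s3 := S3_Dv hp Hz m (by omega)
  have s12 := S12_Dv hp Hz m (by omega)
  rw [S6_eval, ← hm]
  rw [← hm] at h1 s2 s3 s12
  generalize pA p m * pB p m / 4 ^ m - 1 / 2 * (pB p m ^ 2 / 4 ^ m) * PP p m = X at *
  have e : (-1 : ℚ) ^ m * p * X - (-1) ^ m * p = (-1) ^ m * (p * ((X - (1 + (S2 p m / 2 +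
      S3 p m / 4 - S12 p m / 4))) + (S2 p m * (1 / 2) +
      S3 p m * (1 / 2 * (1 / 2)) - S12 p m * (1 / 2 * (1 / 2))))) := by ring
  rw [e]
  refine Dv_int_mul hp (sign_int hp m) (Dv_mul hp (k := 1) (l := 3) (Dv_p hp)
    (Dv_add hp (Dv_mono (by norm_num) h1) ?_))
  exact Dv_sub hp (Dv_add hp (Dv_mul_int hp s2 h) (Dv_mul_int hp s3 (Dv_mul_int hp h h)))
    (Dv_mul_int hp s12 (Dv_mul_int hp h h))

/-- The first congruence of the second question. -/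
theorem first_cong : Dv p 4 (∑ n ∈ range p, FA n 0 -
    ((-1) ^ m * (p : ℚ) - eulerNum (p - 3) * (p : ℚ) ^ 3)) := by
  have h1 := main_cong hp h5 hm
  have h2 := tail_cong hp h5 hm
  have e0 : p = m + 1 + m := by omega
  have e1 : ∑ n ∈ range p, FA n 0 = ∑ n ∈ range (m + 1), FA n 0 +
      ∑ n ∈ range m, FA (m + 1 + n) 0 := by
    conv_lhs => rw [e0, sum_range_add]
  rw [e1]
  have e : ∑ n ∈ range (m + 1), FA n 0 + ∑ n ∈ range m, FA (m + 1 + n) 0 -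
    ((-1) ^ m * (p : ℚ) - eulerNum (p - 3) * (p : ℚ) ^ 3) =
    (∑ n ∈ range (m + 1), FA n 0 - (-1) ^ m * (p : ℚ)) + (∑ n ∈ range m, FA (m + 1 + n) 0 +
    (p : ℚ) ^ 3 * eulerNum (p - 3)) := by ring
  rw [e]
  exact Dv_add hp h1 h2

end

end Pool.Agent.Helper91
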