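import Pool.Agent.Helper91.Tail1

/-!
The complete sum of the `(42k+5)` series up to `p-1`.
-/

set_option autoImplicit false

namespace Pool.Agent.Helper91

open Finset

/-- `∏_{1 ≤ l ≤ n} (1 + q/l)`. -/
def pZ (q n : ℕ) : ℚ := ∏ l ∈ range n, (1 + zq q l)

theorem fact_shift (m n : ℕ) :
    ((Nat.factorial (2 * m + 1 + n) : ℕ) : ℚ) = ((2 * m + 1 : ℕ) : ℚ) *
      ((Nat.factorial m : ℚ) * hf m * 4 ^ m) * (Nat.factorial n : ℚ) * pZ (2 * m + 1) n := by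
  induction n with
  | zero =>
    have h := L2 m m
    rw [L5] at h
    have e : m + m = 2 * m := by ring
    rw [e] at h
    rw [add_zero, Nat.factorial_succ, Nat.factorial_zero, pZ]
    push_cast
    push_cast at h
    rw [h]
    simp
  | succ n ih =>
    rw [← add_assoc, Nat.factorial_succ, Nat.factorial_succ n, pZ, prod_range_succ, ← pZ]
    rw [Nat.cast_mul, ih]
    have h1 : ((n : ℚ) + 1) ≠ 0 := by positivity
    unfold zq
    push_cast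
    field_simp
    ring

theorem VB_mm (m : ℕ) : VB (m + 1) m = (-1) ^ m * ((2 * m + 1 : ℕ) : ℚ) *
      (1 / 4 * (pB (2 * m + 1) m ^ 3 / (4 ^ m) ^ 3)) := by
  rw [VB_m, pO, prod_range_succ, ← pO, L5]
  have hw : wq (2 * m + 1) m = 1 := by
    unfold wq
    push_cast
    exact div_self (by positivity)
  rw [hw]
  have hf : (4 : ℚ) ^ m ≠ 0 := by positivity
  field_simp
  norm_num

theorem FB_p (m j : ℕ) :
    FB (m + 1 + j) (2 * m + 1) - 1 / 4 * FB (m + 1 + j) 0 =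
      (1 / 2 * (1 / 2)) * (hf (m + 1 + j) ^ 3 * ((Nat.factorial (m + 1 + j) : ℚ)⁻¹ ^ 3 *
        ((4 : ℚ) ^ (m + 1 + j))⁻¹)) *
      ((6 * ((m + 1 + j : ℕ) : ℚ) + 1) * (pA (2 * m + 1) m ^ 2 *
        ((4 ^ m) ^ 2 * pZ (2 * m + 1) (m + 1 + j) ^ 2)⁻¹ - 1) + ((2 * m + 1 : ℕ) : ℚ) *
        (4 * (pA (2 * m + 1) m ^ 2 * ((4 ^ m) ^ 2 * pZ (2 * m + 1) (m + 1 + j) ^ 2)⁻¹))) := by
  unfold FB
  have e1 : ((2 * m + 1 : ℕ) : ℤ) = ((m + 1 + m : ℕ) : ℤ) := by push_cast; ring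
  have e2 : ((m + 1 + j : ℕ) : ℤ) + ((2 * m + 1 : ℕ) : ℤ) = ((2 * m + 1 + (m + 1 + j) : ℕ) : ℤ) := by
    push_cast; ring
  have e3 : ((m + 1 + j : ℕ) : ℤ) + ((0 : ℕ) : ℤ) = ((m + 1 + j : ℕ) : ℤ) := by
    push_cast; ring
  rw [e2, e3, rf_nat, rf_nat, fact_shift]
  have e4 : hz ((2 * m + 1 : ℕ) : ℤ) = hf (m + 1 + m) := by rw [e1, hz_nat]
  have e5 : hz ((0 : ℕ) : ℤ) = 1 := by rw [hz_nat]; exact hf_zero
  rw [e4, e5, hz_nat, L3 m m]
  have f1 := fact_ne m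
  have f2 := fact_ne (m + 1 + j)
  have f3 := hf_ne m
  have f4 : (4 : ℚ) ^ m ≠ 0 := by positivity
  have f5 : (4 : ℚ) ^ (m + 1 + j) ≠ 0 := by positivity
  have f6 : ((2 * m + 1 : ℕ) : ℚ) ≠ 0 := by positivity
  have f7 : pZ (2 * m + 1) (m + 1 + j) ≠ 0 := by
    have : 0 < pZ (2 * m + 1) (m + 1 + j) := by
      unfold pZ zq
      apply prod_pos
      intro i _
      positivity
    exact this.ne'
  generalize pZ (2 * m + 1) (m + 1 + j) = Z at *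
  generalize pA (2 * m + 1) m = A at *
  generalize (Nat.factorial (m + 1 + j) : ℚ) = F at *
  generalize (4 : ℚ) ^ (m + 1 + j) = Y at *
  generalize (4 : ℚ) ^ m = X at *
  push_cast at f6 ⊢
  field_simp
  ring

section
variable {p m : ℕ} (hp : p.Prime) (h5 : 5 ≤ p) (hm : p = 2 * m + 1)
include hp h5 hm

theorem pZ_one (n : ℕ) (hn : n ≤ 2 * m) : Dv p 1 (pZ (2 * m + 1) n - 1) := by
  have Hz := Hzp hp h5 hm
  exact prod_exp0 hp (fun l => zq (2 * m + 1) l) n (fun i hi => Hz i (by omega))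

theorem hf_tail (j : ℕ) (hj : j < m) : Dv p 1 (hf (m + 1 + j)) := by
  have h := Dv_half hp h5
  rw [L3 m j, ← hm]
  have a1 := int_of_one hp (pA_one hp h5 hm j (by omega))
  rw [← hm] at a1
  have e : hf m * ((p : ℚ) / 2) * (Nat.factorial j : ℚ) * pA p j =
    p * (hf m * (1 / 2) * (Nat.factorial j : ℚ) * pA p j) := by ring
  rw [e]
  exact Dv_mul_int hp (Dv_p hp) (Dv_mul_int hp (Dv_mul_int hp (Dv_mul_int hp
    (hf_int hp h5 hm m) h) (Dv_nat hp _)) a1)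

theorem FB_p_cong (j : ℕ) (hj : j < m) :
    Dv p 4 (FB (m + 1 + j) (2 * m + 1) - 1 / 4 * FB (m + 1 + j) 0) := by
  have h := Dv_half hp h5
  rw [FB_p, ← hm]
  have q1 := pow_one_cong hp (pA_one hp h5 hm m (by omega)) 2
  have q2 := pow_one_cong hp (four_one hp h5 hm) 2
  have q3 := pow_one_cong hp (pZ_one hp h5 hm (m + 1 + j) (by omega)) 2
  rw [← hm] at q1 q3
  have q4 := mul_one_cong hp q1 (inv_one_cong hp (mul_one_cong hp q2 q3))
  generalize pA p m ^ 2 * ((4 ^ m) ^ 2 * pZ p (m + 1 + j) ^ 2)⁻¹ = V at *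
  refine Dv_mul hp (k := 3) (l := 1) (Dv_int_mul hp (Dv_mul_int hp h h) (Dv_mul_int hp ?_ ?_))
    (Dv_add hp ?_ ?_)
  · exact Dv_pow' hp (hf_tail hp h5 hm j hj) 3
  · exact Dv_mul_int hp (Dv_pow hp (fact_unit hp hm _ (by omega)) 3) (four_unit hp h5 _)
  · refine Dv_int_mul hp (Dv_add hp (Dv_mul_int hp (Dv_ofNat hp 6) (Dv_nat hp _)) (Dv_one hp)) q4
  · exact Dv_mul_int hp (Dv_p hp) (Dv_mul_int hp (Dv_ofNat hp 4) (int_of_one hp q4))

theorem wq_tail (j : ℕ) (hj : j < m) : Dv p 1 (wq (2 * m + 1) (m + 1 + j)) ∧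
    Dv p 3 (wq (2 * m + 1) (m + 1 + j) ^ 2 - zq (2 * m + 1) j ^ 2 * (1 / 2 * (1 / 2))) := by
  have h := Dv_half hp h5
  have hz := Hzp hp h5 hm j (by omega)
  have h1 : wq (2 * m + 1) (m + 1 + j) * (1 + zq (2 * m + 1) j / 2) = zq (2 * m + 1) j / 2 := by
    unfold wq zq
    have f1 : ((j : ℚ) + 1) ≠ 0 := by positivity
    have f2 : (2 * ((m + 1 + j : ℕ) : ℚ) + 1) ≠ 0 := by positivity
    push_cast at f2 ⊢
    field_simp
    ring
  have h2 : Dv p 1 (zq (2 * m + 1) j / 2) := by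
    have e : zq (2 * m + 1) j / 2 = zq (2 * m + 1) j * (1 / 2) := by ring
    rw [e]; exact Dv_mul_int hp hz h
  obtain ⟨h3, h4⟩ := Dv_inv_of_sub_one hp (x := 1 + zq (2 * m + 1) j / 2) (by
    rw [add_sub_cancel_left]; exact h2)
  have h5' : wq (2 * m + 1) (m + 1 + j) = zq (2 * m + 1) j / 2 *
      (1 + zq (2 * m + 1) j / 2)⁻¹ := by
    rw [eq_mul_inv_iff_mul_eq₀ h3]; exact h1
  have h6 : Dv p 1 (wq (2 * m + 1) (m + 1 + j)) := by
    rw [h5']; exact Dv_mul_int hp h2 h4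
  refine ⟨h6, ?_⟩
  generalize wq (2 * m + 1) (m + 1 + j) = w at *
  generalize zq (2 * m + 1) j = z at *
  have e : w ^ 2 - z ^ 2 * (1 / 2 * (1 / 2)) = -(w ^ 2 * (z * (1 + z * (1 / 2 * (1 / 2))))) := by
    linear_combination (w * (1 + z / 2) + z / 2) * h1
  rw [e]
  have z0 := Dv_mono (p := p) (by norm_num : 0 ≤ 1) hz
  exact Dv_neg (Dv_mul hp (k := 2) (l := 1) (Dv_pow' hp h6 2) (Dv_mul_int hp hz
    (Dv_add hp (Dv_one hp) (Dv_mul_int hp z0 (Dv_mul_int hp h h)))))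

theorem pO_tail (n : ℕ) (hn : n ≤ m) : Dv p 1 (pO (2 * m + 1) (m + 1 + n) * (1 / 2) - 1) := by
  induction n with
  | zero =>
    rw [add_zero, pO, prod_range_succ, ← pO, L5]
    have hw : wq (2 * m + 1) m = 1 := by
      unfold wq
      push_cast
      exact div_self (by positivity)
    rw [hw]
    have e : (4 : ℚ) ^ m * (1 + 1) * (1 / 2) - 1 = 4 ^ m - 1 := by ring
    rw [e]
    exact four_one hp h5 hm
  | succ n ih =>
    have ih := ih (by omega)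
    have hw := (wq_tail hp h5 hm n (by omega)).1
    rw [← add_assoc, pO, prod_range_succ, ← pO]
    have e : pO (2 * m + 1) (m + 1 + n) * (1 + wq (2 * m + 1) (m + 1 + n)) * (1 / 2) =
      pO (2 * m + 1) (m + 1 + n) * (1 / 2) * (1 + wq (2 * m + 1) (m + 1 + n)) := by ring
    rw [e]
    refine mul_one_cong hp ih ?_
    rw [add_sub_cancel_left]; exact hw

theorem VB_tail : Dv p 4 (∑ j ∈ range m, VB (m + 1) (m + 1 + j)) := by
  have h := Dv_half hp h5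
  have s2 := S2_Dv3 hp h5 (Hzp hp h5 hm)
  have hB := int_of_one hp (B3_cong hp h5 (Hzp hp h5 hm))
  have e1 : ∑ j ∈ range m, VB (m + 1) (m + 1 + j) =
      (p : ℚ) * ((-1) ^ m * (pB (2 * m + 1) m ^ 3 / 4 ^ m) *
      (∑ j ∈ range m, (wq (2 * m + 1) (m + 1 + j) ^ 2 / pO (2 * m + 1) (m + 1 + j + 1) ^ 2 -
        zq (2 * m + 1) j ^ 2 * (1 / 2 * (1 / 2)) ^ 2) +
        S2 (2 * m + 1) m * (1 / 2 * (1 / 2)) ^ 2)) := by
    rw [sum_sub_distrib, ← sum_mul, ← S2, sub_add_cancel, mul_sum, mul_sum]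
    apply sum_congr rfl
    intro j _
    rw [VB_m, hm]
    ring
  rw [e1]
  have c4 : Dv p 0 (1 / 2 * (1 / 2) : ℚ) := Dv_mul_int hp h h
  refine Dv_mul hp (k := 1) (l := 3) (Dv_p hp) (Dv_int_mul hp (Dv_mul_int hp (sign_int hp m) hB)
    (Dv_add hp (sum_Dv hp _ m 3 (fun j hj => ?_)) (Dv_mul_int hp s2 (Dv_pow hp c4 2))))
  obtain ⟨a1, a2⟩ := wq_tail hp h5 hm j hj
  have a3 := pO_tail hp h5 hm (j + 1) (by omega)
  rw [← add_assoc] at a3
  have a4 := inv_one_cong hp (pow_one_cong hp a3 2)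
  have a5 : pO (2 * m + 1) (m + 1 + j + 1) ≠ 0 := (pO_pos _ _).ne'
  generalize pO (2 * m + 1) (m + 1 + j + 1) = O at *
  generalize wq (2 * m + 1) (m + 1 + j) = w at *
  generalize zq (2 * m + 1) j = z at *
  have e : w ^ 2 / O ^ 2 - z ^ 2 * (1 / 2 * (1 / 2)) ^ 2 =
    (1 / 2 * (1 / 2)) * (w ^ 2 * (((O * (1 / 2)) ^ 2)⁻¹ - 1)) +
    (1 / 2 * (1 / 2)) * (w ^ 2 - z ^ 2 * (1 / 2 * (1 / 2))) := by
    field_simp
    ring
  rw [e]
  exact Dv_add hp (Dv_int_mul hp c4 (Dv_mul hp (k := 2) (l := 1) (Dv_pow' hp a1 2) a4))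
    (Dv_int_mul hp c4 a2)

theorem VB_head : Dv p 4 (∑ k ∈ range m, VB (m + 1) k) := by
  have h := Dv_half hp h5
  have Hz := Hzp hp h5 hm
  have hB := int_of_one hp (B3_cong hp h5 Hz)
  have s2 := S2_Dv3 hp h5 Hz
  have s3 := S3_Dv hp Hz m (by omega)
  have s12 := S12_Dv hp Hz m (by omega)
  have hV := V_cong hp h5 Hz
  have e1 : ∑ k ∈ range m, VB (m + 1) k =
      (p : ℚ) * ((-1) ^ m * (pB (2 * m + 1) m ^ 3 / 4 ^ m) *
      ((∑ k ∈ range m, wq (2 * m + 1) k ^ 2 / pO (2 * m + 1) (k + 1) ^ 2 -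
        (S2 (2 * m + 1) m + S3 (2 * m + 1) m - S12 (2 * m + 1) m) / 4) +
        (S2 (2 * m + 1) m + S3 (2 * m + 1) m - S12 (2 * m + 1) m) * (1 / 2 * (1 / 2)))) := by
    have e2 : (∑ k ∈ range m, wq (2 * m + 1) k ^ 2 / pO (2 * m + 1) (k + 1) ^ 2 -
        (S2 (2 * m + 1) m + S3 (2 * m + 1) m - S12 (2 * m + 1) m) / 4) +
        (S2 (2 * m + 1) m + S3 (2 * m + 1) m - S12 (2 * m + 1) m) * (1 / 2 * (1 / 2)) =
        ∑ k ∈ range m, wq (2 * m + 1) k ^ 2 / pO (2 * m + 1) (k + 1) ^ 2 := by ring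
    rw [e2, mul_sum, mul_sum]
    apply sum_congr rfl
    intro j _
    rw [VB_m, hm]
    ring
  rw [e1]
  have c4 : Dv p 0 (1 / 2 * (1 / 2) : ℚ) := Dv_mul_int hp h h
  exact Dv_mul hp (k := 1) (l := 3) (Dv_p hp) (Dv_int_mul hp (Dv_mul_int hp (sign_int hp m) hB)
    (Dv_add hp (Dv_mono (by norm_num) hV)
      (Dv_mul_int hp (Dv_sub hp (Dv_add hp s2 s3) s12) c4)))

theorem VB_mid : Dv p 4 (VB (m + 1) m - (-1) ^ m * (p : ℚ) * (1 / 2 * (1 / 2))) := by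
  have h := Dv_half hp h5
  have h3 := Dv_third hp h5
  have Hz := Hzp hp h5 hm
  have hX := BX_cong hp h5 Hz
  have s2 := S2_Dv3 hp h5 Hz
  have s3 := S3_Dv hp Hz m (by omega)
  rw [VB_mm]
  have c4 : Dv p 0 (1 / 2 * (1 / 2) : ℚ) := Dv_mul_int hp h h
  generalize pB (2 * m + 1) m ^ 3 / (4 ^ m) ^ 3 = X at *
  have e : (-1 : ℚ) ^ m * ((2 * m + 1 : ℕ) : ℚ) * (1 / 4 * X) -
      (-1) ^ m * (p : ℚ) * (1 / 2 * (1 / 2)) = (p : ℚ) * ((-1) ^ m * (1 / 2 * (1 / 2)) *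
      ((X - (1 + 3 / 4 * (S2 (2 * m + 1) m + S3 (2 * m + 1) m))) +
        (S2 (2 * m + 1) m + S3 (2 * m + 1) m) * (3 * (1 / 2 * (1 / 2))))) := by
    rw [hm]; ring
  rw [e]
  exact Dv_mul hp (k := 1) (l := 3) (Dv_p hp) (Dv_int_mul hp (Dv_mul_int hp (sign_int hp m) c4)
    (Dv_add hp (Dv_mono (by norm_num) hX) (Dv_mul_int hp (Dv_add hp s2 s3)
      (Dv_mul_int hp (Dv_ofNat hp 3) c4))))

/-- The third congruence of the second question. -/
theorem third_cong : Dv p 4 (∑ l ∈ range p,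
    (42 * (l : ℚ) + 5) * (Nat.centralBinom l : ℚ) ^ 3 / 4096 ^ l -
    (5 * (-1) ^ m * (p : ℚ) - eulerNum (p - 3) * (p : ℚ) ^ 3)) := by
  have h := Dv_half hp h5
  have h1 := sumB_diag p
  have h2 : ∑ l ∈ range p, (FB l l + VB (l + 1) l) =
      1 / 4 * ∑ l ∈ range p, (42 * (l : ℚ) + 5) * (Nat.centralBinom l : ℚ) ^ 3 / 4096 ^ l := by
    rw [mul_sum]
    apply sum_congr rfl
    intro l _
    rw [FB_diag]
    ring
  have e0 : p = m + 1 + m := by omega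
  have h3 : ∑ n ∈ range p, FB n 0 = ∑ n ∈ range (m + 1), FB n 0 +
      ∑ n ∈ range m, FB (m + 1 + n) 0 := by
    conv_lhs => rw [e0, sum_range_add]
  have h4 := sumB_rect (m + 1) m p
  rw [← e0] at h4
  have h6 : ∑ k ∈ range p, VB (m + 1) k = ∑ k ∈ range m, VB (m + 1) k + VB (m + 1) m +
      ∑ j ∈ range m, VB (m + 1) (m + 1 + j) := by
    conv_lhs => rw [e0, sum_range_add, sum_range_succ]
  have h7 : ∑ n ∈ range (m + 1), FB n 0 = ∑ n ∈ range (m + 1), FA n 0 :=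
    sum_congr rfl (fun n _ => FB_zero_eq_FA n)
  have h8 : Dv p 4 (∑ n ∈ range m, FB (m + 1 + n) p -
      1 / 4 * ∑ n ∈ range m, FA (m + 1 + n) 0) := by
    rw [mul_sum, ← sum_sub_distrib]
    apply sum_Dv hp _ m 4
    intro j hj
    have := FB_p_cong hp h5 hm j hj
    rw [← hm, FB_zero_eq_FA] at this
    exact this
  have a1 := main_cong hp h5 hm
  have a2 := tail_cong hp h5 hm
  have a3 := VB_head hp h5 hm
  have a4 := VB_mid hp h5 hm
  have a5 := VB_tail hp h5 hm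
  rw [h2, h3] at h1
  rw [h6] at h4
  rw [h7] at h1
  generalize ∑ l ∈ range p, (42 * (l : ℚ) + 5) * (Nat.centralBinom l : ℚ) ^ 3 / 4096 ^ l = S at *
  generalize ∑ n ∈ range (m + 1), FA n 0 = M at *
  generalize ∑ n ∈ range m, FB (m + 1 + n) 0 = T' at *
  generalize ∑ k ∈ range p, VB p k = V' at *
  generalize ∑ n ∈ range m, FB (m + 1 + n) p = W' at *
  generalize ∑ n ∈ range m, FA (m + 1 + n) 0 = T at *
  generalize ∑ k ∈ range m, VB (m + 1) k = V1 at *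
  generalize ∑ j ∈ range m, VB (m + 1) (m + 1 + j) = V3 at *
  have e : S - (5 * (-1) ^ m * (p : ℚ) - eulerNum (p - 3) * (p : ℚ) ^ 3) =
    4 * (M - (-1) ^ m * (p : ℚ)) + 4 * V1 + 4 * (VB (m + 1) m -
      (-1) ^ m * (p : ℚ) * (1 / 2 * (1 / 2))) + 4 * V3 + 4 * (W' - 1 / 4 * T) +
      (T + (p : ℚ) ^ 3 * eulerNum (p - 3)) := by
    linear_combination 4 * h1 + 4 * h4
  rw [e]
  have f := Dv_ofNat hp 4
  exact Dv_add hp (Dv_add hp (Dv_add hp (Dv_add hp (Dv_add hp (Dv_int_mul hp f a1)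
    (Dv_int_mul hp f a3)) (Dv_int_mul hp f a4)) (Dv_int_mul hp f a5)) (Dv_int_mul hp f h8)) a2

end

end Pool.Agent.Helper91
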